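import Mathlib
import Pool.Agent.H374R2.T.Defs

/-!
Definitions for the theorem on the Beal and Fermat-Catalan equations with one small base.
-/

namespace Pool.Agent.H374R2.V

open Pool.Agent.H374R2.T

/-- The integer `E_n = U V' P_n - U' V Q_n`. -/
def EE (q n U V U' V' : ℕ) (T : ℤ) : ℤ :=
  ((U * V' : ℕ) : ℤ) * pf q n 1 ((U : ℤ) ^ q) T - ((U' * V : ℕ) : ℤ) * pf q n (-1) ((U : ℤ) ^ q) T

/-- The height of a solution of `U ^ q - a * V ^ q = T`. -/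
def HH (q : ℕ) (a : ℤ) (U V : ℕ) : ℕ := max (U ^ q) (a.natAbs * V ^ q)

/-- A solution of `U ^ q - a * V ^ q = T` with `d ^ y ∣ T`, `|T| ≤ N ^ y`, in the class `j`
(that is, `|T|` is about the power `j / 50` of the height). -/
structure Sol (q d N j : ℕ) (a : ℤ) (U V y : ℕ) (T : ℤ) : Prop where
  U0 : 0 < U
  V0 : 0 < V
  y0 : 0 < y
  T0 : T ≠ 0
  a0 : a ≠ 0
  eq : (U : ℤ) ^ q - a * (V : ℤ) ^ q = T
  dT : (d : ℤ) ^ y ∣ T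
  TN : T.natAbs ≤ N ^ y
  UV : Nat.Coprime U V
  Ud : Nat.Coprime U d
  Vd : Nat.Coprime V d
  lo : HH q a U V ^ j ≤ T.natAbs ^ 50
  up : j = 49 ∨ (j < 49 ∧ T.natAbs ^ 50 ≤ HH q a U V ^ (j + 1))

/-- The multiples `B ≤ N` of `d` which occur in a solution of `U ^ q - s * A ^ (q x' + i) = σ B ^ y`. -/
def SolV (N q i d A : ℕ) (s σ : ℤ) : Set ℕ :=
  {B | 0 < B ∧ B ≤ N ∧ d ∣ B ∧ Nat.Coprime A B ∧ (¬ ∃ w k : ℕ, 2 ≤ k ∧ B = w ^ k) ∧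
    ∃ x' y U : ℕ, 0 < y ∧ 0 < U ∧ (U : ℤ) ^ q - s * (A : ℤ) ^ (q * x' + i) = σ * (B : ℤ) ^ y}

end Pool.Agent.H374R2.V
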