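import Mathlib
import Pool.Agent.H374R2.V.Defs

/-!
Blueprint (statements only) for the theorem: for one hundred per cent of the integers `B ≤ N`
and every `A ≤ N ^ δ` coprime to `B` no number `A^x + B^y` or `|A^x - B^y|` with `x, y ≥ 1` is a
`z`-th power with `z ≥ 3`.
-/

namespace Pool.Agent.H374R2.V

open Finset Pool.Agent.H374R2.T

/-- Task R1 (size of the remainder of the Padé approximation over the reals). -/
theorem pf_real {q n : ℕ} {X T : ℤ} (hq : IsPrimePow q) (hX : 0 < X) (hT : 3 * |T| ≤ X) :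
    |((pf q n 1 X T : ℤ) : ℝ) - (1 - (T : ℝ) / X) ^ ((1 : ℝ) / q) * ((pf q n (-1) X T : ℤ) : ℝ)| ≤
      2 * (8 * (q : ℝ) ^ 2) ^ n * (X : ℝ) ^ n * |(T : ℝ) / X| ^ (2 * n + 1) := by
  sorry

/-- Task R2 (`E_n` is small when both values `T`, `T'` are small; consequence of R1). -/
theorem EE_real {q n U V U' V' : ℕ} {a T T' : ℤ} (hq : IsPrimePow q) (ha : 0 < a) (hU : 0 < U)
    (hV : 0 < V) (hU' : 0 < U') (hV' : 0 < V') (hT : (U : ℤ) ^ q - a * (V : ℤ) ^ q = T)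
    (hT' : (U' : ℤ) ^ q - a * (V' : ℤ) ^ q = T') (h1 : 3 * |T| ≤ (U : ℤ) ^ q)
    (h2 : 3 * |T'| ≤ (U' : ℤ) ^ q) :
    |((EE q n U V U' V' T : ℤ) : ℝ)| ≤ 4 * (8 * (q : ℝ) ^ 2) ^ n * ((U : ℝ) ^ q) ^ n * (U * U') *
      max (|(T' : ℝ)| / (U' : ℝ) ^ q) ((|(T : ℝ)| / (U : ℝ) ^ q) ^ (2 * n + 1)) := by
  sorry

/-- Task K0 (the height is large compared with `q`). -/
theorem large {q d N j U V y : ℕ} {a T : ℤ} (hq3 : 3 ≤ q) (hN : (10000 * q ^ 2) ^ 102 ≤ N)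
    (hd : N ^ 99 ≤ d ^ 100) (S : Sol q d N j a U V y T) :
    1000 ≤ Real.log (HH q a U V) ∧
      Real.log (16 * (q : ℝ) ^ 2) + 2 ≤ Real.log (HH q a U V) / 100 ∧
      (99 / 100) * Real.log |(T : ℝ)| ≤ y * Real.log d := by
  sorry

/-- Task K1 (lower bound for `E_n` by divisibility by a power of `d`). -/
theorem EE_low {q d N n j U V y U' V' y' : ℕ} {a T T' : ℤ} (hq : IsPrimePow q) (hq3 : 3 ≤ q)
    (hqd : Nat.Coprime q d) (hN : (10000 * q ^ 2) ^ 102 ≤ N) (hd : N ^ 99 ≤ d ^ 100)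
    (S : Sol q d N j a U V y T) (S' : Sol q d N j a U' V' y' T')
    (hroot : ∀ l : ℕ, l.Prime → l ∣ d → U * V' ≡ U' * V [MOD l])
    (hE : EE q n U V U' V' T ≠ 0) :
    (99 * (j : ℝ) / 5000) * min ((2 * n + 1) * Real.log (HH q a U V)) (Real.log (HH q a U' V')) ≤
      Real.log |((EE q n U V U' V' T : ℤ) : ℝ)| := by
  sorry

/-- Task K2 (upper bound for `E_n`). -/
theorem EE_up {q d N n j U V y U' V' y' : ℕ} {a T T' : ℤ} (hq : IsPrimePow q) (hq3 : 3 ≤ q)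
    (hN : (10000 * q ^ 2) ^ 102 ≤ N) (hd : N ^ 99 ≤ d ^ 100)
    (S : Sol q d N j a U V y T) (S' : Sol q d N j a U' V' y' T')
    (hE : EE q n U V U' V' T ≠ 0) :
    Real.log |((EE q n U V U' V' T : ℤ) : ℝ)| ≤ (n + 1) * (Real.log (16 * (q : ℝ) ^ 2) + 2) +
      n * Real.log (HH q a U V) + (Real.log (HH q a U V) + Real.log (HH q a U' V')) / q -
      (if j = 49 then 0 else 1 - ((j : ℝ) + 1) / 50) *
        min ((2 * n + 1) * Real.log (HH q a U V)) (Real.log (HH q a U' V')) := by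
  sorry

/-- Task G (gap principle and upper bound for the ratio of the heights; consequence of K0, K1,
K2). -/
theorem gap {q d N j U V y U' V' y' : ℕ} {a T T' : ℤ} (hq : IsPrimePow q) (hq3 : 3 ≤ q)
    (hqd : Nat.Coprime q d) (hN : (10000 * q ^ 2) ^ 102 ≤ N) (hd : N ^ 99 ≤ d ^ 100)
    (S : Sol q d N j a U V y T) (S' : Sol q d N j a U' V' y' T')
    (hroot : ∀ l : ℕ, l.Prime → l ∣ d → U * V' ≡ U' * V [MOD l])
    (hne : U ≠ U' ∨ V ≠ V') (hH : HH q a U V ≤ HH q a U' V') :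
    (188 / 100) * Real.log (HH q a U V) ≤ Real.log (HH q a U' V') ∧
      Real.log (HH q a U' V') ≤ 15 * Real.log (HH q a U V) := by
  sorry

/-- Task CH (a chain with growing gaps is short). -/
theorem chain {ι : Type*} (F : Finset ι) (f : ι → ℝ) (hf : ∀ i ∈ F, 0 < f i)
    (h : ∀ i ∈ F, ∀ j ∈ F, i ≠ j → f i ≤ f j → (188 / 100) * f i ≤ f j ∧ f j ≤ 15 * f i) :
    F.card ≤ 5 := by
  sorry

/-- Task CV (number of `B` for given data; consequence of G and CH). -/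
theorem solV_card {N q i d A : ℕ} {s σ : ℤ} (hs : s = 1 ∨ s = -1) (hσ : σ = 1 ∨ σ = -1)
    (hq : IsPrimePow q) (hq3 : 3 ≤ q) (hN : (10000 * q ^ 2) ^ 102 ≤ N) (hd : N ^ 99 ≤ d ^ 100)
    (hd0 : 0 < d) (hqd : Nat.Coprime q d) (hA : 0 < A) :
    (SolV N q i d A s σ).Finite ∧ (SolV N q i d A s σ).ncard ≤ 250 * q ^ d.primeFactors.card := by
  sorry

/-- Task TL (two logarithms, all primes `p`). -/
theorem two_logs {p h ν q i y a b A : ℕ} (hp : p.Prime) (hh : 1 ≤ h) (hν : 1 ≤ ν)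
    (ha : 0 < a) (hb : 0 < b) (hA : 0 < A) (hab : a ≠ b) (hah : a < 2 ^ h) (hbh : b < 2 ^ h)
    (hAν : A < 2 ^ ν) (hpa : ¬ p ∣ a) (hpb : ¬ p ∣ b) (hpA : ¬ p ∣ A) (hi : 0 < i) (hiq : i < q)
    (hiqc : Nat.Coprime i q)
    (hrel : (p : ℤ) ^ y ∣ (a : ℤ) ^ (2 * q) - (b : ℤ) ^ (2 * q) * (A : ℤ) ^ (2 * i))
    (hqbig : 600 * p * ν * (Nat.log 2 q + 1) ≤ q) :
    y < 150000 * p ^ 2 * (Nat.log 2 q + 1) ^ 2 * h * ν := by
  sorry

/-- Task QB (bound for a prime exponent `q`). -/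
theorem q_bound {N R A B q x y U p : ℕ} {s σ : ℤ} (hs : s = 1 ∨ s = -1) (hσ : σ = 1 ∨ σ = -1)
    (hq : q.Prime) (hq3 : 3 ≤ q) (hA : 0 < A) (hAR : A ≤ R) (hRN : R ≤ N)
    (hAB : Nat.Coprime A B) (hB0 : 0 < B) (hBN : B ≤ N) (hx : 0 < x) (hx1 : A = 1 → q ∣ x)
    (hy : 0 < y) (hU : 2 ≤ U) (hp : p.Prime) (hp3 : 3 ≤ p) (hpR : p ≤ R) (hpB : p ∣ B)
    (heq : (U : ℤ) ^ q - s * (A : ℤ) ^ x = σ * (B : ℤ) ^ y) :
    q < 10 ^ 6 * R ^ 2 * (Nat.log 2 q + 1) ^ 2 * (Nat.log 2 N + 1) ^ 2 := by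
  sorry

/-- Task QN (numerical consequence). -/
theorem q_num : ∃ ν₀ : ℕ, ∀ ν R q : ℕ, ν₀ ≤ ν → 1 ≤ R → R < 2 ^ ν →
    q < 10 ^ 6 * R ^ 2 * (Nat.log 2 q + 1) ^ 2 * ν ^ 2 → q ≤ R ^ 2 * ν ^ 5 := by
  sorry

end Pool.Agent.H374R2.V
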