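import Mathlib

/-!
Definition for the second part: squares.
-/

namespace Pool.Agent.H374R2.V

/-- Integers `B` with `α ^ (2 k) + B ^ y` or `α ^ (2 k) - B ^ y` a square, `2 ≤ α ≤ K`. -/
def S2 (N K : ℕ) : Set ℕ :=
  {B | 2 ≤ B ∧ B ≤ N ∧ ∃ α k y C : ℕ, 2 ≤ α ∧ α ≤ K ∧ Nat.Coprime α B ∧ 0 < k ∧ 0 < y ∧
    (α ^ (2 * k) + B ^ y = C ^ 2 ∨ B ^ y + C ^ 2 = α ^ (2 * k))}

end Pool.Agent.H374R2.V
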