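import Mathlib
import Pool.Agent.H374R2.V.DefsZ

/-!
Blueprint (statements only), second part: squares. For every fixed `K` and one hundred per cent of
the integers `B` no number `A^x + B^y` or `|A^x - B^y|` with `2 ≤ A ≤ K` coprime to `B` is a square.
-/

namespace Pool.Agent.H374R2.V

open Finset

/-- Task ZD (a residue class of primes modulo which `D` is not a square). -/
theorem nonres_class (D : ℤ) (hD : ¬ IsSquare D) : ∃ M c : ℕ, 0 < M ∧ Nat.Coprime c M ∧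
    ∀ p : ℕ, p.Prime → p ≡ c [MOD M] → ¬ IsSquare ((D : ℤ) : ZMod p) := by
  sorry

/-- Task ZE (density; consequence of ZD). -/
theorem nonres_density (D : ℤ) (hD : ¬ IsSquare D) {ε : ℝ} (hε : 0 < ε) :
    ∃ P₀ N₀ : ℕ, ∀ N : ℕ, N₀ ≤ N →
      (({B : ℕ | 0 < B ∧ B ≤ N ∧ ∀ p : ℕ, p ≤ P₀ → p.Prime → ¬ IsSquare ((D : ℤ) : ZMod p) →
        ¬ p ∣ B}.ncard : ℕ) : ℝ) ≤ ε * N := by
  sorry

/-- Task ZF1 (factorisation, `B` odd). -/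
theorem factor_odd {α k y B C : ℕ} (hα : 2 ≤ α) (hk : 0 < k) (hy : 0 < y) (hB : 2 ≤ B)
    (hodd : Odd B) (hcop : Nat.Coprime α B)
    (h : α ^ (2 * k) + B ^ y = C ^ 2 ∨ B ^ y + C ^ 2 = α ^ (2 * k)) :
    ∃ r S : ℕ, r * S = B ∧ 0 < r ∧ r < S ∧
      (S ^ y = 2 * α ^ k + r ^ y ∨ S ^ y + r ^ y = 2 * α ^ k) := by
  sorry

/-- Task ZF2 (factorisation, `B` even). -/
theorem factor_even {α k y B C : ℕ} (hα : 2 ≤ α) (hk : 0 < k) (hy : 0 < y) (hB : 2 ≤ B)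
    (hev : Even B) (hcop : Nat.Coprime α B)
    (h : α ^ (2 * k) + B ^ y = C ^ 2 ∨ B ^ y + C ^ 2 = α ^ (2 * k)) :
    ∃ r S : ℕ, r * S = B ∧ 0 < r ∧ Odd r ∧ 0 < S ∧ Even S ∧
      (S ^ y = 4 * α ^ k + 4 * r ^ y ∨ S ^ y + 4 * α ^ k = 4 * r ^ y ∨
        S ^ y + 4 * r ^ y = 4 * α ^ k) := by
  sorry

/-- Task ZY1 (bound for the exponents, `B` odd). -/
theorem y_odd {α k y r S N K : ℕ} (hα : 2 ≤ α) (hαK : α ≤ K) (hy : 0 < y) (hr : 0 < r)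
    (hrS : r < S) (hSN : S ≤ N) (hcr : Nat.Coprime α r) (hcS : Nat.Coprime α S)
    (h : S ^ y = 2 * α ^ k + r ^ y ∨ S ^ y + r ^ y = 2 * α ^ k) :
    k ≤ 2 * K * (Nat.log 2 N + 1) + Nat.log 2 y ∧ y ≤ 2 + K * k := by
  sorry

/-- Task ZY2 (bound for the exponents, `B` even; uses two logarithms for `p = 2`). -/
theorem y_even {α k y r S N K : ℕ} (hα : 2 ≤ α) (hαo : Odd α) (hαK : α ≤ K) (hk : 0 < k)
    (hy : 0 < y) (hr : 0 < r) (hro : Odd r) (hrN : r ≤ N) (hS : 0 < S) (hSe : Even S)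
    (hSN : S ≤ N) (hcr : Nat.Coprime α r)
    (h : S ^ y = 4 * α ^ k + 4 * r ^ y ∨ S ^ y + 4 * α ^ k = 4 * r ^ y ∨
        S ^ y + 4 * r ^ y = 4 * α ^ k) :
    y ≤ 3 + Nat.log 2 y + 600000 * K * (Nat.log 2 y + 1) ^ 2 * (Nat.log 2 N + 2) := by
  sorry

/-- Task ZN (numerical lemma). -/
theorem y_num (K : ℕ) : ∃ ν₀ : ℕ, ∀ ν y k : ℕ, ν₀ ≤ ν →
    ((y ≤ 3 + Nat.log 2 y + 600000 * K * (Nat.log 2 y + 1) ^ 2 * (ν + 1) → y ≤ ν ^ 2) ∧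
      (k ≤ 2 * K * ν + Nat.log 2 y → y ≤ 2 + K * k → y ≤ ν ^ 2)) := by
  sorry

/-- Task ZC (count; consequence of ZF1, ZF2, ZY1, ZY2, ZN). -/
theorem S2_card (K : ℕ) : ∃ N₀ : ℕ, ∀ N : ℕ, N₀ ≤ N →
    (S2 N K).ncard ≤ 8 * (K + 1) * ((Nat.log 2 N + 1) ^ 2 + 1) * ((Nat.log 2 N + 1) ^ 3 + 1) *
      (Nat.sqrt N + 1) := by
  sorry

/-- Task ZS (consequence of ZC). -/
theorem S2_null (K : ℕ) {ε : ℝ} (hε : 0 < ε) : ∃ N₀ : ℕ, ∀ N : ℕ, N₀ ≤ N →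
    ((S2 N K).ncard : ℝ) ≤ ε * N := by
  sorry

end Pool.Agent.H374R2.V
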