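import Mathlib

/-! Task CH: the chain lemma. -/

set_option autoImplicit false

namespace Pool.Agent.H374R2.V.CH

theorem aux {ι : Type*} (f : ι → ℝ) (k : ℕ) : ∀ F : Finset ι, F.card = k + 1 →
    (∀ i ∈ F, 0 < f i) →
    (∀ i ∈ F, ∀ j ∈ F, i ≠ j → f i ≤ f j → (188 / 100) * f i ≤ f j ∧ f j ≤ 15 * f i) →
    ∃ m ∈ F, ∃ M ∈ F, (∀ x ∈ F, f m ≤ f x) ∧ (188 / 100 : ℝ) ^ k * f m ≤ f M := by
  classical
  induction k with
  | zero =>
    intro F hF _ _
    have hne : F.Nonempty := by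
      rw [← Finset.card_pos]
      omega
    obtain ⟨m, hm, hmin⟩ := Finset.exists_min_image F f hne
    exact ⟨m, hm, m, hm, hmin, by simp⟩
  | succ k ih =>
    intro F hF hpos h
    have hne : F.Nonempty := by
      rw [← Finset.card_pos]
      omega
    obtain ⟨m, hm, hmin⟩ := Finset.exists_min_image F f hne
    have hcard : (F.erase m).card = k + 1 := by
      rw [Finset.card_erase_of_mem hm, hF]
      omega
    obtain ⟨m', hm', M', hM', h1, h2⟩ := ih (F.erase m) hcard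
      (fun i hi => hpos i (Finset.mem_of_mem_erase hi))
      (fun i hi j hj => h i (Finset.mem_of_mem_erase hi) j (Finset.mem_of_mem_erase hj))
    have hm'F := Finset.mem_of_mem_erase hm'
    have h3 := (h m hm m' hm'F (Finset.ne_of_mem_erase hm').symm (hmin m' hm'F)).1
    refine ⟨m, hm, M', Finset.mem_of_mem_erase hM', hmin, ?_⟩
    calc (188 / 100 : ℝ) ^ (k + 1) * f m = (188 / 100 : ℝ) ^ k * ((188 / 100) * f m) := by ring
      _ ≤ (188 / 100 : ℝ) ^ k * f m' := by gcongr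
      _ ≤ f M' := h2

theorem chain {ι : Type*} (F : Finset ι) (f : ι → ℝ) (hf : ∀ i ∈ F, 0 < f i)
    (h : ∀ i ∈ F, ∀ j ∈ F, i ≠ j → f i ≤ f j → (188 / 100) * f i ≤ f j ∧ f j ≤ 15 * f i) :
    F.card ≤ 5 := by
  by_contra hcon
  obtain ⟨G, hGF, hG⟩ := Finset.exists_subset_card_eq (show 6 ≤ F.card by omega)
  obtain ⟨m, hm, M, hM, h1, h2⟩ := aux f 5 G hG (fun i hi => hf i (hGF hi))
    (fun i hi j hj => h i (hGF hi) j (hGF hj))
  have hm0 := hf m (hGF hm)
  have h3 : (15 : ℝ) * f m < (188 / 100 : ℝ) ^ 5 * f m := by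
    have : (15 : ℝ) < (188 / 100 : ℝ) ^ 5 := by norm_num
    exact mul_lt_mul_of_pos_right this hm0
  have hne : m ≠ M := by
    rintro rfl
    linarith
  have h4 := (h m (hGF hm) M (hGF hM) hne (h1 M hM)).2
  linarith

end Pool.Agent.H374R2.V.CH
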