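import Mathlib
import Pool.Agent.H374R2.V.Defs

/-!
Task K0: the height is large compared with `q`.
-/

namespace Pool.Agent.H374R2.V.K0

open Finset Pool.Agent.H374R2.T

theorem N_pos {q N : ℕ} (hq3 : 3 ≤ q) (hN : (10000 * q ^ 2) ^ 102 ≤ N) : 0 < N := by
  have : 0 < (10000 * q ^ 2) ^ 102 := by positivity
  omega

theorem d_pos {d N : ℕ} (hN : 0 < N) (hd : N ^ 99 ≤ d ^ 100) : 0 < d := by
  rcases Nat.eq_zero_or_pos d with rfl | h
  · have : 0 < N ^ 99 := by positivity
    simp at hd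
    omega
  · exact h

theorem HH_pos {q d N j U V y : ℕ} {a T : ℤ} (S : Sol q d N j a U V y T) : 0 < HH q a U V := by
  unfold HH
  exact lt_of_lt_of_le (pow_pos S.U0 q) (le_max_left _ _)

theorem T_le {q d N j U V y : ℕ} {a T : ℤ} (S : Sol q d N j a U V y T) :
    T.natAbs ≤ 2 * HH q a U V := by
  have h1 : T.natAbs ≤ U ^ q + a.natAbs * V ^ q := by
    rw [← S.eq]
    refine (Int.natAbs_sub_le _ _).trans ?_
    rw [Int.natAbs_mul, Int.natAbs_pow, Int.natAbs_pow, Int.natAbs_natCast, Int.natAbs_natCast]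
  have h2 : U ^ q ≤ HH q a U V := le_max_left _ _
  have h3 : a.natAbs * V ^ q ≤ HH q a U V := le_max_right _ _
  omega

/-- Task K0 (the height is large compared with `q`). -/
theorem large {q d N j U V y : ℕ} {a T : ℤ} (hq3 : 3 ≤ q) (hN : (10000 * q ^ 2) ^ 102 ≤ N)
    (hd : N ^ 99 ≤ d ^ 100) (S : Sol q d N j a U V y T) :
    1000 ≤ Real.log (HH q a U V) ∧
      Real.log (16 * (q : ℝ) ^ 2) + 2 ≤ Real.log (HH q a U V) / 100 ∧
      (99 / 100) * Real.log |(T : ℝ)| ≤ y * Real.log d := by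
  have hN0 := N_pos hq3 hN
  have hd0 := d_pos hN0 hd
  have hH0 := HH_pos S
  have hTle := T_le S
  have hT0 : 0 < T.natAbs := Int.natAbs_pos.2 S.T0
  have hTabs : |(T : ℝ)| = (T.natAbs : ℝ) := by
    rw [Nat.cast_natAbs, Int.cast_abs]
  have hNR : (0 : ℝ) < N := by exact_mod_cast hN0
  have hdR : (0 : ℝ) < d := by exact_mod_cast hd0
  have hHR : (0 : ℝ) < (HH q a U V : ℕ) := by exact_mod_cast hH0
  have hTR : (0 : ℝ) < (T.natAbs : ℝ) := by exact_mod_cast hT0
  have hqR : (3 : ℝ) ≤ q := by exact_mod_cast hq3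
  -- the logarithms of `N` and `d`
  have h1 : 99 * Real.log N ≤ 100 * Real.log d := by
    have : ((N : ℝ)) ^ 99 ≤ (d : ℝ) ^ 100 := by exact_mod_cast hd
    have := Real.log_le_log (by positivity) this
    rw [Real.log_pow, Real.log_pow] at this
    exact_mod_cast this
  -- the logarithm of `T`
  have h2 : Real.log |(T : ℝ)| ≤ y * Real.log N := by
    rw [hTabs, ← Real.log_pow]
    exact Real.log_le_log hTR (by exact_mod_cast S.TN)
  have h3 : (99 / 100) * Real.log |(T : ℝ)| ≤ y * Real.log d := by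
    have hy : (0 : ℝ) ≤ y := by positivity
    have h4 : (y : ℝ) * (99 * Real.log N) ≤ y * (100 * Real.log d) :=
      mul_le_mul_of_nonneg_left h1 hy
    nlinarith
  -- the height
  have h5 : Real.log d ≤ Real.log (T.natAbs : ℝ) := by
    refine Real.log_le_log hdR ?_
    have h6 : d ^ y ∣ T.natAbs := by
      have := S.dT
      rw [← Int.natAbs_dvd_natAbs, Int.natAbs_pow, Int.natAbs_natCast] at this
      exact this
    have h7 : d ^ y ≤ T.natAbs := Nat.le_of_dvd hT0 h6
    have h8 : d ≤ d ^ y := Nat.le_self_pow S.y0.ne' d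
    exact_mod_cast h8.trans h7
  have h6 : Real.log (T.natAbs : ℝ) ≤ Real.log 2 + Real.log (HH q a U V) := by
    rw [← Real.log_mul (by norm_num) hHR.ne']
    exact Real.log_le_log hTR (by exact_mod_cast hTle)
  have h7 : 102 * Real.log (10000 * (q : ℝ) ^ 2) ≤ Real.log N := by
    have : (10000 * (q : ℝ) ^ 2) ^ 102 ≤ N := by exact_mod_cast hN
    have := Real.log_le_log (by positivity) this
    rw [Real.log_pow] at this
    exact_mod_cast this
  have hl2 := Real.log_two_gt_d9
  have hl2' := Real.log_two_lt_d9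
  have h8 : 16 * Real.log 2 ≤ Real.log (10000 * (q : ℝ) ^ 2) := by
    have : (16 : ℝ) * Real.log 2 = Real.log (2 ^ 16) := by rw [Real.log_pow]; norm_num
    rw [this]
    refine Real.log_le_log (by positivity) ?_
    nlinarith
  have h9 : 9 * Real.log 2 + Real.log (16 * (q : ℝ) ^ 2) ≤ Real.log (10000 * (q : ℝ) ^ 2) := by
    have : (9 : ℝ) * Real.log 2 = Real.log (2 ^ 9) := by rw [Real.log_pow]; norm_num
    rw [this, ← Real.log_mul (by positivity) (by positivity)]
    refine Real.log_le_log (by positivity) ?_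
    nlinarith [sq_nonneg (q : ℝ)]
  refine ⟨?_, ?_, h3⟩
  · linarith
  · linarith

end Pool.Agent.H374R2.V.K0
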