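import Mathlib
import Pool.Agent.H374R2.V.Defs
import Pool.Agent.H374R2.V.K0
import Pool.Agent.H374R2.V.P4

/-!
Task K1: lower bound for `E_n` by divisibility by a power of `d`.
-/

namespace Pool.Agent.H374R2.V.K1

open Finset Pool.Agent.H374R2.T

theorem EE_dvd {q d N n j U V y U' V' y' W : ℕ} {a T T' : ℤ} (hq : IsPrimePow q)
    (hqd : Nat.Coprime q d)
    (S : Sol q d N j a U V y T) (S' : Sol q d N j a U' V' y' T')
    (hroot : ∀ l : ℕ, l.Prime → l ∣ d → U * V' ≡ U' * V [MOD l])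
    (hW1 : W ≤ (2 * n + 1) * y) (hW2 : W ≤ y') :
    (d : ℤ) ^ W ∣ EE q n U V U' V' T := by
  unfold EE
  apply P4.pf_congr hq hqd
  · apply IsCoprime.pow_left
    exact_mod_cast (Nat.isCoprime_iff_coprime.mpr S.Ud)
  · exact_mod_cast (Nat.isCoprime_iff_coprime.mpr (Nat.Coprime.mul_left S'.Ud S.Vd))
  · exact_mod_cast (Nat.isCoprime_iff_coprime.mpr (Nat.Coprime.mul_left S.Ud S'.Vd))
  · intro l hl hld
    constructor
    · have h1 : (l : ℤ) ∣ (d : ℤ) := Int.natCast_dvd_natCast.2 hld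
      exact ((dvd_pow_self (l : ℤ) S.y0.ne').trans (pow_dvd_pow_of_dvd h1 y)).trans S.dT
    · have := (Nat.modEq_iff_dvd.1 (hroot l hl hld))
      push_cast at this ⊢
      exact this
  · calc (d : ℤ) ^ W ∣ (d : ℤ) ^ ((2 * n + 1) * y) := pow_dvd_pow _ hW1
      _ = ((d : ℤ) ^ y) ^ (2 * n + 1) := by rw [← pow_mul, mul_comm]
      _ ∣ T ^ (2 * n + 1) := pow_dvd_pow_of_dvd S.dT _
  · have e1 : ((U' * V : ℕ) : ℤ) ^ q * (U : ℤ) ^ q -
        ((U * V' : ℕ) : ℤ) ^ q * ((U : ℤ) ^ q - T) = (U : ℤ) ^ q * (V : ℤ) ^ q * T' := by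
      have e2 : (U : ℤ) ^ q - T = a * (V : ℤ) ^ q := by rw [← S.eq]; ring
      rw [e2, ← S'.eq]
      push_cast
      rw [mul_pow, mul_pow]
      ring
    rw [e1]
    exact (((pow_dvd_pow _ hW2).trans S'.dT)).mul_left _

theorem yd {q d N j U V y : ℕ} {a T : ℤ} (hq3 : 3 ≤ q) (hN : (10000 * q ^ 2) ^ 102 ≤ N)
    (hd : N ^ 99 ≤ d ^ 100) (S : Sol q d N j a U V y T) :
    (99 * (j : ℝ) / 5000) * Real.log (HH q a U V) ≤ y * Real.log d := by
  have h3 := (K0.large hq3 hN hd S).2.2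
  have hH0 := K0.HH_pos S
  have hHR : (0 : ℝ) < (HH q a U V : ℕ) := by exact_mod_cast hH0
  have hTabs : |(T : ℝ)| = (T.natAbs : ℝ) := by
    rw [Nat.cast_natAbs, Int.cast_abs]
  have h4 : (j : ℝ) * Real.log (HH q a U V) ≤ 50 * Real.log |(T : ℝ)| := by
    have : ((HH q a U V : ℕ) : ℝ) ^ j ≤ (T.natAbs : ℝ) ^ 50 := by exact_mod_cast S.lo
    have := Real.log_le_log (by positivity) this
    rw [Real.log_pow, Real.log_pow, ← hTabs] at this
    exact_mod_cast this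
  linarith

/-- Task K1 (lower bound for `E_n` by divisibility by a power of `d`). -/
theorem EE_low {q d N n j U V y U' V' y' : ℕ} {a T T' : ℤ} (hq : IsPrimePow q) (hq3 : 3 ≤ q)
    (hqd : Nat.Coprime q d) (hN : (10000 * q ^ 2) ^ 102 ≤ N) (hd : N ^ 99 ≤ d ^ 100)
    (S : Sol q d N j a U V y T) (S' : Sol q d N j a U' V' y' T')
    (hroot : ∀ l : ℕ, l.Prime → l ∣ d → U * V' ≡ U' * V [MOD l])
    (hE : EE q n U V U' V' T ≠ 0) :
    (99 * (j : ℝ) / 5000) * min ((2 * n + 1) * Real.log (HH q a U V)) (Real.log (HH q a U' V')) ≤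
      Real.log |((EE q n U V U' V' T : ℤ) : ℝ)| := by
  have hN0 := K0.N_pos hq3 hN
  have hd0 := K0.d_pos hN0 hd
  have hdR : (0 : ℝ) < d := by exact_mod_cast hd0
  have hc : (0 : ℝ) ≤ 99 * (j : ℝ) / 5000 := by positivity
  have h1 := yd hq3 hN hd S
  have h2 := yd hq3 hN hd S'
  set W : ℕ := min ((2 * n + 1) * y) y' with hW
  have hdvd := EE_dvd (n := n) hq hqd S S' hroot (min_le_left ((2 * n + 1) * y) y')
    (min_le_right ((2 * n + 1) * y) y')
  have h3 : (W : ℝ) * Real.log d ≤ Real.log |((EE q n U V U' V' T : ℤ) : ℝ)| := by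
    rw [← Real.log_pow]
    refine Real.log_le_log (by positivity) ?_
    have h4 : (d : ℤ) ^ W ≤ |EE q n U V U' V' T| :=
      Int.le_of_dvd (abs_pos.2 hE) ((dvd_abs _ _).2 hdvd)
    exact_mod_cast h4
  refine le_trans ?_ h3
  rcases le_total ((2 * n + 1) * y) y' with h | h
  · have hWe : W = (2 * n + 1) * y := min_eq_left h
    rw [hWe]
    calc (99 * (j : ℝ) / 5000) * min ((2 * n + 1) * Real.log (HH q a U V))
          (Real.log (HH q a U' V'))
        ≤ (99 * (j : ℝ) / 5000) * ((2 * n + 1) * Real.log (HH q a U V)) :=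
          mul_le_mul_of_nonneg_left (min_le_left _ _) hc
      _ = (2 * n + 1) * ((99 * (j : ℝ) / 5000) * Real.log (HH q a U V)) := by ring
      _ ≤ (2 * n + 1) * (y * Real.log d) := mul_le_mul_of_nonneg_left h1 (by positivity)
      _ = _ := by push_cast; ring
  · have hWe : W = y' := min_eq_right h
    rw [hWe]
    exact (mul_le_mul_of_nonneg_left (min_le_right _ _) hc).trans h2

end Pool.Agent.H374R2.V.K1
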