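import Mathlib
import Pool.Agent.H374R2.V.Defs
import Pool.Agent.H374R2.V.P2
import Pool.Agent.H374R2.T.TaskP1

set_option autoImplicit false

/-!
Task R1: the remainder of the Padé approximation of `(1 - z) ^ (1 / q)` over the reals.
-/

namespace Pool.Agent.H374R2.V.R1

open Finset Pool.Agent.H374R2.T Pool.Agent.H374R2.V

/-- coefficients of the Padé forms -/
noncomputable def bb (n : ℕ) (r : ℝ) (a : ℕ) : ℝ :=
  if a ≤ n then Ring.choose r a * (Nat.choose (2 * n - a) n : ℝ) else 0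

theorem choose_abs_le {t : ℝ} (h0 : 0 < t) (h1 : t < 1) (m : ℕ) : |Ring.choose t m| ≤ 1 := by
  have hf : (0 : ℝ) < (m.factorial : ℝ) := by exact_mod_cast Nat.factorial_pos m
  have h2 := P2.fact_choose t m
  have h3 : |∏ j ∈ range m, (t - j)| ≤ (m.factorial : ℝ) := by
    rw [abs_prod]
    clear h2 hf
    induction m with
    | zero => simp
    | succ m ih =>
      rw [prod_range_succ, Nat.factorial_succ]
      push_cast
      rw [mul_comm ((m : ℝ) + 1)]
      apply mul_le_mul ih _ (abs_nonneg _) (by positivity)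
      have hm : (0 : ℝ) ≤ m := Nat.cast_nonneg m
      rw [abs_le]
      constructor <;> linarith
  rw [← h2, abs_mul, abs_of_pos hf] at h3
  by_contra hcon
  rw [not_le] at hcon
  nlinarith

theorem choose_bound {t : ℝ} (h0 : 0 < t) (h1 : t < 1) {n a : ℕ} (ha : a ≤ n) :
    0 ≤ Ring.choose ((n : ℝ) - t) a ∧ Ring.choose ((n : ℝ) - t) a ≤ (Nat.choose n a : ℝ) := by
  have hf : (0 : ℝ) < (a.factorial : ℝ) := by exact_mod_cast Nat.factorial_pos a
  have h2 := P2.fact_choose ((n : ℝ) - t) a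
  have hj : ∀ j ∈ range a, 0 ≤ (n : ℝ) - t - j ∧ (n : ℝ) - t - j ≤ ((n - j : ℕ) : ℝ) := by
    intro j hj
    rw [mem_range] at hj
    have h3 : j + 1 ≤ n := by omega
    have h4 : (j : ℝ) + 1 ≤ n := by exact_mod_cast h3
    rw [Nat.cast_sub (by omega)]
    constructor <;> linarith
  have hp0 : 0 ≤ ∏ j ∈ range a, ((n : ℝ) - t - j) := prod_nonneg fun j h => (hj j h).1
  have hp1 : ∏ j ∈ range a, ((n : ℝ) - t - j) ≤ (a.factorial : ℝ) * (Nat.choose n a : ℝ) := by
    calc _ ≤ ∏ j ∈ range a, ((n - j : ℕ) : ℝ) :=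
          prod_le_prod (fun j h => (hj j h).1) (fun j h => (hj j h).2)
      _ = ((∏ j ∈ range a, (n - j) : ℕ) : ℝ) := by push_cast; rfl
      _ = _ := by
          rw [← Nat.descFactorial_eq_prod_range, Nat.descFactorial_eq_factorial_mul_choose]
          push_cast
          rfl
  rw [← h2] at hp0 hp1
  exact ⟨nonneg_of_mul_nonneg_right hp0 hf, le_of_mul_le_mul_left hp1 hf⟩

/-- the coefficients of `Q (1 + w) ^ t` -/
noncomputable def ee (n : ℕ) (t : ℝ) (j : ℕ) : ℝ :=
  ∑ a ∈ range (j + 1), bb n ((n : ℝ) - t) a * Ring.choose t (j - a)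

theorem ee_eq {n j : ℕ} (t : ℝ) (hj : j ≤ 2 * n) : ee n t j = bb n ((n : ℝ) + t) j := by
  have h := Pool.Agent.H374R2.T.TaskP1.pade_coeff n j hj t
  have h1 : ee n t j = ∑ a ∈ range (j + 1), Ring.choose ((n : ℝ) - t) a * Ring.choose t (j - a) *
      (Nat.choose (2 * n - a) n : ℝ) := by
    unfold ee
    refine sum_congr rfl fun a ha => ?_
    rw [mem_range] at ha
    unfold bb
    split_ifs with h2
    · ring
    · rw [Nat.choose_eq_zero_of_lt (show 2 * n - a < n by omega)]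
      simp
  rw [h1, h]
  unfold bb
  split_ifs with h2
  · rfl
  · rw [Nat.choose_eq_zero_of_lt (show 2 * n - j < n by omega)]
    simp

theorem ee_bound {n : ℕ} {t : ℝ} (h0 : 0 < t) (h1 : t < 1) (j : ℕ) : |ee n t j| ≤ 8 ^ n := by
  unfold ee
  have hterm : ∀ a ∈ range (j + 1), |bb n ((n : ℝ) - t) a * Ring.choose t (j - a)| ≤
      (4 : ℝ) ^ n * (if a ≤ n then (Nat.choose n a : ℝ) else 0) := by
    intro a _
    unfold bb
    split_ifs with h2
    · obtain ⟨h3, h4⟩ := choose_bound h0 h1 h2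
      have h5 := choose_abs_le h0 h1 (j - a)
      have h6 : (Nat.choose (2 * n - a) n : ℝ) ≤ 4 ^ n := by
        have h7 : Nat.choose (2 * n - a) n ≤ 4 ^ n := by
          calc Nat.choose (2 * n - a) n ≤ 2 ^ (2 * n - a) := Nat.choose_le_two_pow _ _
            _ ≤ 2 ^ (2 * n) := Nat.pow_le_pow_right (by norm_num) (by omega)
            _ = 4 ^ n := by rw [pow_mul]; norm_num
        exact_mod_cast h7
      rw [abs_mul, abs_mul, abs_of_nonneg h3, Nat.abs_cast]
      calc Ring.choose ((n : ℝ) - t) a * (Nat.choose (2 * n - a) n : ℝ) * |Ring.choose t (j - a)|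
          ≤ (Nat.choose n a : ℝ) * 4 ^ n * 1 := by gcongr
        _ = _ := by ring
    · simp
  calc |∑ a ∈ range (j + 1), bb n ((n : ℝ) - t) a * Ring.choose t (j - a)|
      ≤ ∑ a ∈ range (j + 1), |bb n ((n : ℝ) - t) a * Ring.choose t (j - a)| :=
        abs_sum_le_sum_abs _ _
    _ ≤ ∑ a ∈ range (j + 1), (4 : ℝ) ^ n * (if a ≤ n then (Nat.choose n a : ℝ) else 0) :=
        sum_le_sum hterm
    _ = (4 : ℝ) ^ n * ∑ a ∈ range (j + 1), (if a ≤ n then (Nat.choose n a : ℝ) else 0) := by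
        rw [mul_sum]
    _ ≤ (4 : ℝ) ^ n * 2 ^ n := by
        apply mul_le_mul_of_nonneg_left _ (by positivity)
        rw [← sum_filter]
        calc ∑ a ∈ (range (j + 1)).filter (fun a => a ≤ n), (Nat.choose n a : ℝ)
            ≤ ∑ a ∈ range (n + 1), (Nat.choose n a : ℝ) := by
              apply sum_le_sum_of_subset_of_nonneg
              · intro a ha
                rw [mem_filter] at ha
                rw [mem_range]
                omega
              · intro a _ _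
                positivity
          _ = 2 ^ n := by
              have := Nat.sum_range_choose n
              exact_mod_cast this
    _ = 8 ^ n := by rw [← mul_pow]; norm_num

theorem hasSum_binom {t w : ℝ} (hw : |w| < 1) :
    HasSum (fun m => Ring.choose t m * w ^ m) ((1 + w) ^ t) := by
  have h := (Real.one_add_rpow_hasFPowerSeriesOnBall_zero (a := t)).hasSum (y := w) (by
    rw [← ENNReal.ofReal_one, Metric.eball_ofReal]
    simpa using hw)
  simpa [binomialSeries_apply, -FormalMultilinearSeries.apply_eq_prod_smul_coeff] using h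

theorem summable_binom {t w : ℝ} (h0 : 0 < t) (h1 : t < 1) (hw : |w| < 1) :
    Summable (fun m => ‖Ring.choose t m * w ^ m‖) := by
  refine Summable.of_nonneg_of_le (fun _ => norm_nonneg _) (fun m => ?_)
    (summable_geometric_of_lt_one (abs_nonneg w) hw)
  rw [norm_mul, norm_pow, Real.norm_eq_abs, Real.norm_eq_abs]
  have := choose_abs_le h0 h1 m
  have h2 : 0 ≤ |w| ^ m := by positivity
  nlinarith

/-- the remainder of the Padé approximation -/
theorem rem {n : ℕ} {t w : ℝ} (h0 : 0 < t) (h1 : t < 1) (hw : |w| ≤ 1 / 3) :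
    |∑ k ∈ range (n + 1), bb n ((n : ℝ) + t) k * w ^ k -
      (1 + w) ^ t * ∑ k ∈ range (n + 1), bb n ((n : ℝ) - t) k * w ^ k| ≤
      (3 / 2) * 8 ^ n * |w| ^ (2 * n + 1) := by
  have hw1 : |w| < 1 := by linarith
  have hQs : ∀ a ∉ range (n + 1), bb n ((n : ℝ) - t) a * w ^ a = 0 := by
    intro a ha
    rw [mem_range] at ha
    unfold bb
    rw [if_neg (by omega)]
    simp
  have hQ : Summable (fun a => ‖bb n ((n : ℝ) - t) a * w ^ a‖) := by
    apply summable_of_ne_finset_zero (s := range (n + 1))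
    intro a ha
    rw [hQs a ha]
    simp
  have hprod := hasSum_sum_range_mul_of_summable_norm hQ (summable_binom h0 h1 hw1)
  rw [(hasSum_binom hw1).tsum_eq, tsum_eq_sum hQs] at hprod
  have hcoef : (fun j => ∑ a ∈ range (j + 1), bb n ((n : ℝ) - t) a * w ^ a *
      (Ring.choose t (j - a) * w ^ (j - a))) = fun j => ee n t j * w ^ j := by
    funext j
    unfold ee
    rw [sum_mul]
    refine sum_congr rfl fun a ha => ?_
    rw [mem_range] at ha
    have : w ^ j = w ^ a * w ^ (j - a) := by rw [← pow_add]; congr 1; omega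
    rw [this]; ring
  rw [hcoef] at hprod
  have hsplit := hprod.summable.sum_add_tsum_nat_add (2 * n + 1)
  rw [hprod.tsum_eq] at hsplit
  have hP : ∑ j ∈ range (2 * n + 1), ee n t j * w ^ j =
      ∑ k ∈ range (n + 1), bb n ((n : ℝ) + t) k * w ^ k := by
    rw [← sum_subset (range_subset_range.2 (show n + 1 ≤ 2 * n + 1 by omega))]
    · refine sum_congr rfl fun j hj => ?_
      rw [mem_range] at hj
      rw [ee_eq t (by omega)]
    · intro j hj hj'
      rw [mem_range] at hj hj'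
      rw [ee_eq t (by omega)]
      unfold bb
      rw [if_neg (by omega)]
      simp
  rw [hP] at hsplit
  have hg : HasSum (fun i : ℕ => (8 : ℝ) ^ n * |w| ^ (2 * n + 1) * |w| ^ i)
      ((8 : ℝ) ^ n * |w| ^ (2 * n + 1) * (1 - |w|)⁻¹) :=
    (hasSum_geometric_of_lt_one (abs_nonneg w) hw1).mul_left _
  have htail := tsum_of_norm_bounded hg (f := fun i => ee n t (i + (2 * n + 1)) * w ^ (i + (2 * n + 1)))
    (by
      intro i
      rw [norm_mul, norm_pow, Real.norm_eq_abs, Real.norm_eq_abs]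
      have h2 := ee_bound (n := n) h0 h1 (i + (2 * n + 1))
      have h3 : 0 ≤ |w| ^ (i + (2 * n + 1)) := by positivity
      calc |ee n t (i + (2 * n + 1))| * |w| ^ (i + (2 * n + 1))
          ≤ 8 ^ n * |w| ^ (i + (2 * n + 1)) := mul_le_mul_of_nonneg_right h2 h3
        _ = _ := by rw [pow_add |w| i]; ring)
  have hfin : (∑ k ∈ range (n + 1), bb n ((n : ℝ) + t) k * w ^ k) -
      (1 + w) ^ t * ∑ k ∈ range (n + 1), bb n ((n : ℝ) - t) k * w ^ k =
      - ∑' i, ee n t (i + (2 * n + 1)) * w ^ (i + (2 * n + 1)) := by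
    linear_combination hsplit
  rw [hfin, abs_neg]
  refine (le_of_eq (Real.norm_eq_abs _).symm).trans (htail.trans ?_)
  have h4 : (1 - |w|)⁻¹ ≤ 3 / 2 := by
    rw [inv_le_comm₀ (by linarith) (by norm_num)]
    linarith
  have h5 : (0 : ℝ) ≤ 8 ^ n * |w| ^ (2 * n + 1) := by positivity
  nlinarith

/-- the Padé form in terms of the normalised variable -/
theorem pf_cast {q n : ℕ} {s X T : ℤ} (hq : IsPrimePow q) (hX : 0 < X) :
    ((pf q n s X T : ℤ) : ℝ) = (q : ℝ) ^ (2 * n) * (X : ℝ) ^ n *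
      ∑ k ∈ range (n + 1), bb n ((n : ℝ) + s / q) k * (-((T : ℝ) / X)) ^ k := by
  have hX0 : (X : ℝ) ≠ 0 := by exact_mod_cast hX.ne'
  unfold pf
  push_cast
  rw [mul_sum]
  refine sum_congr rfl fun k hk => ?_
  rw [mem_range] at hk
  have hkn : k ≤ n := by omega
  have h1 := P2.cf_cast (s := s) hq hkn
  have h2 : ((cf q n s k : ℤ) : ℝ) = (q : ℝ) ^ (2 * n) * Ring.choose ((n : ℝ) + s / q) k := by
    have h3 : (((cf q n s k : ℤ) : ℚ) : ℝ) =
        (((q : ℚ) ^ (2 * n) * Ring.choose ((n : ℚ) + s / q) k : ℚ) : ℝ) := by rw [h1]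
    have h4 : ((Ring.choose ((n : ℚ) + s / q) k : ℚ) : ℝ) = Ring.choose ((n : ℝ) + s / q) k := by
      have h5 := Ring.map_choose (algebraMap ℚ ℝ) ((n : ℚ) + s / q) k
      simpa using h5
    rw [Rat.cast_mul, h4] at h3
    simpa using h3
  rw [h2]
  unfold bb
  rw [if_pos hkn]
  have h6 : (X : ℝ) ^ n = (X : ℝ) ^ (n - k) * (X : ℝ) ^ k := by
    rw [← pow_add]; congr 1; omega
  rw [h6, neg_pow ((T : ℝ) / X) k, div_pow, neg_pow (T : ℝ) k]
  field_simp

/-- Task R1 (size of the remainder of the Padé approximation over the reals). -/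
theorem pf_real {q n : ℕ} {X T : ℤ} (hq : IsPrimePow q) (hX : 0 < X) (hT : 3 * |T| ≤ X) :
    |((pf q n 1 X T : ℤ) : ℝ) - (1 - (T : ℝ) / X) ^ ((1 : ℝ) / q) * ((pf q n (-1) X T : ℤ) : ℝ)| ≤
      2 * (8 * (q : ℝ) ^ 2) ^ n * (X : ℝ) ^ n * |(T : ℝ) / X| ^ (2 * n + 1) := by
  have hX' : (0 : ℝ) < X := by exact_mod_cast hX
  have hq2 : (2 : ℝ) ≤ q := by exact_mod_cast hq.two_le
  have hT' : 3 * |(T : ℝ)| ≤ X := by exact_mod_cast hT
  set t : ℝ := (1 : ℝ) / q with ht
  have h0 : 0 < t := by positivity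
  have h1 : t < 1 := by
    rw [ht, div_lt_one (by linarith)]
    linarith
  set w : ℝ := -((T : ℝ) / X) with hw
  have hwa : |w| = |(T : ℝ) / X| := by rw [hw, abs_neg]
  have hw3 : |w| ≤ 1 / 3 := by
    rw [hwa, abs_div, abs_of_pos hX', div_le_div_iff₀ hX' (by norm_num)]
    linarith
  have e1 := pf_cast (n := n) (s := 1) (T := T) hq hX
  have e2 := pf_cast (n := n) (s := -1) (T := T) hq hX
  have e3 : (n : ℝ) + ((1 : ℤ) : ℝ) / q = (n : ℝ) + t := by rw [ht]; simp
  have e4 : (n : ℝ) + ((-1 : ℤ) : ℝ) / q = (n : ℝ) - t := by rw [ht]; push_cast; ring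
  rw [e3, ← hw] at e1
  rw [e4, ← hw] at e2
  have hr := rem (n := n) h0 h1 hw3
  have e5 : (1 : ℝ) - (T : ℝ) / X = 1 + w := by rw [hw]; ring
  rw [e1, e2, e5, ← hwa]
  set P := ∑ k ∈ range (n + 1), bb n ((n : ℝ) + t) k * w ^ k
  set Q := ∑ k ∈ range (n + 1), bb n ((n : ℝ) - t) k * w ^ k
  have e6 : (q : ℝ) ^ (2 * n) * (X : ℝ) ^ n * P - (1 + w) ^ t * ((q : ℝ) ^ (2 * n) * (X : ℝ) ^ n * Q)
      = ((q : ℝ) ^ (2 * n) * (X : ℝ) ^ n) * (P - (1 + w) ^ t * Q) := by ring
  have hc : 0 ≤ (q : ℝ) ^ (2 * n) * (X : ℝ) ^ n := by positivity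
  rw [e6, abs_mul, abs_of_nonneg hc]
  calc (q : ℝ) ^ (2 * n) * (X : ℝ) ^ n * |P - (1 + w) ^ t * Q|
      ≤ (q : ℝ) ^ (2 * n) * (X : ℝ) ^ n * ((3 / 2) * 8 ^ n * |w| ^ (2 * n + 1)) :=
        mul_le_mul_of_nonneg_left hr hc
    _ ≤ (q : ℝ) ^ (2 * n) * (X : ℝ) ^ n * (2 * 8 ^ n * |w| ^ (2 * n + 1)) := by
        gcongr
        norm_num
    _ = 2 * (8 * (q : ℝ) ^ 2) ^ n * (X : ℝ) ^ n * |w| ^ (2 * n + 1) := by
        rw [mul_pow, ← pow_mul]
        ring

end Pool.Agent.H374R2.V.R1
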