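import Mathlib
import Pool.Agent.H374R2.V.Defs
import Pool.Agent.H374R2.V.P2
import Pool.Agent.H374R2.V.R1

set_option autoImplicit false

/-!
Task R2: `E_n` is small over the reals when both values are small.
-/

namespace Pool.Agent.H374R2.V.R2

open Finset Pool.Agent.H374R2.T Pool.Agent.H374R2.V

theorem rpow_sub_one {b t : ℝ} (hb : 0 < b) (h0 : 0 < t) (h1 : t ≤ 1) :
    |b ^ t - 1| ≤ |b - 1| := by
  rcases le_total 1 b with h | h
  · have h2 : 1 ≤ b ^ t := Real.one_le_rpow h h0.le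
    have h3 : b ^ t ≤ b ^ (1 : ℝ) := Real.rpow_le_rpow_of_exponent_le h h1
    rw [Real.rpow_one] at h3
    rw [abs_of_nonneg (by linarith), abs_of_nonneg (by linarith)]
    linarith
  · have h2 : b ^ t ≤ 1 := Real.rpow_le_one hb.le h h0.le
    have h3 : b ^ (1 : ℝ) ≤ b ^ t := Real.rpow_le_rpow_of_exponent_ge hb h h1
    rw [Real.rpow_one] at h3
    rw [abs_of_nonpos (by linarith), abs_of_nonpos (by linarith)]
    linarith

/-- the identity `V = U (1 - z)^t / α` -/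
theorem root_eq {q U V : ℕ} {a T : ℤ} (hq0 : q ≠ 0) (ha : 0 < a) (hU : 0 < U)
    (hT : (U : ℤ) ^ q - a * (V : ℤ) ^ q = T) :
    (a : ℝ) ^ ((1 : ℝ) / q) * V = U * (1 - (T : ℝ) / (U : ℝ) ^ q) ^ ((1 : ℝ) / q) := by
  have hU' : (0 : ℝ) < U := by exact_mod_cast hU
  have hTr : (T : ℝ) = (U : ℝ) ^ q - a * (V : ℝ) ^ q := by rw [← hT]; push_cast; ring
  have ha' : (0 : ℝ) < a := by exact_mod_cast ha
  have h1 : 1 - (T : ℝ) / (U : ℝ) ^ q = a * ((V : ℝ) / U) ^ q := by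
    rw [hTr, div_pow]
    field_simp
    ring
  have hV0 : (0 : ℝ) ≤ (V : ℝ) / U := by positivity
  rw [h1, Real.mul_rpow ha'.le (by positivity), one_div, Real.pow_rpow_inv_natCast hV0 hq0]
  field_simp

/-- Task R2 (`E_n` is small when both values `T`, `T'` are small; consequence of R1). -/
theorem EE_real {q n U V U' V' : ℕ} {a T T' : ℤ} (hq : IsPrimePow q) (ha : 0 < a) (hU : 0 < U)
    (hV : 0 < V) (hU' : 0 < U') (hV' : 0 < V') (hT : (U : ℤ) ^ q - a * (V : ℤ) ^ q = T)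
    (hT' : (U' : ℤ) ^ q - a * (V' : ℤ) ^ q = T') (h1 : 3 * |T| ≤ (U : ℤ) ^ q)
    (h2 : 3 * |T'| ≤ (U' : ℤ) ^ q) :
    |((EE q n U V U' V' T : ℤ) : ℝ)| ≤ 4 * (8 * (q : ℝ) ^ 2) ^ n * ((U : ℝ) ^ q) ^ n * (U * U') *
      max (|(T' : ℝ)| / (U' : ℝ) ^ q) ((|(T : ℝ)| / (U : ℝ) ^ q) ^ (2 * n + 1)) := by
  have hq0 : q ≠ 0 := hq.ne_zero
  have hq2 : (2 : ℝ) ≤ q := by exact_mod_cast hq.two_le
  have hUr : (0 : ℝ) < U := by exact_mod_cast hU
  have hUr' : (0 : ℝ) < U' := by exact_mod_cast hU'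
  have hX : (0 : ℤ) < (U : ℤ) ^ q := by positivity
  have hXr : (0 : ℝ) < (U : ℝ) ^ q := by positivity
  have hXr' : (0 : ℝ) < (U' : ℝ) ^ q := by positivity
  set t : ℝ := (1 : ℝ) / q with ht
  have ht0 : 0 < t := by positivity
  have ht1 : t ≤ 1 := by
    rw [ht, div_le_one (by linarith)]
    linarith
  set α : ℝ := (a : ℝ) ^ t with hα
  have hα1 : 1 ≤ α := by
    apply Real.one_le_rpow _ ht0.le
    exact_mod_cast (show (1 : ℤ) ≤ a by omega)
  have hα0 : 0 < α := by linarith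
  have r1 := root_eq hq0 ha hU hT
  have r2 := root_eq hq0 ha hU' hT'
  rw [← ht, ← hα] at r1 r2
  have R := R1.pf_real (n := n) hq hX h1
  push_cast at R
  rw [← ht] at R
  have S := P2.pf_size (q := q) (n := n) (s := 1) (X := (U : ℤ) ^ q) (T := T) (M := (U : ℤ) ^ q)
    hq (Or.inl rfl) (by rw [abs_of_pos hX]) (by have := abs_nonneg T; omega)
  have S' : |((pf q n 1 ((U : ℤ) ^ q) T : ℤ) : ℝ)| ≤
      2 * (8 * (q : ℝ) ^ 2) ^ n * ((U : ℝ) ^ q) ^ n := by exact_mod_cast S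
  set P : ℝ := ((pf q n 1 ((U : ℤ) ^ q) T : ℤ) : ℝ) with hP
  set Q : ℝ := ((pf q n (-1) ((U : ℤ) ^ q) T : ℤ) : ℝ) with hQ
  set B : ℝ := (1 - (T : ℝ) / (U : ℝ) ^ q) ^ t with hB
  set B' : ℝ := (1 - (T' : ℝ) / (U' : ℝ) ^ q) ^ t with hB'
  set K : ℝ := (8 * (q : ℝ) ^ 2) ^ n * ((U : ℝ) ^ q) ^ n with hK
  have hK0 : 0 ≤ K := by positivity
  have hz' : |(T' : ℝ) / (U' : ℝ) ^ q| ≤ 1 / 3 := by
    have h2' : 3 * |(T' : ℝ)| ≤ (U' : ℝ) ^ q := by exact_mod_cast h2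
    rw [abs_div, abs_of_pos hXr', div_le_div_iff₀ hXr' (by norm_num)]
    linarith
  have hB1 : |B' - 1| ≤ |(T' : ℝ) / (U' : ℝ) ^ q| := by
    have h3 := rpow_sub_one (b := 1 - (T' : ℝ) / (U' : ℝ) ^ q) (t := t)
      (by have := (abs_le.1 hz').2; linarith) ht0 ht1
    rwa [show 1 - (T' : ℝ) / (U' : ℝ) ^ q - 1 = -((T' : ℝ) / (U' : ℝ) ^ q) by ring, abs_neg] at h3
  have hE : α * ((EE q n U V U' V' T : ℤ) : ℝ) = (U * U') * ((B' - 1) * P + (P - B * Q)) := by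
    unfold EE
    push_cast
    rw [← hP, ← hQ]
    linear_combination (U : ℝ) * P * r2 - (U' : ℝ) * Q * r1
  have hz : |(T : ℝ) / (U : ℝ) ^ q| = |(T : ℝ)| / (U : ℝ) ^ q := by
    rw [abs_div, abs_of_pos hXr]
  have hz2 : |(T' : ℝ) / (U' : ℝ) ^ q| = |(T' : ℝ)| / (U' : ℝ) ^ q := by
    rw [abs_div, abs_of_pos hXr']
  rw [hz] at R
  rw [hz2] at hB1
  set Z' : ℝ := |(T' : ℝ)| / (U' : ℝ) ^ q with hZ'
  set Z : ℝ := (|(T : ℝ)| / (U : ℝ) ^ q) ^ (2 * n + 1) with hZ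
  have hm1 : Z' ≤ max Z' Z := le_max_left _ _
  have hm2 : Z ≤ max Z' Z := le_max_right _ _
  have hm0 : 0 ≤ max Z' Z := le_trans (by positivity) hm1
  have hin : |(B' - 1) * P + (P - B * Q)| ≤ 4 * K * max Z' Z := by
    calc |(B' - 1) * P + (P - B * Q)| ≤ |(B' - 1) * P| + |P - B * Q| := abs_add_le _ _
      _ ≤ max Z' Z * (2 * K) + 2 * K * max Z' Z := by
          apply add_le_add
          · rw [abs_mul]
            apply mul_le_mul (hB1.trans hm1) _ (abs_nonneg _) hm0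
            calc |P| ≤ _ := S'
              _ = 2 * K := by rw [hK]; ring
          · calc |P - B * Q| ≤ _ := R
              _ = 2 * K * Z := by rw [hK]; ring
              _ ≤ 2 * K * max Z' Z := mul_le_mul_of_nonneg_left hm2 (by positivity)
      _ = 4 * K * max Z' Z := by ring
  have hfin : α * |((EE q n U V U' V' T : ℤ) : ℝ)| ≤ (U * U') * (4 * K * max Z' Z) := by
    have h3 : |α * ((EE q n U V U' V' T : ℤ) : ℝ)| = α * |((EE q n U V U' V' T : ℤ) : ℝ)| := by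
      rw [abs_mul, abs_of_pos hα0]
    rw [← h3, hE, abs_mul, abs_of_pos (show (0 : ℝ) < U * U' by positivity)]
    exact mul_le_mul_of_nonneg_left hin (by positivity)
  calc |((EE q n U V U' V' T : ℤ) : ℝ)| ≤ α * |((EE q n U V U' V' T : ℤ) : ℝ)| := by
        have := abs_nonneg ((EE q n U V U' V' T : ℤ) : ℝ)
        nlinarith
    _ ≤ (U * U') * (4 * K * max Z' Z) := hfin
    _ = _ := by rw [hK]; ring

end Pool.Agent.H374R2.V.R2
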