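import Mathlib
import Pool.Agent.H374R2.V.Defs
import Pool.Agent.H374R2.V.P2
import Pool.Agent.H374R2.V.K0
import Pool.Agent.H374R2.V.R2

set_option autoImplicit false

namespace Pool.Agent.H374R2.V.K2

open Finset Pool.Agent.H374R2.T

theorem le_exp_root {q X : ℕ} {H : ℝ} (hq : 0 < q) (hX : 0 < X) (h : (X : ℝ) ^ q ≤ H) :
    (X : ℝ) ≤ Real.exp (Real.log H / q) := by
  have hX' : (0 : ℝ) < X := by exact_mod_cast hX
  have hq' : (0 : ℝ) < q := by exact_mod_cast hq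
  have h1 : (q : ℝ) * Real.log X ≤ Real.log H := by
    rw [← Real.log_pow]
    exact Real.log_le_log (by positivity) h
  have h2 : Real.log X ≤ Real.log H / q := by
    rw [le_div_iff₀ hq']
    linarith
  calc (X : ℝ) = Real.exp (Real.log X) := (Real.exp_log hX').symm
    _ ≤ _ := Real.exp_le_exp.2 h2

section
variable {q d N j U V y : ℕ} {a T : ℤ}

theorem HH_pos (S : Sol q d N j a U V y T) : 0 < HH q a U V :=
  lt_of_lt_of_le (pow_pos S.U0 q) (le_max_left _ _)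

theorem Uq_le (S : Sol q d N j a U V y T) : (U : ℝ) ^ q ≤ (HH q a U V : ℝ) := by
  have : U ^ q ≤ HH q a U V := le_max_left _ _
  exact_mod_cast this

theorem aVq_le (_S : Sol q d N j a U V y T) : |(a : ℝ)| * (V : ℝ) ^ q ≤ (HH q a U V : ℝ) := by
  have h : a.natAbs * V ^ q ≤ HH q a U V := le_max_right _ _
  have h2 : ((a.natAbs * V ^ q : ℕ) : ℝ) ≤ (HH q a U V : ℝ) := by exact_mod_cast h
  rw [Nat.cast_mul, Nat.cast_pow, Nat.cast_natAbs, Int.cast_abs] at h2
  exact h2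

theorem Vq_le (S : Sol q d N j a U V y T) : (V : ℝ) ^ q ≤ (HH q a U V : ℝ) := by
  refine le_trans ?_ (aVq_le S)
  have h1 : (1 : ℝ) ≤ |(a : ℝ)| := by
    have := Int.one_le_abs S.a0
    have h2 : ((1 : ℤ) : ℝ) ≤ ((|a| : ℤ) : ℝ) := by exact_mod_cast this
    simpa using h2
  have h2 : (0 : ℝ) ≤ (V : ℝ) ^ q := by positivity
  nlinarith

theorem T_real (S : Sol q d N j a U V y T) : (T : ℝ) = (U : ℝ) ^ q - a * (V : ℝ) ^ q := by
  have := S.eq
  have h : ((T : ℤ) : ℝ) = (((U : ℤ) ^ q - a * (V : ℤ) ^ q : ℤ) : ℝ) := by rw [this]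
  rw [h]
  push_cast
  ring

theorem T_le (S : Sol q d N j a U V y T) : |(T : ℝ)| ≤ 2 * (HH q a U V : ℝ) := by
  rw [T_real S]
  have h1 := Uq_le S
  have h2 := aVq_le S
  have h3 : (0 : ℝ) ≤ (U : ℝ) ^ q := by positivity
  have h4 : |(a : ℝ) * (V : ℝ) ^ q| = |(a : ℝ)| * (V : ℝ) ^ q := by
    rw [abs_mul, abs_of_nonneg (show (0 : ℝ) ≤ (V : ℝ) ^ q by positivity)]
  calc |(U : ℝ) ^ q - a * (V : ℝ) ^ q| ≤ |(U : ℝ) ^ q| + |(a : ℝ) * (V : ℝ) ^ q| := abs_sub _ _
    _ ≤ _ := by rw [abs_of_nonneg h3, h4]; linarith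

/-- consequences of `j < 49`. -/
theorem small_T (S : Sol q d N j a U V y T) (hj : j < 49)
    (hh : 1000 ≤ Real.log (HH q a U V)) :
    0 < a ∧ 3 * |(T : ℝ)| ≤ (U : ℝ) ^ q ∧
      |(T : ℝ)| / (U : ℝ) ^ q ≤
        Real.exp (3 / 10 - (1 - ((j : ℝ) + 1) / 50) * Real.log (HH q a U V)) := by
  set H : ℝ := (HH q a U V : ℝ) with hH
  have hH0 : 0 < H := by
    rw [hH]
    exact_mod_cast HH_pos S
  have hT0 : (0 : ℝ) < |(T : ℝ)| := by
    rw [abs_pos]
    exact_mod_cast S.T0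
  have hup : T.natAbs ^ 50 ≤ HH q a U V ^ (j + 1) := by
    rcases S.up with h | h
    · omega
    · exact h.2
  have hup' : |(T : ℝ)| ^ 50 ≤ H ^ (j + 1) := by
    have h2 : ((T.natAbs ^ 50 : ℕ) : ℝ) ≤ ((HH q a U V ^ (j + 1) : ℕ) : ℝ) := by
      exact_mod_cast hup
    rw [Nat.cast_pow, Nat.cast_pow, Nat.cast_natAbs, Int.cast_abs] at h2
    exact h2
  have hlog : 50 * Real.log |(T : ℝ)| ≤ ((j : ℝ) + 1) * Real.log H := by
    have h1 := Real.log_le_log (by positivity) hup'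
    rw [Real.log_pow, Real.log_pow] at h1
    push_cast at h1
    exact h1
  have hj' : (j : ℝ) + 1 ≤ 49 := by
    have : j + 1 ≤ 49 := hj
    exact_mod_cast this
  have h4 : Real.log 4 ≤ 14 / 10 := by
    have h : (4 : ℝ) = 2 ^ 2 := by norm_num
    rw [h, Real.log_pow]
    have := Real.log_two_lt_d9
    push_cast
    linarith
  have h43 : Real.log (4 / 3) ≤ 3 / 10 := by
    rw [Real.log_le_iff_le_exp (by norm_num)]
    have h := Real.quadratic_le_exp_of_nonneg (show (0 : ℝ) ≤ 3 / 10 by norm_num)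
    linarith
  -- `4 |T| ≤ H`
  have h4T : 4 * |(T : ℝ)| ≤ H := by
    have h1 : Real.log (4 * |(T : ℝ)|) ≤ Real.log H := by
      rw [Real.log_mul (by norm_num) hT0.ne']
      nlinarith
    exact (Real.log_le_log_iff (by positivity) hH0).1 h1
  have hTr := T_real S
  have hUq := Uq_le S
  have hUq0 : (0 : ℝ) < (U : ℝ) ^ q := by
    have : (0 : ℝ) < U := by exact_mod_cast S.U0
    positivity
  have hVq0 : (0 : ℝ) < (V : ℝ) ^ q := by
    have : (0 : ℝ) < V := by exact_mod_cast S.V0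
    positivity
  have hmax : H = max ((U : ℝ) ^ q) (|(a : ℝ)| * (V : ℝ) ^ q) := by
    rw [hH]
    unfold HH
    rw [Nat.cast_max, Nat.cast_mul, Nat.cast_pow, Nat.cast_pow, Nat.cast_natAbs, Int.cast_abs]
  have ha : 0 < a := by
    by_contra hcon
    have hneg : a < 0 := lt_of_le_of_ne (not_lt.1 hcon) S.a0
    have hneg' : (a : ℝ) < 0 := by exact_mod_cast hneg
    have h1 : H ≤ T := by
      rw [hmax, hTr, abs_of_neg hneg']
      apply max_le
      · nlinarith
      · nlinarith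
    have h2 : (T : ℝ) ≤ |(T : ℝ)| := le_abs_self _
    linarith
  have ha' : (0 : ℝ) < a := by exact_mod_cast ha
  have h34 : 3 / 4 * H ≤ (U : ℝ) ^ q := by
    rw [abs_of_pos ha'] at hmax
    rcases max_cases ((U : ℝ) ^ q) ((a : ℝ) * (V : ℝ) ^ q) with ⟨h, _⟩ | ⟨h, _⟩
    · rw [h] at hmax
      linarith
    · rw [h] at hmax
      have h2 : -|(T : ℝ)| ≤ T := neg_abs_le _
      linarith
  refine ⟨ha, by linarith, ?_⟩
  have h5 : |(T : ℝ)| / (U : ℝ) ^ q ≤ 4 / 3 * |(T : ℝ)| / H := by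
    rw [div_le_div_iff₀ hUq0 hH0]
    nlinarith
  refine h5.trans ?_
  rw [← Real.log_le_iff_le_exp (by positivity), Real.log_div (by positivity) hH0.ne',
    Real.log_mul (by norm_num) hT0.ne']
  nlinarith

end

theorem EE_up {q d N n j U V y U' V' y' : ℕ} {a T T' : ℤ} (hq : IsPrimePow q) (hq3 : 3 ≤ q)
    (hN : (10000 * q ^ 2) ^ 102 ≤ N) (hd : N ^ 99 ≤ d ^ 100)
    (S : Sol q d N j a U V y T) (S' : Sol q d N j a U' V' y' T')
    (hE : EE q n U V U' V' T ≠ 0) :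
    Real.log |((EE q n U V U' V' T : ℤ) : ℝ)| ≤ (n + 1) * (Real.log (16 * (q : ℝ) ^ 2) + 2) +
      n * Real.log (HH q a U V) + (Real.log (HH q a U V) + Real.log (HH q a U' V')) / q -
      (if j = 49 then 0 else 1 - ((j : ℝ) + 1) / 50) *
        min ((2 * n + 1) * Real.log (HH q a U V)) (Real.log (HH q a U' V')) := by
  obtain ⟨hh, -, -⟩ := K0.large hq3 hN hd S
  obtain ⟨hh', -, -⟩ := K0.large hq3 hN hd S'
  have hq0 : 0 < q := by omega
  have hqr : (3 : ℝ) ≤ q := by exact_mod_cast hq3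
  have hq0r : (0 : ℝ) < q := by linarith
  set H : ℝ := (HH q a U V : ℝ) with hH
  set H' : ℝ := (HH q a U' V' : ℝ) with hH'
  have hH0 : 0 < H := by rw [hH]; exact_mod_cast HH_pos S
  have hH0' : 0 < H' := by rw [hH']; exact_mod_cast HH_pos S'
  set h : ℝ := Real.log H with hhdef
  set h' : ℝ := Real.log H' with hhdef'
  have hU := le_exp_root hq0 S.U0 (Uq_le S)
  have hV := le_exp_root hq0 S.V0 (Vq_le S)
  have hU' := le_exp_root hq0 S'.U0 (Uq_le S')
  have hV' := le_exp_root hq0 S'.V0 (Vq_le S')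
  rw [← hH, ← hhdef] at hU hV
  rw [← hH', ← hhdef'] at hU' hV'
  have hUpos : (0 : ℝ) < U := by exact_mod_cast S.U0
  have hVpos : (0 : ℝ) < V := by exact_mod_cast S.V0
  have hUpos' : (0 : ℝ) < U' := by exact_mod_cast S'.U0
  have hVpos' : (0 : ℝ) < V' := by exact_mod_cast S'.V0
  have hsum : Real.exp (h / q) * Real.exp (h' / q) = Real.exp ((h + h') / q) := by
    rw [← Real.exp_add, add_div]
  have hUV' : (U : ℝ) * V' ≤ Real.exp ((h + h') / q) := by
    rw [← hsum]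
    exact mul_le_mul hU hV' hVpos'.le (Real.exp_pos _).le
  have hU'V : (U' : ℝ) * V ≤ Real.exp ((h + h') / q) := by
    rw [← hsum, mul_comm (Real.exp (h / q))]
    exact mul_le_mul hU' hV hVpos.le (Real.exp_pos _).le
  have hUU' : (U : ℝ) * U' ≤ Real.exp ((h + h') / q) := by
    rw [← hsum]
    exact mul_le_mul hU hU' hUpos'.le (Real.exp_pos _).le
  have hEpos : 0 < |((EE q n U V U' V' T : ℤ) : ℝ)| := by
    rw [abs_pos]
    exact_mod_cast hE
  have hlog4 : Real.log 4 ≤ 14 / 10 := by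
    have h : (4 : ℝ) = 2 ^ 2 := by norm_num
    rw [h, Real.log_pow]
    have := Real.log_two_lt_d9
    push_cast
    linarith
  have hexp4 : Real.exp (Real.log 4) = 4 := Real.exp_log (by norm_num)
  have hl0 : 0 ≤ Real.log (16 * (q : ℝ) ^ 2) := Real.log_nonneg (by nlinarith)
  have hn0 : (0 : ℝ) ≤ n := Nat.cast_nonneg n
  have hexpH : Real.exp h = H := Real.exp_log hH0
  by_cases hj : j = 49
  · rw [if_pos hj, zero_mul, sub_zero]
    -- crude bound
    have hTT : |T| ≤ 2 * (HH q a U V : ℤ) := by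
      have := T_le S
      have h2 : ((|T| : ℤ) : ℝ) ≤ ((2 * (HH q a U V : ℤ) : ℤ) : ℝ) := by
        push_cast
        exact this
      exact_mod_cast h2
    have hXX : |(U : ℤ) ^ q| ≤ 2 * (HH q a U V : ℤ) := by
      have h1 : U ^ q ≤ HH q a U V := le_max_left _ _
      have h2 : ((U ^ q : ℕ) : ℤ) ≤ (HH q a U V : ℤ) := by exact_mod_cast h1
      rw [abs_of_nonneg (by positivity)]
      push_cast at h2
      have h3 : (0 : ℤ) ≤ (HH q a U V : ℤ) := by positivity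
      linarith
    have hP := P2.pf_size (n := n) (s := 1) hq (Or.inl rfl) hXX hTT
    have hQ := P2.pf_size (n := n) (s := -1) hq (Or.inr rfl) hXX hTT
    have hPr : |((pf q n 1 ((U : ℤ) ^ q) T : ℤ) : ℝ)| ≤ 2 * (8 * (q : ℝ) ^ 2) ^ n * (2 * H) ^ n := by
      have h2 : ((|pf q n 1 ((U : ℤ) ^ q) T| : ℤ) : ℝ) ≤
          ((2 * (8 * (q : ℤ) ^ 2) ^ n * (2 * (HH q a U V : ℤ)) ^ n : ℤ) : ℝ) := by exact_mod_cast hP
      push_cast at h2
      exact h2
    have hQr : |((pf q n (-1) ((U : ℤ) ^ q) T : ℤ) : ℝ)| ≤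
        2 * (8 * (q : ℝ) ^ 2) ^ n * (2 * H) ^ n := by
      have h2 : ((|pf q n (-1) ((U : ℤ) ^ q) T| : ℤ) : ℝ) ≤
          ((2 * (8 * (q : ℤ) ^ 2) ^ n * (2 * (HH q a U V : ℤ)) ^ n : ℤ) : ℝ) := by exact_mod_cast hQ
      push_cast at h2
      exact h2
    have hpow : 2 * (8 * (q : ℝ) ^ 2) ^ n * (2 * H) ^ n = 2 * ((16 * (q : ℝ) ^ 2) ^ n * H ^ n) := by
      rw [← mul_pow, mul_assoc, ← mul_pow]
      ring
    rw [hpow] at hPr hQr
    set B : ℝ := (16 * (q : ℝ) ^ 2) ^ n * H ^ n with hB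
    have hB0 : 0 ≤ B := by positivity
    have hbound : |((EE q n U V U' V' T : ℤ) : ℝ)| ≤ 4 * Real.exp ((h + h') / q) * B := by
      have e1 : ((EE q n U V U' V' T : ℤ) : ℝ) = (U : ℝ) * V' * ((pf q n 1 ((U : ℤ) ^ q) T : ℤ) : ℝ) -
          (U' : ℝ) * V * ((pf q n (-1) ((U : ℤ) ^ q) T : ℤ) : ℝ) := by
        unfold EE
        push_cast
        ring
      rw [e1]
      refine (abs_sub _ _).trans ?_
      rw [abs_mul ((U : ℝ) * V'), abs_mul ((U' : ℝ) * V),
        abs_of_nonneg (show (0 : ℝ) ≤ (U : ℝ) * V' by positivity),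
        abs_of_nonneg (show (0 : ℝ) ≤ (U' : ℝ) * V by positivity)]
      have i1 := mul_le_mul hUV' hPr (abs_nonneg _) (Real.exp_pos _).le
      have i2 := mul_le_mul hU'V hQr (abs_nonneg _) (Real.exp_pos _).le
      linarith
    have hBexp : B = Real.exp (n * Real.log (16 * (q : ℝ) ^ 2) + n * h) := by
      rw [Real.exp_add, ← Real.log_pow, ← Real.log_pow, Real.exp_log (by positivity),
        Real.exp_log (by positivity)]
    have htot : |((EE q n U V U' V' T : ℤ) : ℝ)| ≤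
        Real.exp (Real.log 4 + (h + h') / q + (n * Real.log (16 * (q : ℝ) ^ 2) + n * h)) := by
      rw [Real.exp_add, Real.exp_add, ← hBexp, hexp4]
      exact hbound
    have hfin := (Real.log_le_log hEpos htot).trans_eq (Real.log_exp _)
    nlinarith
  · rw [if_neg hj]
    have hj49 : j < 49 := by
      rcases S.up with h | h
      · exact absurd h hj
      · exact h.1
    obtain ⟨ha, h1, h2⟩ := small_T S hj49 hh
    obtain ⟨-, h1', h2'⟩ := small_T S' hj49 hh'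
    rw [← hH, ← hhdef] at h2
    rw [← hH', ← hhdef'] at h2'
    set ρ : ℝ := 1 - ((j : ℝ) + 1) / 50 with hρ
    have hρ0 : 0 ≤ ρ := by
      have : (j : ℝ) + 1 ≤ 49 := by exact_mod_cast hj49
      rw [hρ]
      linarith
    have c1 : 3 * |T| ≤ (U : ℤ) ^ q := by
      have h3 : ((3 * |T| : ℤ) : ℝ) ≤ (((U : ℤ) ^ q : ℤ) : ℝ) := by
        push_cast
        exact h1
      exact_mod_cast h3
    have c2 : 3 * |T'| ≤ (U' : ℤ) ^ q := by
      have h3 : ((3 * |T'| : ℤ) : ℝ) ≤ (((U' : ℤ) ^ q : ℤ) : ℝ) := by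
        push_cast
        exact h1'
      exact_mod_cast h3
    have hreal := R2.EE_real (n := n) hq ha S.U0 S.V0 S'.U0 S'.V0 S.eq S'.eq c1 c2
    set m : ℝ := min ((2 * (n : ℝ) + 1) * h) h' with hm
    set E : ℝ := 3 / 10 * (2 * n + 1) - ρ * m with hEdef
    have hmax : max (|(T' : ℝ)| / (U' : ℝ) ^ q) ((|(T : ℝ)| / (U : ℝ) ^ q) ^ (2 * n + 1)) ≤
        Real.exp E := by
      apply max_le
      · refine h2'.trans (Real.exp_le_exp.2 ?_)
        have : m ≤ h' := min_le_right _ _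
        have h3 : ρ * m ≤ ρ * h' := mul_le_mul_of_nonneg_left this hρ0
        rw [hEdef]
        linarith
      · have h3 : (|(T : ℝ)| / (U : ℝ) ^ q) ^ (2 * n + 1) ≤
            (Real.exp (3 / 10 - ρ * h)) ^ (2 * n + 1) :=
          pow_le_pow_left₀ (by positivity) h2 _
        refine h3.trans ?_
        rw [← Real.exp_nat_mul]
        refine Real.exp_le_exp.2 ?_
        have : m ≤ (2 * (n : ℝ) + 1) * h := min_le_left _ _
        have h4 : ρ * m ≤ ρ * ((2 * (n : ℝ) + 1) * h) := mul_le_mul_of_nonneg_left this hρ0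
        rw [hEdef]
        push_cast
        linarith
    have hUqn : ((U : ℝ) ^ q) ^ n ≤ Real.exp (n * h) := by
      rw [Real.exp_nat_mul, hexpH]
      exact pow_le_pow_left₀ (by positivity) (Uq_le S) n
    have h8 : (8 * (q : ℝ) ^ 2) ^ n ≤ Real.exp (n * Real.log (16 * (q : ℝ) ^ 2)) := by
      rw [Real.exp_nat_mul, Real.exp_log (by positivity)]
      exact pow_le_pow_left₀ (by positivity) (by nlinarith) n
    have htot : |((EE q n U V U' V' T : ℤ) : ℝ)| ≤
        Real.exp (Real.log 4 + n * Real.log (16 * (q : ℝ) ^ 2) + n * h + (h + h') / q + E) := by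
      rw [Real.exp_add, Real.exp_add, Real.exp_add, Real.exp_add, hexp4]
      refine hreal.trans ?_
      gcongr
    have hfin := (Real.log_le_log hEpos htot).trans_eq (Real.log_exp _)
    rw [hEdef] at hfin
    nlinarith

end Pool.Agent.H374R2.V.K2
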