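import Mathlib
import Pool.Agent.H374R2.T.Defs
import Pool.Agent.H374R2.T.TaskP1
import Pool.Agent.H374R2.V.P2

/-!
Task P5 (helper793): non-vanishing of the consecutive determinant of the Padé forms.
-/

set_option autoImplicit false

namespace Pool.Agent.H374R2.V.P5

open Finset Pool.Agent.H374R2.T

/-- coefficients of the Padé polynomials -/
noncomputable def pc (n : ℕ) (x : ℚ) (j : ℕ) : ℚ :=
  if j ≤ n then Ring.choose ((n : ℚ) + x) j * (Nat.choose (2 * n - j) n : ℚ) * (-1) ^ j else 0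

theorem pc_eq (n : ℕ) (x : ℚ) (j : ℕ) (hj : j ≤ 2 * n) :
    pc n x j = Ring.choose ((n : ℚ) + x) j * (Nat.choose (2 * n - j) n : ℚ) * (-1) ^ j := by
  unfold pc
  split_ifs with h
  · rfl
  · have : Nat.choose (2 * n - j) n = 0 := Nat.choose_eq_zero_of_lt (by omega)
    rw [this]
    simp

theorem pc_gt (n : ℕ) (x : ℚ) (j : ℕ) (hj : n < j) : pc n x j = 0 := by
  unfold pc
  rw [if_neg (by omega)]

/-- the product of two homogenised polynomials -/
theorem hom_mul (m m' : ℕ) (f g : ℕ → ℚ) (hf : ∀ k, m < k → f k = 0) (hg : ∀ k, m' < k → g k = 0)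
    (X T : ℚ) :
    (∑ k ∈ range (m + 1), f k * T ^ k * X ^ (m - k)) *
      (∑ k ∈ range (m' + 1), g k * T ^ k * X ^ (m' - k)) =
    ∑ j ∈ range (m + m' + 1), (∑ p ∈ antidiagonal j, f p.1 * g p.2) * T ^ j *
      X ^ (m + m' - j) := by
  set F : Polynomial ℚ := ∑ k ∈ range (m + 1), Polynomial.C (f k * X ^ (m - k)) *
    Polynomial.X ^ k with hF
  set G : Polynomial ℚ := ∑ k ∈ range (m' + 1), Polynomial.C (g k * X ^ (m' - k)) *
    Polynomial.X ^ k with hG
  have hFc : ∀ j, F.coeff j = if j < m + 1 then f j * X ^ (m - j) else 0 := by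
    intro j
    rw [hF, Polynomial.finsetSum_coeff]
    simp only [Polynomial.coeff_C_mul_X_pow]
    rw [sum_ite_eq]
    simp only [mem_range]
  have hGc : ∀ j, G.coeff j = if j < m' + 1 then g j * X ^ (m' - j) else 0 := by
    intro j
    rw [hG, Polynomial.finsetSum_coeff]
    simp only [Polynomial.coeff_C_mul_X_pow]
    rw [sum_ite_eq]
    simp only [mem_range]
  have hFd : F.natDegree ≤ m := by
    rw [Polynomial.natDegree_le_iff_coeff_eq_zero]
    intro N hN
    rw [hFc, if_neg (by omega)]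
  have hGd : G.natDegree ≤ m' := by
    rw [Polynomial.natDegree_le_iff_coeff_eq_zero]
    intro N hN
    rw [hGc, if_neg (by omega)]
  have hFG : (F * G).natDegree < m + m' + 1 := by
    have := Polynomial.natDegree_mul_le (p := F) (q := G)
    omega
  have h1 : (F * G).eval T = (∑ k ∈ range (m + 1), f k * T ^ k * X ^ (m - k)) *
      (∑ k ∈ range (m' + 1), g k * T ^ k * X ^ (m' - k)) := by
    rw [Polynomial.eval_mul, hF, hG, Polynomial.eval_finsetSum, Polynomial.eval_finsetSum]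
    congr 1
    · refine sum_congr rfl fun k _ => ?_
      rw [Polynomial.eval_mul, Polynomial.eval_C, Polynomial.eval_pow, Polynomial.eval_X]
      ring
    · refine sum_congr rfl fun k _ => ?_
      rw [Polynomial.eval_mul, Polynomial.eval_C, Polynomial.eval_pow, Polynomial.eval_X]
      ring
  rw [← h1, Polynomial.eval_eq_sum_range' hFG]
  refine sum_congr rfl fun j hj => ?_
  rw [mem_range] at hj
  rw [Polynomial.coeff_mul]
  have h2 : ∑ p ∈ antidiagonal j, F.coeff p.1 * G.coeff p.2 =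
      (∑ p ∈ antidiagonal j, f p.1 * g p.2) * X ^ (m + m' - j) := by
    rw [sum_mul]
    refine sum_congr rfl fun p hp => ?_
    rw [HasAntidiagonal.mem_antidiagonal] at hp
    rw [hFc, hGc]
    by_cases h3 : p.1 < m + 1
    · by_cases h4 : p.2 < m' + 1
      · rw [if_pos h3, if_pos h4]
        have h5 : m + m' - j = (m - p.1) + (m' - p.2) := by omega
        rw [h5, pow_add]
        ring
      · rw [if_neg h4, hg p.2 (by omega)]
        ring
    · rw [if_neg h3, hf p.1 (by omega)]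
      ring
  rw [h2]
  ring

/-- recursion for the leading coefficients -/
theorem choose_rec (n : ℕ) (x : ℚ) :
    ((n : ℚ) + 1) * Ring.choose (((n + 1 : ℕ) : ℚ) + x) (n + 1) =
      ((n : ℚ) + 1 + x) * Ring.choose ((n : ℚ) + x) n := by
  have h := Ring.choose_add_smul_choose ((n : ℚ) + x) n 1
  rw [Nat.cast_one, Ring.choose_one_right, Nat.choose_one_right, nsmul_eq_mul] at h
  have h1 : ((n + 1 : ℕ) : ℚ) + x = (n : ℚ) + x + 1 := by
    push_cast
    ring
  rw [h1]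
  push_cast at h
  linarith

theorem choose_pos (x : ℚ) (hx : -1 < x) (n : ℕ) : 0 < Ring.choose ((n : ℚ) + x) n := by
  induction n with
  | zero =>
    rw [Ring.choose_zero_right]
    exact zero_lt_one
  | succ n ih =>
    have h := choose_rec n x
    have hn : (0 : ℚ) ≤ n := Nat.cast_nonneg n
    have h1 : 0 < ((n : ℚ) + 1 + x) * Ring.choose ((n : ℚ) + x) n :=
      mul_pos (by linarith) ih
    rw [← h] at h1
    exact (mul_pos_iff_of_pos_left (by linarith)).mp h1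

/-- The difference of products. -/
theorem det_eq (ρ : ℚ)
    (hpade : ∀ n j : ℕ, j ≤ 2 * n → ∑ a ∈ range (j + 1), Ring.choose ((n : ℚ) - ρ) a *
      Ring.choose ρ (j - a) * (Nat.choose (2 * n - a) n : ℚ) =
      Ring.choose ((n : ℚ) + ρ) j * (Nat.choose (2 * n - j) n : ℚ)) (n j : ℕ)
    (hj : j ≤ 2 * n) :
    ∑ p ∈ antidiagonal j, pc n ρ p.1 * pc (n + 1) (-ρ) p.2 =
      ∑ p ∈ antidiagonal j, pc (n + 1) ρ p.1 * pc n (-ρ) p.2 := by
  set P : ℕ → ℚ → PowerSeries ℚ := fun n x => PowerSeries.mk (pc n x) with hP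
  set S : PowerSeries ℚ := PowerSeries.mk fun b => Ring.choose ρ b * (-1) ^ b with hS
  have hc : ∀ (n : ℕ), (PowerSeries.X : PowerSeries ℚ) ^ (2 * n + 1) ∣
      P n ρ - P n (-ρ) * S := by
    intro n
    rw [PowerSeries.X_pow_dvd_iff]
    intro j hj
    rw [map_sub, sub_eq_zero, PowerSeries.coeff_mul]
    simp only [hP, hS, PowerSeries.coeff_mk]
    rw [Finset.Nat.sum_antidiagonal_eq_sum_range_succ
      (fun a b => pc n (-ρ) a * (Ring.choose ρ b * (-1) ^ b)) j, pc_eq n ρ j (by omega),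
      ← hpade n j (by omega), Finset.sum_mul]
    refine sum_congr rfl fun a ha => ?_
    rw [mem_range] at ha
    rw [pc_eq n (-ρ) a (by omega), ← sub_eq_add_neg]
    have h1 : (-1 : ℚ) ^ j = (-1) ^ a * (-1) ^ (j - a) := by
      rw [← pow_add]
      congr 1
      omega
    rw [h1]
    ring
  have hD : (PowerSeries.X : PowerSeries ℚ) ^ (2 * n + 1) ∣
      P n ρ * P (n + 1) (-ρ) - P (n + 1) ρ * P n (-ρ) := by
    have h1 : P n ρ * P (n + 1) (-ρ) - P (n + 1) ρ * P n (-ρ) =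
        (P n ρ - P n (-ρ) * S) * P (n + 1) (-ρ) -
          (P (n + 1) ρ - P (n + 1) (-ρ) * S) * P n (-ρ) := by ring
    rw [h1]
    apply dvd_sub
    · exact Dvd.dvd.mul_right (hc n) _
    · apply Dvd.dvd.mul_right
      exact (pow_dvd_pow _ (by omega)).trans (hc (n + 1))
  rw [PowerSeries.X_pow_dvd_iff] at hD
  have h2 := hD j (by omega)
  rw [map_sub, sub_eq_zero, PowerSeries.coeff_mul, PowerSeries.coeff_mul] at h2
  simp only [hP, PowerSeries.coeff_mk] at h2
  exact h2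

/-- only one term contributes to the top coefficient -/
theorem top_coeff (f g : ℕ → ℚ) (m m' : ℕ) (hf : ∀ k, m < k → f k = 0)
    (hg : ∀ k, m' < k → g k = 0) :
    ∑ p ∈ antidiagonal (m + m'), f p.1 * g p.2 = f m * g m' := by
  rw [Finset.sum_eq_single (m, m')]
  · intro p hp hne
    rw [HasAntidiagonal.mem_antidiagonal] at hp
    by_cases h : m < p.1
    · rw [hf _ h, zero_mul]
    · have h2 : m' < p.2 := by
        by_contra h3
        apply hne
        have e1 : p.1 = m := by omega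
        have e2 : p.2 = m' := by omega
        exact Prod.ext e1 e2
      rw [hg _ h2, mul_zero]
  · intro h
    have h' : (m, m') ∈ antidiagonal (m + m') := by
      rw [HasAntidiagonal.mem_antidiagonal]
    exact absurd h' h

theorem pf_cast (q : ℕ) (s : ℤ)
    (hcast : ∀ n k : ℕ, k ≤ n →
      ((cf q n s k : ℤ) : ℚ) = (q : ℚ) ^ (2 * n) * Ring.choose ((n : ℚ) + s / q) k)
    (n : ℕ) (X T : ℤ) : ((pf q n s X T : ℤ) : ℚ) = (q : ℚ) ^ (2 * n) *
      ∑ k ∈ range (n + 1), pc n ((s : ℚ) / q) k * (T : ℚ) ^ k * (X : ℚ) ^ (n - k) := by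
  unfold pf
  push_cast
  rw [mul_sum]
  refine sum_congr rfl fun k hk => ?_
  rw [mem_range] at hk
  rw [hcast n k (by omega), pc, if_pos (by omega), neg_pow]
  ring

theorem pf_ne_of {q : ℕ}
    (hcast : ∀ (n k : ℕ) (s : ℤ), k ≤ n →
      ((cf q n s k : ℤ) : ℚ) = (q : ℚ) ^ (2 * n) * Ring.choose ((n : ℚ) + s / q) k)
    (hpade : ∀ n j : ℕ, j ≤ 2 * n → ∀ t : ℚ, ∑ a ∈ range (j + 1), Ring.choose ((n : ℚ) - t) a *
      Ring.choose t (j - a) * (Nat.choose (2 * n - a) n : ℚ) =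
      Ring.choose ((n : ℚ) + t) j * (Nat.choose (2 * n - j) n : ℚ))
    {n : ℕ} {X T : ℤ} (hq : IsPrimePow q) (hT : T ≠ 0) :
    pf q n 1 X T * pf q (n + 1) (-1) X T ≠ pf q (n + 1) 1 X T * pf q n (-1) X T := by
  intro heq
  have hq0 : (0 : ℚ) < q := by exact_mod_cast hq.pos
  have hq1 : (1 : ℚ) < q := by exact_mod_cast hq.one_lt
  set ρ : ℚ := 1 / (q : ℚ) with hρ
  have hρ0 : 0 < ρ := by positivity
  have hρ1 : ρ < 1 := by
    rw [hρ, div_lt_one hq0]
    exact hq1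
  have h1 : ((pf q n 1 X T * pf q (n + 1) (-1) X T : ℤ) : ℚ) =
      ((pf q (n + 1) 1 X T * pf q n (-1) X T : ℤ) : ℚ) := by rw [heq]
  have e1 : (((1 : ℤ) : ℚ) / q) = ρ := by
    rw [hρ]
    norm_num
  have e2 : (((-1 : ℤ) : ℚ) / q) = -ρ := by
    rw [hρ]
    push_cast
    ring
  rw [Int.cast_mul, Int.cast_mul, pf_cast q 1 (fun n k h => hcast n k 1 h),
    pf_cast q (-1) (fun n k h => hcast n k (-1) h), pf_cast q 1 (fun n k h => hcast n k 1 h),
    pf_cast q (-1) (fun n k h => hcast n k (-1) h), e1, e2] at h1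
  have hqn : (q : ℚ) ^ (2 * n) * (q : ℚ) ^ (2 * (n + 1)) ≠ 0 := by positivity
  have h2 : (∑ k ∈ range (n + 1), pc n ρ k * (T : ℚ) ^ k * (X : ℚ) ^ (n - k)) *
      (∑ k ∈ range (n + 1 + 1), pc (n + 1) (-ρ) k * (T : ℚ) ^ k * (X : ℚ) ^ (n + 1 - k)) =
      (∑ k ∈ range (n + 1 + 1), pc (n + 1) ρ k * (T : ℚ) ^ k * (X : ℚ) ^ (n + 1 - k)) *
      (∑ k ∈ range (n + 1), pc n (-ρ) k * (T : ℚ) ^ k * (X : ℚ) ^ (n - k)) := by
    apply mul_left_cancel₀ hqn
    linear_combination h1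
  rw [hom_mul n (n + 1) (pc n ρ) (pc (n + 1) (-ρ)) (pc_gt n ρ) (pc_gt (n + 1) (-ρ)),
    hom_mul (n + 1) n (pc (n + 1) ρ) (pc n (-ρ)) (pc_gt (n + 1) ρ) (pc_gt n (-ρ)),
    show n + 1 + n = n + (n + 1) by ring, sum_range_succ, sum_range_succ _ (n + (n + 1))] at h2
  have h3 : ∑ j ∈ range (n + (n + 1)), (∑ p ∈ antidiagonal j, pc n ρ p.1 *
      pc (n + 1) (-ρ) p.2) * (T : ℚ) ^ j * (X : ℚ) ^ (n + (n + 1) - j) =
      ∑ j ∈ range (n + (n + 1)), (∑ p ∈ antidiagonal j, pc (n + 1) ρ p.1 *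
      pc n (-ρ) p.2) * (T : ℚ) ^ j * (X : ℚ) ^ (n + (n + 1) - j) := by
    refine sum_congr rfl fun j hj => ?_
    rw [mem_range] at hj
    rw [det_eq ρ (fun n j hj => hpade n j hj ρ) n j (by omega)]
  rw [h3] at h2
  have h4 := add_left_cancel h2
  rw [top_coeff (pc n ρ) (pc (n + 1) (-ρ)) n (n + 1) (pc_gt n ρ) (pc_gt (n + 1) (-ρ))] at h4
  have h5 := top_coeff (pc (n + 1) ρ) (pc n (-ρ)) (n + 1) n (pc_gt (n + 1) ρ) (pc_gt n (-ρ))
  rw [show n + 1 + n = n + (n + 1) by ring] at h5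
  rw [h5, Nat.sub_self, pow_zero, mul_one, mul_one] at h4
  have hT0 : (T : ℚ) ^ (n + (n + 1)) ≠ 0 := by
    apply pow_ne_zero
    exact_mod_cast hT
  have h6 := mul_right_cancel₀ hT0 h4
  -- the leading coefficients
  have hl : ∀ (m : ℕ) (x : ℚ), pc m x m = Ring.choose ((m : ℚ) + x) m * (-1) ^ m := by
    intro m x
    rw [pc, if_pos le_rfl, show 2 * m - m = m by omega, Nat.choose_self]
    ring
  rw [hl, hl, hl, hl] at h6
  have hs : ((-1 : ℚ) ^ n * (-1) ^ (n + 1)) ≠ 0 :=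
    mul_ne_zero (pow_ne_zero _ (by norm_num)) (pow_ne_zero _ (by norm_num))
  have h7 : Ring.choose ((n : ℚ) + ρ) n * Ring.choose (((n + 1 : ℕ) : ℚ) + -ρ) (n + 1) =
      Ring.choose (((n + 1 : ℕ) : ℚ) + ρ) (n + 1) * Ring.choose ((n : ℚ) + -ρ) n := by
    apply mul_left_cancel₀ hs
    linear_combination h6
  have r1 := choose_rec n ρ
  have r2 := choose_rec n (-ρ)
  have p1 := choose_pos ρ (by linarith) n
  have p2 := choose_pos (-ρ) (by linarith) n
  have h8 : Ring.choose ((n : ℚ) + ρ) n *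
      (((n : ℚ) + 1) * Ring.choose (((n + 1 : ℕ) : ℚ) + -ρ) (n + 1)) =
      (((n : ℚ) + 1) * Ring.choose (((n + 1 : ℕ) : ℚ) + ρ) (n + 1)) *
        Ring.choose ((n : ℚ) + -ρ) n := by
    linear_combination ((n : ℚ) + 1) * h7
  rw [r1, r2] at h8
  have h9 : Ring.choose ((n : ℚ) + ρ) n * Ring.choose ((n : ℚ) + -ρ) n * ρ = 0 := by
    linear_combination (-1 / 2 : ℚ) * h8
  have h10 : 0 < Ring.choose ((n : ℚ) + ρ) n * Ring.choose ((n : ℚ) + -ρ) n * ρ := by positivity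
  linarith

/-- Task P5: non-vanishing of the consecutive determinant. -/
theorem pf_ne {q n : ℕ} {X T : ℤ} (hq : IsPrimePow q) (hT : T ≠ 0) :
    pf q n 1 X T * pf q (n + 1) (-1) X T ≠ pf q (n + 1) 1 X T * pf q n (-1) X T :=
  pf_ne_of (fun _ _ _ hk => P2.cf_cast hq hk)
    (fun n j hj t => Pool.Agent.H374R2.T.TaskP1.pade_coeff n j hj t) hq hT

end Pool.Agent.H374R2.V.P5
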