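import Mathlib
import Pool.Agent.H374R2.V.K0
import Pool.Agent.H374R2.V.K1
import Pool.Agent.H374R2.V.K2
import Pool.Agent.H374R2.V.P5

/-! Task G: gap principle and upper bound for the ratio of the heights. -/

set_option autoImplicit false

namespace Pool.Agent.H374R2.V.G

open Finset Pool.Agent.H374R2.T Pool.Agent.H374R2.V

theorem pf_zero (q : ℕ) (s X T : ℤ) : pf q 0 s X T = 1 := by
  simp [pf, cf]

/-- the pure real number part -/
theorem real_part {h h' L E : ℝ} {q j n : ℕ} (hq3 : 3 ≤ q) (hj : j ≤ 49) (h0 : 0 < h)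
    (hh : h ≤ h') (hL : L ≤ h / 100)
    (h1 : (99 * (j : ℝ) / 5000) * min ((2 * n + 1) * h) h' ≤ E)
    (h2 : E ≤ (n + 1) * L + n * h + (h + h') / q -
      (if j = 49 then 0 else 1 - ((j : ℝ) + 1) / 50) * min ((2 * n + 1) * h) h') :
    (9702 / 10000) * min ((2 * n + 1) * h) h' ≤ (n + 1) * (h / 100) + n * h + (h + h') / 3 := by
  have hq : (3 : ℝ) ≤ q := by exact_mod_cast hq3
  have hq' : (h + h') / q ≤ (h + h') / 3 :=
    div_le_div_of_nonneg_left (by linarith) (by norm_num) hq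
  have hmin : 0 ≤ min ((2 * n + 1) * h) h' := le_min (by positivity) (by linarith)
  generalize min ((2 * (n : ℝ) + 1) * h) h' = M at *
  have hc : (9702 / 10000 : ℝ) ≤ 99 * (j : ℝ) / 5000 +
      (if j = 49 then 0 else 1 - ((j : ℝ) + 1) / 50) := by
    split_ifs with h49
    · subst h49
      norm_num
    · have : (j : ℝ) ≤ 48 := by exact_mod_cast (by omega : j ≤ 48)
      linarith
  have h3 : (9702 / 10000 : ℝ) * M ≤ (99 * (j : ℝ) / 5000 +
      (if j = 49 then 0 else 1 - ((j : ℝ) + 1) / 50)) * M :=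
    mul_le_mul_of_nonneg_right hc hmin
  rw [add_mul] at h3
  have h4 : ((n : ℝ) + 1) * L ≤ (n + 1) * (h / 100) :=
    mul_le_mul_of_nonneg_left hL (by positivity)
  linarith

theorem cross_ne {U V U' V' : ℕ} (hU : 0 < U) (c : Nat.Coprime U V)
    (c' : Nat.Coprime U' V') (hne : U ≠ U' ∨ V ≠ V') : U * V' ≠ U' * V := by
  intro h
  have h1 : U ∣ U' := by
    have : U ∣ U' * V := ⟨V', h.symm⟩
    exact c.dvd_of_dvd_mul_right this
  have h2 : U' ∣ U := by
    have : U' ∣ U * V' := ⟨V, h⟩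
    exact c'.dvd_of_dvd_mul_right this
  have h3 : U = U' := Nat.dvd_antisymm h1 h2
  subst h3
  have h4 : V' = V := Nat.eq_of_mul_eq_mul_left hU h
  rcases hne with h5 | h5
  · exact h5 rfl
  · exact h5 h4.symm

theorem gap {q d N j U V y U' V' y' : ℕ} {a T T' : ℤ} (hq : IsPrimePow q) (hq3 : 3 ≤ q)
    (hqd : Nat.Coprime q d) (hN : (10000 * q ^ 2) ^ 102 ≤ N) (hd : N ^ 99 ≤ d ^ 100)
    (S : Sol q d N j a U V y T) (S' : Sol q d N j a U' V' y' T')
    (hroot : ∀ l : ℕ, l.Prime → l ∣ d → U * V' ≡ U' * V [MOD l])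
    (hne : U ≠ U' ∨ V ≠ V') (hH : HH q a U V ≤ HH q a U' V') :
    (188 / 100) * Real.log (HH q a U V) ≤ Real.log (HH q a U' V') ∧
      Real.log (HH q a U' V') ≤ 15 * Real.log (HH q a U V) := by
  obtain ⟨k1, k2, -⟩ := K0.large hq3 hN hd S
  have hHpos : 0 < HH q a U V := by
    unfold HH
    exact lt_of_lt_of_le (pow_pos S.U0 q) (le_max_left _ _)
  have hh : Real.log (HH q a U V) ≤ Real.log (HH q a U' V') :=
    Real.log_le_log (by exact_mod_cast hHpos) (by exact_mod_cast hH)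
  have hj : j ≤ 49 := by
    rcases S.up with h | h
    · omega
    · omega
  have hL : Real.log (16 * (q : ℝ) ^ 2) + 2 ≤ Real.log (HH q a U V) / 100 := k2
  have star : ∀ n : ℕ, EE q n U V U' V' T ≠ 0 →
      (9702 / 10000) * min ((2 * n + 1) * Real.log (HH q a U V)) (Real.log (HH q a U' V')) ≤
        (n + 1) * (Real.log (HH q a U V) / 100) + n * Real.log (HH q a U V) +
          (Real.log (HH q a U V) + Real.log (HH q a U' V')) / 3 := by
    intro n hE
    exact real_part hq3 hj (by linarith) hh hL (K1.EE_low hq hq3 hqd hN hd S S' hroot hE)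
      (K2.EE_up hq hq3 hN hd S S' hE)
  have hcross : U * V' ≠ U' * V := cross_ne S.U0 S.UV S'.UV hne
  generalize Real.log (HH q a U V) = h at *
  generalize Real.log (HH q a U' V') = h' at *
  have h0 : 0 < h := by linarith
  constructor
  · have hE0 : EE q 0 U V U' V' T ≠ 0 := by
      unfold EE
      rw [pf_zero, pf_zero, mul_one, mul_one]
      intro h1
      apply hcross
      have : ((U * V' : ℕ) : ℤ) = ((U' * V : ℕ) : ℤ) := by linarith
      exact_mod_cast this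
    have h1 := star 0 hE0
    have h2 : min ((2 * ((0 : ℕ) : ℝ) + 1) * h) h' = h := by
      rw [min_eq_left]
      · simp
      · simpa using hh
    rw [h2] at h1
    simp only [Nat.cast_zero, zero_add, zero_mul, one_mul, add_zero] at h1
    linarith
  · obtain ⟨n0, hn1, hn2⟩ : ∃ n0 : ℕ, h' ≤ (2 * n0 + 1) * h ∧ 2 * n0 * h ≤ h' + h := by
      refine ⟨⌈(h' / h - 1) / 2⌉₊, ?_, ?_⟩
      · have h1 := Nat.le_ceil ((h' / h - 1) / 2)
        have h2 : h' / h ≤ 2 * (⌈(h' / h - 1) / 2⌉₊ : ℝ) + 1 := by linarith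
        exact (div_le_iff₀ h0).mp h2
      · have h3 : 0 ≤ (h' / h - 1) / 2 := by
          have : 1 ≤ h' / h := (one_le_div h0).mpr hh
          linarith
        have h1 := Nat.ceil_lt_add_one h3
        have h2 : 2 * (⌈(h' / h - 1) / 2⌉₊ : ℝ) ≤ h' / h + 1 := by linarith
        calc 2 * (⌈(h' / h - 1) / 2⌉₊ : ℝ) * h ≤ (h' / h + 1) * h :=
              mul_le_mul_of_nonneg_right h2 h0.le
          _ = h' + h := by field_simp
    obtain ⟨n, hn3, hn4, hE⟩ : ∃ n : ℕ, n0 ≤ n ∧ n ≤ n0 + 1 ∧ EE q n U V U' V' T ≠ 0 := by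
      by_contra hcon
      push Not at hcon
      have e0 := hcon n0 le_rfl (by omega)
      have e1 := hcon (n0 + 1) (by omega) le_rfl
      unfold EE at e0 e1
      apply P5.pf_ne (q := q) (n := n0) (X := (U : ℤ) ^ q) (T := T) hq S.T0
      set P0 := pf q n0 1 ((U : ℤ) ^ q) T
      set Q0 := pf q n0 (-1) ((U : ℤ) ^ q) T
      set P1 := pf q (n0 + 1) 1 ((U : ℤ) ^ q) T
      set Q1 := pf q (n0 + 1) (-1) ((U : ℤ) ^ q) T
      have hA : ((U * V' : ℕ) : ℤ) ≠ 0 := by
        exact_mod_cast (Nat.mul_pos S.U0 S'.V0).ne'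
      have hB : ((U' * V : ℕ) : ℤ) ≠ 0 := by
        exact_mod_cast (Nat.mul_pos S'.U0 S.V0).ne'
      have a0 : ((U * V' : ℕ) : ℤ) * P0 = ((U' * V : ℕ) : ℤ) * Q0 := by linarith
      have a1 : ((U * V' : ℕ) : ℤ) * P1 = ((U' * V : ℕ) : ℤ) * Q1 := by linarith
      apply mul_left_cancel₀ (mul_ne_zero hA hB)
      calc ((U * V' : ℕ) : ℤ) * ((U' * V : ℕ) : ℤ) * (P0 * Q1) =
          (((U * V' : ℕ) : ℤ) * P0) * (((U' * V : ℕ) : ℤ) * Q1) := by ring
        _ = (((U' * V : ℕ) : ℤ) * Q0) * (((U * V' : ℕ) : ℤ) * P1) := by rw [a0, a1]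
        _ = ((U * V' : ℕ) : ℤ) * ((U' * V : ℕ) : ℤ) * (P1 * Q0) := by ring
    have h1 := star n hE
    have hn3' : (n0 : ℝ) ≤ n := by exact_mod_cast hn3
    have hn4' : (n : ℝ) ≤ n0 + 1 := by exact_mod_cast hn4
    have h2 : min ((2 * (n : ℝ) + 1) * h) h' = h' := by
      rw [min_eq_right]
      refine hn1.trans ?_
      gcongr
    rw [h2] at h1
    have h3 : (n : ℝ) * h ≤ (n0 + 1) * h := mul_le_mul_of_nonneg_right hn4' h0.le
    have h4 : (n : ℝ) * h ≤ (h' + 3 * h) / 2 := by linarith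
    have h5 : ((n : ℝ) + 1) * (h / 100) = (n * h + h) / 100 := by ring
    rw [h5] at h1
    linarith

end Pool.Agent.H374R2.V.G
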