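import Mathlib
import Pool.Agent.H374R2.V.Defs
import Pool.Agent.H374R2.V.K0
import Pool.Agent.H374R2.V.CH
import Pool.Agent.H374R2.V.G
import Pool.Agent.H374R2.T.Count

/-!
Task CV: the number of `B` for given data.
-/

set_option autoImplicit false

namespace Pool.Agent.H374R2.V.CV

open Finset Pool.Agent.H374R2.T Pool.Agent.H374R2.V

/-- The data of one solution. -/
structure Dat (N q i d A B : ℕ) (s σ : ℤ) (x' y U : ℕ) : Prop where
  y0 : 0 < y
  U0 : 0 < U
  eq : (U : ℤ) ^ q - s * (A : ℤ) ^ (q * x' + i) = σ * (B : ℤ) ^ y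
  B0 : 0 < B
  BN : B ≤ N
  dB : d ∣ B
  cop : Nat.Coprime A B
  np : ¬ ∃ w k : ℕ, 2 ≤ k ∧ B = w ^ k

theorem unit_dvd {s : ℤ} (hs : s = 1 ∨ s = -1) {m z : ℤ} (h : m ∣ s * z) : m ∣ z := by
  rcases hs with rfl | rfl
  · simpa using h
  · simpa using h

theorem Dat.prime_cond {N q i d A B : ℕ} {s σ : ℤ} {x' y U : ℕ} (hs : s = 1 ∨ s = -1)
    (hσ : σ = 1 ∨ σ = -1)
    (hq : 0 < q) (h : Dat N q i d A B s σ x' y U) {p : ℕ} (hp : p.Prime) (hpU : p ∣ U)
    (hpAB : p ∣ A ^ (q * x' + i) ∨ p ∣ B) : False := by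
  have e1 : (p : ℤ) ∣ (U : ℤ) ^ q := by
    have : p ∣ U ^ q := dvd_pow hpU hq.ne'
    exact_mod_cast this
  have hcontra : p ∣ A → p ∣ B → False := fun h1 h2 =>
    hp.not_dvd_one (h.cop ▸ Nat.dvd_gcd h1 h2)
  rcases hpAB with h1 | h1
  · have e2 : (p : ℤ) ∣ (A : ℤ) ^ (q * x' + i) := by exact_mod_cast h1
    have e3 : (p : ℤ) ∣ σ * (B : ℤ) ^ y := by
      rw [← h.eq]
      exact dvd_sub e1 (e2.mul_left _)
    have e4 : p ∣ B ^ y := by exact_mod_cast unit_dvd hσ e3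
    exact hcontra (hp.dvd_of_dvd_pow h1) (hp.dvd_of_dvd_pow e4)
  · have e3 : (p : ℤ) ∣ (B : ℤ) ^ y := by
      have : p ∣ B ^ y := dvd_pow h1 h.y0.ne'
      exact_mod_cast this
    have e4 : (p : ℤ) ∣ s * (A : ℤ) ^ (q * x' + i) := by
      have : s * (A : ℤ) ^ (q * x' + i) = (U : ℤ) ^ q - σ * (B : ℤ) ^ y := by rw [← h.eq]; ring
      rw [this]
      exact dvd_sub e1 (e3.mul_left _)
    have e6 : p ∣ A ^ (q * x' + i) := by exact_mod_cast unit_dvd hs e4
    exact hcontra (hp.dvd_of_dvd_pow e6) h1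

theorem natAbs_T {σ : ℤ} (hσ : σ = 1 ∨ σ = -1) (B y : ℕ) : (σ * (B : ℤ) ^ y).natAbs = B ^ y := by
  rw [Int.natAbs_mul, Int.natAbs_pow, Int.natAbs_natCast]
  rcases hσ with rfl | rfl <;> simp

/-- the class of the solution -/
def cls (q : ℕ) (a : ℤ) (U V : ℕ) (T : ℤ) : ℕ :=
  Nat.findGreatest (fun j => HH q a U V ^ j ≤ T.natAbs ^ 50) 49

theorem cls_le (q : ℕ) (a : ℤ) (U V : ℕ) (T : ℤ) : cls q a U V T ≤ 49 := Nat.findGreatest_le _

theorem Dat.sol {N q i d A B : ℕ} {s σ : ℤ} {x' y U : ℕ} (hs : s = 1 ∨ s = -1)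
    (hσ : σ = 1 ∨ σ = -1) (hq : 0 < q) (hA : 0 < A) (h : Dat N q i d A B s σ x' y U) :
    Sol q d N (cls q (s * (A : ℤ) ^ i) U (A ^ x') (σ * (B : ℤ) ^ y)) (s * (A : ℤ) ^ i) U (A ^ x') y
      (σ * (B : ℤ) ^ y) := by
  have hB0 := h.B0
  have hs0 : s ≠ 0 := by rcases hs with rfl | rfl <;> norm_num
  have hσ0 : σ ≠ 0 := by rcases hσ with rfl | rfl <;> norm_num
  have hAZ : (A : ℤ) ≠ 0 := by exact_mod_cast hA.ne'
  have hBZ : (B : ℤ) ≠ 0 := by exact_mod_cast hB0.ne'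
  refine ⟨h.U0, by positivity, h.y0, mul_ne_zero hσ0 (pow_ne_zero _ hBZ),
    mul_ne_zero hs0 (pow_ne_zero _ hAZ), ?_, ?_, ?_, ?_, ?_, ?_, ?_, ?_⟩
  · push_cast
    rw [← h.eq, pow_add, pow_mul, ← pow_mul, mul_comm x' q, pow_mul]
    ring
  · exact (pow_dvd_pow_of_dvd (Int.natCast_dvd_natCast.mpr h.dB) y).mul_left _
  · rw [natAbs_T hσ]
    exact Nat.pow_le_pow_left h.BN _
  · apply Nat.coprime_of_dvd
    intro p hp h2 h3
    apply h.prime_cond hs hσ hq hp h2
    left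
    have h4 : p ∣ A := hp.dvd_of_dvd_pow h3
    rcases Nat.eq_zero_or_pos x' with h5 | h5
    · exfalso
      rw [h5, pow_zero] at h3
      exact hp.not_dvd_one h3
    · have : 0 < q * x' := Nat.mul_pos hq h5
      exact dvd_pow h4 (by omega)
  · apply Nat.coprime_of_dvd
    intro p hp h2 h3
    exact h.prime_cond hs hσ hq hp h2 (Or.inr (h3.trans h.dB))
  · apply Nat.Coprime.pow_left
    exact Nat.Coprime.coprime_dvd_right h.dB h.cop
  · have := Nat.findGreatest_spec (P := fun j => HH q (s * (A : ℤ) ^ i) U (A ^ x') ^ j ≤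
      (σ * (B : ℤ) ^ y).natAbs ^ 50) (m := 0) (n := 49) (by norm_num) (by
        rw [natAbs_T hσ, pow_zero]
        exact Nat.one_le_pow _ _ (by positivity))
    exact this
  · rcases Nat.lt_or_ge (cls q (s * (A : ℤ) ^ i) U (A ^ x') (σ * (B : ℤ) ^ y)) 49 with h1 | h1
    · right
      refine ⟨h1, ?_⟩
      have := Nat.findGreatest_is_greatest (P := fun j => HH q (s * (A : ℤ) ^ i) U (A ^ x') ^ j ≤
        (σ * (B : ℤ) ^ y).natAbs ^ 50) (n := 49)
        (k := cls q (s * (A : ℤ) ^ i) U (A ^ x') (σ * (B : ℤ) ^ y) + 1) (Nat.lt_succ_self _) (by omega)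
      exact (not_le.mp this).le
    · left
      exact le_antisymm (cls_le _ _ _ _ _) h1

theorem solV_finite (N q i d A : ℕ) (s σ : ℤ) : (SolV N q i d A s σ).Finite :=
  (Set.finite_Icc 0 N).subset (fun _ hB => ⟨Nat.zero_le _, hB.2.1⟩)

theorem HH_pos {q : ℕ} {a : ℤ} {U V : ℕ} (hU : 0 < U) : 0 < HH q a U V := by
  unfold HH
  exact lt_of_lt_of_le (by positivity : 0 < U ^ q) (le_max_left _ _)

/-- Task CV (number of `B` for given data). -/
theorem solV_card {N q i d A : ℕ} {s σ : ℤ} (hs : s = 1 ∨ s = -1) (hσ : σ = 1 ∨ σ = -1)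
    (hq : IsPrimePow q) (hq3 : 3 ≤ q) (hN : (10000 * q ^ 2) ^ 102 ≤ N) (hd : N ^ 99 ≤ d ^ 100)
    (hd0 : 0 < d) (hqd : Nat.Coprime q d) (hA : 0 < A) :
    (SolV N q i d A s σ).Finite ∧ (SolV N q i d A s σ).ncard ≤ 250 * q ^ d.primeFactors.card := by
  classical
  refine ⟨solV_finite _ _ _ _ _ _ _, ?_⟩
  have hq0 : 0 < q := by omega
  have hpr : ∀ l : d.primeFactors, ((l : ℕ)).Prime := fun l => Nat.prime_of_mem_primeFactors l.2
  have hdv : ∀ l : d.primeFactors, (l : ℕ) ∣ d := fun l => Nat.dvd_of_mem_primeFactors l.2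
  have : ∀ l : d.primeFactors, NeZero (l : ℕ) := fun l => ⟨(hpr l).ne_zero⟩
  have : ∀ l : d.primeFactors, Fact ((l : ℕ)).Prime := fun l => ⟨hpr l⟩
  let T : Finset (∀ l : d.primeFactors, ZMod (l : ℕ)) :=
    Fintype.piFinset (fun l => univ.filter (fun u : ZMod (l : ℕ) =>
      u ^ q = ((s * (A : ℤ) ^ i : ℤ) : ZMod (l : ℕ))))
  have hT : T.card ≤ q ^ d.primeFactors.card := by
    rw [Fintype.card_piFinset]
    calc ∏ l : d.primeFactors, (univ.filter (fun u : ZMod (l : ℕ) =>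
          u ^ q = ((s * (A : ℤ) ^ i : ℤ) : ZMod (l : ℕ)))).card
        ≤ ∏ _l : d.primeFactors, q := by
          apply Finset.prod_le_prod'
          intro l _
          have h1 := Fc.roots_le (hpr l) hq0 ((s * (A : ℤ) ^ i : ℤ) : ZMod (l : ℕ))
          rw [← Set.ncard_coe_finset]
          refine le_trans (le_of_eq ?_) h1
          congr 1
          ext u
          simp
      _ = q ^ d.primeFactors.card := by
          rw [Finset.prod_const]
          congr 1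
          simp
  -- choice of the data
  have hch : ∀ B : ℕ, ∃ t : ℕ × ℕ × ℕ, B ∈ SolV N q i d A s σ →
      Dat N q i d A B s σ t.1 t.2.1 t.2.2 := by
    intro B
    by_cases h : B ∈ SolV N q i d A s σ
    · obtain ⟨h1, h2, h3, h4, h5, x', y, U, h6, h7, h8⟩ := h
      exact ⟨(x', y, U), fun _ => ⟨h6, h7, h8, h1, h2, h3, h4, h5⟩⟩
    · exact ⟨(0, 0, 0), fun h' => absurd h' h⟩
  choose t ht using hch
  have hAl : ∀ B ∈ SolV N q i d A s σ, ∀ l : d.primeFactors, (A : ZMod (l : ℕ)) ≠ 0 := by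
    intro B hB l h0
    rw [ZMod.natCast_eq_zero_iff] at h0
    exact (hpr l).not_dvd_one ((ht B hB).cop ▸ Nat.dvd_gcd h0 ((hdv l).trans (ht B hB).dB))
  set a : ℤ := s * (A : ℤ) ^ i with ha
  let J : ℕ → ℕ := fun B => cls q a (t B).2.2 (A ^ (t B).1) (σ * (B : ℤ) ^ (t B).2.1)
  let Hh : ℕ → ℕ := fun B => HH q a (t B).2.2 (A ^ (t B).1)
  have hsol : ∀ B ∈ SolV N q i d A s σ, Sol q d N (J B) a (t B).2.2 (A ^ (t B).1) (t B).2.1
      (σ * (B : ℤ) ^ (t B).2.1) := fun B hB => (ht B hB).sol hs hσ hq0 hA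
  let Φ : ℕ → (∀ l : d.primeFactors, ZMod (l : ℕ)) × ℕ := fun B =>
    (fun l : d.primeFactors => ((t B).2.2 : ZMod (l : ℕ)) * ((A : ZMod (l : ℕ)) ^ (t B).1)⁻¹, J B)
  set F0 : Finset ℕ := (solV_finite N q i d A s σ).toFinset with hF0
  have hmem : ∀ B, B ∈ F0 ↔ B ∈ SolV N q i d A s σ := fun B => Set.Finite.mem_toFinset _
  rw [Set.ncard_eq_toFinset_card _ (solV_finite N q i d A s σ)]
  have himg : F0.image Φ ⊆ T ×ˢ Finset.range 50 := by
    intro z hz
    rw [Finset.mem_image] at hz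
    obtain ⟨B, hB, rfl⟩ := hz
    rw [hmem] at hB
    rw [Finset.mem_product]
    constructor
    · simp only [Φ]
      rw [Fintype.mem_piFinset]
      intro l
      rw [Finset.mem_filter]
      refine ⟨Finset.mem_univ _, ?_⟩
      have hD := ht B hB
      have h1 := congrArg (fun z : ℤ => (z : ZMod (l : ℕ))) hD.eq
      have h3 : (B : ZMod (l : ℕ)) = 0 :=
        (ZMod.natCast_eq_zero_iff _ _).mpr ((hdv l).trans hD.dB)
      push_cast at h1 ⊢
      rw [h3, zero_pow hD.y0.ne', mul_zero, sub_eq_zero] at h1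
      have h4 : (A : ZMod (l : ℕ)) ^ (t B).1 ≠ 0 := pow_ne_zero _ (hAl B hB l)
      rw [mul_pow, inv_pow, h1, pow_add, ← pow_mul, mul_comm (t B).1 q]
      have h5 : (A : ZMod (l : ℕ)) ^ (q * (t B).1) ≠ 0 := pow_ne_zero _ (hAl B hB l)
      field_simp
    · simp only [Φ, J, Finset.mem_range]
      have := cls_le q a (t B).2.2 (A ^ (t B).1) (σ * (B : ℤ) ^ (t B).2.1)
      omega
  have hfib : ∀ z ∈ F0.image Φ, (F0.filter (fun B => Φ B = z)).card ≤ 5 := by
    intro z _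
    apply CH.chain _ (fun B => Real.log (Hh B))
    · intro B hB
      rw [Finset.mem_filter, hmem] at hB
      have := (K0.large hq3 hN hd (hsol B hB.1)).1
      simp only [Hh]
      linarith
    · intro B hB B' hB' hne hle
      rw [Finset.mem_filter, hmem] at hB hB'
      have hS := hsol B hB.1
      have hS' := hsol B' hB'.1
      have hBB : Φ B = Φ B' := hB.2.trans hB'.2.symm
      have hJ : J B' = J B := (congrArg Prod.snd hBB).symm
      rw [hJ] at hS'
      have hD := ht B hB.1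
      have hD' := ht B' hB'.1
      have hroot : ∀ l : ℕ, l.Prime → l ∣ d →
          (t B).2.2 * A ^ (t B').1 ≡ (t B').2.2 * A ^ (t B).1 [MOD l] := by
        intro l hl hld
        have hmem : l ∈ d.primeFactors := Nat.mem_primeFactors.mpr ⟨hl, hld, hd0.ne'⟩
        have h1 := congrFun (congrArg Prod.fst hBB) ⟨l, hmem⟩
        simp only [Φ] at h1
        have h2 : (A : ZMod l) ≠ 0 := hAl B hB.1 ⟨l, hmem⟩
        have : Fact l.Prime := ⟨hl⟩
        have h3 : (A : ZMod l) ^ (t B).1 ≠ 0 := pow_ne_zero _ h2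
        have h4 : (A : ZMod l) ^ (t B').1 ≠ 0 := pow_ne_zero _ h2
        rw [← ZMod.natCast_eq_natCast_iff]
        push_cast
        field_simp at h1
        rw [h1]
        ring
      have hne' : (t B).2.2 ≠ (t B').2.2 ∨ A ^ (t B).1 ≠ A ^ (t B').1 := by
        by_contra hcon
        push Not at hcon
        apply hne
        have e1 := hS.eq
        have e2 := hS'.eq
        rw [hcon.1, hcon.2, e2] at e1
        have e3 := congrArg Int.natAbs e1
        rw [natAbs_T hσ, natAbs_T hσ] at e3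
        exact (eq_of_pow_eq hD'.B0 hD.B0 hD'.y0 hD.y0 hD'.np hD.np e3).symm
      have hHH : Hh B ≤ Hh B' := by
        have h1 : (0 : ℝ) < Hh B := by exact_mod_cast HH_pos hD.U0
        have h2 : (0 : ℝ) < Hh B' := by exact_mod_cast HH_pos hD'.U0
        have h3 := (Real.log_le_log_iff h1 h2).mp hle
        exact_mod_cast h3
      exact G.gap hq hq3 hqd hN hd hS hS' hroot hne' hHH
  have hcard := Finset.card_le_mul_card_image F0 5 hfib
  have h2 : (F0.image Φ).card ≤ q ^ d.primeFactors.card * 50 := by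
    refine (Finset.card_le_card himg).trans ?_
    rw [Finset.card_product, Finset.card_range]
    exact Nat.mul_le_mul_right _ hT
  calc F0.card ≤ 5 * (F0.image Φ).card := hcard
    _ ≤ 5 * (q ^ d.primeFactors.card * 50) := Nat.mul_le_mul_left _ h2
    _ = 250 * q ^ d.primeFactors.card := by ring

end Pool.Agent.H374R2.V.CV
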