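import Mathlib
import Pool.Agent.H374R2.V.TL
import Pool.Agent.H374R2.T.TaskU

/-!
Task QB: the bound for a prime exponent `q`, from two logarithms.
-/

namespace Pool.Agent.H374R2.V.QB

open Finset Pool.Agent.H374R2.T.TaskU

/-- if `l < q` are primes, then `q`-th powers are injective modulo `l` -/
theorem pow_inj_mod {q l : ℕ} {w₁ w₂ : ℤ} (hq : q.Prime) (hl : l.Prime) (hlq : l < q)
    (h1 : ¬ (l : ℤ) ∣ w₁) (h2 : ¬ (l : ℤ) ∣ w₂) (h : (l : ℤ) ∣ w₁ ^ q - w₂ ^ q) :
    (l : ℤ) ∣ w₁ - w₂ := by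
  have : Fact l.Prime := ⟨hl⟩
  have e1 : (w₁ : ZMod l) ≠ 0 := fun e => h1 ((ZMod.intCast_zmod_eq_zero_iff_dvd _ _).mp e)
  have e2 : (w₂ : ZMod l) ≠ 0 := fun e => h2 ((ZMod.intCast_zmod_eq_zero_iff_dvd _ _).mp e)
  have e3 : (w₁ : ZMod l) ^ q = (w₂ : ZMod l) ^ q := by
    have := (ZMod.intCast_zmod_eq_zero_iff_dvd _ l).mpr h
    push_cast at this
    linear_combination this
  set t : ZMod l := (w₁ : ZMod l) / w₂ with ht
  have ht0 : t ≠ 0 := div_ne_zero e1 e2
  have htq : t ^ q = 1 := by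
    rw [ht, div_pow, e3]
    exact div_self (pow_ne_zero _ e2)
  have htl : t ^ (l - 1) = 1 := ZMod.pow_card_sub_one_eq_one ht0
  have hcop : Nat.Coprime q (l - 1) := by
    rw [hq.coprime_iff_not_dvd]
    have h2 := hl.two_le
    exact Nat.not_dvd_of_pos_of_lt (by omega) (by omega)
  have hord : orderOf t ∣ 1 := by
    rw [← hcop.gcd_eq_one]
    exact Nat.dvd_gcd (orderOf_dvd_of_pow_eq_one htq) (orderOf_dvd_of_pow_eq_one htl)
  have ht1 : t = 1 := orderOf_eq_one_iff.mp (Nat.dvd_one.mp hord)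
  have e4 : (w₁ : ZMod l) = w₂ := by
    rw [ht] at ht1
    exact (div_eq_one_iff_eq e2).mp ht1
  rw [← ZMod.intCast_zmod_eq_zero_iff_dvd]
  push_cast
  rw [e4, sub_self]

theorem dvd_of_pow {q d y : ℕ} {w₁ w₂ : ℤ} (hq : q.Prime) (hy : 0 < y)
    (hl : ∀ l : ℕ, l.Prime → l ∣ d → l < q ∧ ¬ (l : ℤ) ∣ w₁ ∧ ¬ (l : ℤ) ∣ w₂)
    (hpow : (d : ℤ) ^ y ∣ w₁ ^ q - w₂ ^ q) : (d : ℤ) ^ y ∣ w₁ - w₂ := by
  refine dvd_sub_of_pow (q := q) ?_ ?_ ?_ hpow
  · intro p hp hpd hpq
    have h1 := (hl p hp hpd).1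
    have h2 := (Nat.prime_dvd_prime_iff_eq hp hq).mp hpq
    omega
  · intro p hp hpd
    exact (hl p hp hpd).2.1
  · intro p hp hpd
    obtain ⟨h1, h2, h3⟩ := hl p hp hpd
    refine pow_inj_mod hq hp h1 h2 h3 ?_
    refine dvd_trans ?_ hpow
    refine dvd_trans (Int.natCast_dvd_natCast.mpr hpd) ?_
    exact dvd_pow_self _ hy.ne'

/-- the bound coming from two logarithms -/
theorem core {N R q y p U V A i : ℕ} (hq : q.Prime) (hp : p.Prime) (hpR : p ≤ R)
    (hA0 : 0 < A) (hAN : A ≤ N) (hV0 : 0 < V) (hU : 2 ≤ U) (hUV : U ≠ V)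
    (hpU : ¬ p ∣ U) (hpV : ¬ p ∣ V) (hpA : ¬ p ∣ A) (hi : 0 < i) (hiq : i < q)
    (hrel : (p : ℤ) ^ y ∣ (U : ℤ) ^ (2 * q) - (V : ℤ) ^ (2 * q) * (A : ℤ) ^ (2 * i))
    (hsize : (max U V) ^ q < 2 ^ (2 * ((Nat.log 2 N + 1) * y) + 1)) :
    q < 10 ^ 6 * R ^ 2 * (Nat.log 2 q + 1) ^ 2 * (Nat.log 2 N + 1) ^ 2 := by
  set ν := Nat.log 2 N + 1 with hν
  set lam := Nat.log 2 q + 1 with hlam
  have hν1 : 1 ≤ ν := by omega
  have hlam1 : 1 ≤ lam := by omega
  have hNν : N < 2 ^ ν := Nat.lt_pow_succ_log_self (by norm_num) N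
  have hp1 : 1 ≤ p := hp.one_lt.le
  have hP1 : 1 ≤ R := hp1.trans hpR
  rcases Nat.lt_or_ge q (600 * p * ν * lam) with hsmall | hbig
  · have h1 : 600 * p * ν * lam ≤ 10 ^ 6 * R ^ 2 * lam ^ 2 * ν ^ 2 := by
      calc 600 * p * ν * lam ≤ 10 ^ 6 * (R * R) * (ν * ν) * (lam * lam) := by
            apply Nat.mul_le_mul
            · apply Nat.mul_le_mul
              · apply Nat.mul_le_mul (by norm_num)
                calc p ≤ R := hpR
                  _ = R * 1 := by ring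
                  _ ≤ R * R := Nat.mul_le_mul_left _ hP1
              · calc ν = ν * 1 := by ring
                  _ ≤ ν * ν := Nat.mul_le_mul_left _ hν1
            · calc lam = lam * 1 := by ring
                _ ≤ lam * lam := Nat.mul_le_mul_left _ hlam1
        _ = _ := by ring
    omega
  set H := max U V with hH
  set h' := Nat.log 2 H + 1 with hh'
  have hH0 : H ≠ 0 := by
    have : U ≤ H := le_max_left _ _
    omega
  have hUH : U ≤ H := le_max_left _ _
  have hVH : V ≤ H := le_max_right _ _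
  have hHlt : H < 2 ^ h' := Nat.lt_pow_succ_log_self (by norm_num) H
  have hHge : 2 ^ (h' - 1) ≤ H := Nat.pow_log_le_self 2 hH0
  have hcop : Nat.Coprime i q := by
    rw [Nat.coprime_comm, hq.coprime_iff_not_dvd]
    exact Nat.not_dvd_of_pos_of_lt hi hiq
  have hy := TL.two_logs (ν := ν) (h := h') hp (by omega) hν1 (by omega) hV0 hA0 hUV
    (hUH.trans_lt hHlt) (hVH.trans_lt hHlt) (hAN.trans_lt hNν) hpU hpV hpA hi hiq hcop hrel hbig
  have hh2 : 2 ≤ h' := by
    have : 1 ≤ Nat.log 2 H := Nat.log_pos (by norm_num) (hU.trans hUH)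
    omega
  have h1 : 2 ^ ((h' - 1) * q) < 2 ^ (2 * (ν * y) + 1) := by
    calc 2 ^ ((h' - 1) * q) = (2 ^ (h' - 1)) ^ q := by rw [pow_mul]
      _ ≤ H ^ q := Nat.pow_le_pow_left hHge q
      _ < _ := hsize
  have h2 := (Nat.pow_lt_pow_iff_right (by norm_num : 1 < 2)).mp h1
  have h3 : h' * q ≤ 4 * (ν * y) := by
    have h4 : h' * q ≤ 2 * ((h' - 1) * q) := by
      calc h' * q ≤ (2 * (h' - 1)) * q := Nat.mul_le_mul_right _ (by omega)
        _ = _ := by ring
    omega
  have h5 : h' * q < h' * (10 ^ 6 * R ^ 2 * lam ^ 2 * ν ^ 2) := by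
    calc h' * q ≤ 4 * (ν * y) := h3
      _ < 4 * (ν * (150000 * p ^ 2 * lam ^ 2 * h' * ν)) := by
          apply Nat.mul_lt_mul_of_pos_left _ (by norm_num)
          exact Nat.mul_lt_mul_of_pos_left hy (by omega)
      _ = h' * (600000 * p ^ 2 * lam ^ 2 * ν ^ 2) := by ring
      _ ≤ h' * (10 ^ 6 * R ^ 2 * lam ^ 2 * ν ^ 2) := by
          apply Nat.mul_le_mul_left
          apply Nat.mul_le_mul_right
          apply Nat.mul_le_mul_right
          exact Nat.mul_le_mul (by norm_num) (Nat.pow_le_pow_left hpR 2)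
  exact Nat.lt_of_mul_lt_mul_left h5

theorem pow_sub_le {a b q : ℕ} (hq : q ≠ 0) (hab : b ≤ a) : (a - b) ^ q + b ^ q ≤ a ^ q := by
  have h := pow_add_pow_le (Nat.zero_le (a - b)) (Nat.zero_le b) hq
  rwa [Nat.sub_add_cancel hab] at h

theorem pow_add_le (a b q : ℕ) : (a + b) ^ q ≤ 2 ^ q * (a ^ q + b ^ q) := by
  have h := add_pow_le (Nat.zero_le a) (Nat.zero_le b) q
  refine h.trans (Nat.mul_le_mul_right _ ?_)
  exact Nat.pow_le_pow_right (by norm_num) (by omega)

theorem q_bound {N R A B q x y U p : ℕ} {s σ : ℤ} (hs : s = 1 ∨ s = -1) (hσ : σ = 1 ∨ σ = -1)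
    (hq : q.Prime) (hq3 : 3 ≤ q) (hA : 0 < A) (hAR : A ≤ R) (hRN : R ≤ N)
    (hAB : Nat.Coprime A B) (hB0 : 0 < B) (hBN : B ≤ N) (hx : 0 < x) (hx1 : A = 1 → q ∣ x)
    (hy : 0 < y) (hU : 2 ≤ U) (hp : p.Prime) (hp3 : 3 ≤ p) (hpR : p ≤ R) (hpB : p ∣ B)
    (heq : (U : ℤ) ^ q - s * (A : ℤ) ^ x = σ * (B : ℤ) ^ y) :
    q < 10 ^ 6 * R ^ 2 * (Nat.log 2 q + 1) ^ 2 * (Nat.log 2 N + 1) ^ 2 := by
  by_contra hcon
  rw [not_lt] at hcon
  set ν := Nat.log 2 N + 1 with hν
  set lam := Nat.log 2 q + 1 with hlam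
  have hR1 : 1 ≤ R := hA.trans_le hAR
  have hν1 : 1 ≤ ν := by omega
  have hlam1 : 1 ≤ lam := by omega
  have hNν : N < 2 ^ ν := Nat.lt_pow_succ_log_self (by norm_num) N
  have hR2 : R ≤ R ^ 2 := Nat.le_self_pow (by norm_num) R
  have hν2 : ν ≤ ν ^ 2 := Nat.le_self_pow (by norm_num) ν
  have hl2 : 1 ≤ lam ^ 2 := Nat.one_le_pow _ _ hlam1
  have hv2 : 1 ≤ ν ^ 2 := Nat.one_le_pow _ _ hν1
  have hr2 : 1 ≤ R ^ 2 := Nat.one_le_pow _ _ hR1
  have hqR : R < q := by
    have h1 : R ^ 2 * 1 * 1 ≤ R ^ 2 * lam ^ 2 * ν ^ 2 :=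
      Nat.mul_le_mul (Nat.mul_le_mul_left _ hl2) hv2
    have h2 : 10 ^ 6 * R ^ 2 * lam ^ 2 * ν ^ 2 = 10 ^ 6 * (R ^ 2 * lam ^ 2 * ν ^ 2) := by ring
    omega
  have hqν : 2 * ν < q := by
    have h1 : 1 * 1 * ν ^ 2 ≤ R ^ 2 * lam ^ 2 * ν ^ 2 :=
      Nat.mul_le_mul_right _ (Nat.mul_le_mul hr2 hl2)
    have h2 : 10 ^ 6 * R ^ 2 * lam ^ 2 * ν ^ 2 = 10 ^ 6 * (R ^ 2 * lam ^ 2 * ν ^ 2) := by ring
    omega
  have hqodd : Odd q := hq.odd_of_ne_two (by omega)
  have hB3 : 3 ≤ B := hp3.trans (Nat.le_of_dvd hB0 hpB)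
  have hss : s * s = 1 := by rcases hs with rfl | rfl <;> norm_num
  have hσσ : σ * σ = 1 := by rcases hσ with rfl | rfl <;> norm_num
  have hσq : σ ^ q = σ := by
    rcases hσ with rfl | rfl
    · simp
    · exact hqodd.neg_one_pow
  have hsq : s ^ q = s := by
    rcases hs with rfl | rfl
    · simp
    · exact hqodd.neg_one_pow
  -- coprimality
  have hUA : ∀ l : ℕ, l.Prime → l ∣ U → ¬ l ∣ A := by
    intro l hl hlU hlA
    have h1 : (l : ℤ) ∣ σ * (B : ℤ) ^ y := by
      rw [← heq]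
      refine dvd_sub ?_ ?_
      · exact dvd_pow (Int.natCast_dvd_natCast.mpr hlU) hq.pos.ne'
      · exact dvd_mul_of_dvd_right (dvd_pow (Int.natCast_dvd_natCast.mpr hlA) hx.ne') _
    have h2 : (l : ℤ) ∣ (B : ℤ) ^ y := by
      have := dvd_mul_of_dvd_right h1 σ
      rwa [← mul_assoc, hσσ, one_mul] at this
    have h3 : l ∣ B ^ y := by exact_mod_cast h2
    exact hl.not_dvd_one (hAB ▸ Nat.dvd_gcd hlA (hl.dvd_of_dvd_pow h3))
  have hUB : ∀ l : ℕ, l.Prime → l ∣ U → ¬ l ∣ B := by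
    intro l hl hlU hlB
    have h1 : (l : ℤ) ∣ s * (A : ℤ) ^ x := by
      have e : s * (A : ℤ) ^ x = (U : ℤ) ^ q - σ * (B : ℤ) ^ y := by linear_combination -heq
      rw [e]
      refine dvd_sub ?_ ?_
      · exact dvd_pow (Int.natCast_dvd_natCast.mpr hlU) hq.pos.ne'
      · exact dvd_mul_of_dvd_right (dvd_pow (Int.natCast_dvd_natCast.mpr hlB) hy.ne') _
    have h2 : (l : ℤ) ∣ (A : ℤ) ^ x := by
      have := dvd_mul_of_dvd_right h1 s
      rwa [← mul_assoc, hss, one_mul] at this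
    have h3 : l ∣ A ^ x := by exact_mod_cast h2
    exact hUA l hl hlU (hl.dvd_of_dvd_pow h3)
  have hAB' : ∀ l : ℕ, l.Prime → l ∣ A → ¬ l ∣ B := by
    intro l hl h1 h2
    exact hl.not_dvd_one (hAB ▸ Nat.dvd_gcd h1 h2)
  have hpA : ¬ p ∣ A := fun h => hAB' p hp h hpB
  have hpU : ¬ p ∣ U := fun h => hUB p hp h hpB
  obtain ⟨r, hr, hrU⟩ := Nat.exists_prime_and_dvd (show U ≠ 1 by omega)
  have hUne : ∀ k, U ≠ A ^ k := by
    intro k he
    exact hUA r hr hrU (hr.dvd_of_dvd_pow (he ▸ hrU))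
  have hUne' : ∀ k, U ≠ B ^ k := by
    intro k he
    exact hUB r hr hrU (hr.dvd_of_dvd_pow (he ▸ hrU))
  have hBy : B ^ y ≤ 2 ^ (ν * y) := by
    rw [pow_mul]
    exact Nat.pow_le_pow_left (hBN.trans hNν.le) y
  have hpy : (p : ℤ) ^ y ∣ (B : ℤ) ^ y := by
    have : p ^ y ∣ B ^ y := pow_dvd_pow_of_dvd hpB y
    exact_mod_cast this
  -- case `q ∣ x`
  by_cases hqx : q ∣ x
  · obtain ⟨x1, rfl⟩ := hqx
    set V := A ^ x1 with hV
    have hpV : ¬ p ∣ V := fun hd => hpA (hp.dvd_of_dvd_pow hd)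
    have heq2 : (U : ℤ) ^ q - (s * (V : ℤ)) ^ q = σ * (B : ℤ) ^ y := by
      rw [← heq, mul_pow, hsq, hV]
      push_cast
      ring
    have hdv : (p : ℤ) ^ y ∣ (U : ℤ) - s * (V : ℤ) := by
      refine dvd_of_pow hq hy ?_ ?_
      · intro l hl hlp
        have hlp' : l = p := (Nat.prime_dvd_prime_iff_eq hl hp).mp hlp
        subst hlp'
        refine ⟨by omega, fun h => hpU (by exact_mod_cast h), fun h => hpV ?_⟩
        have := dvd_mul_of_dvd_right h s
        rw [← mul_assoc, hss, one_mul] at this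
        exact_mod_cast this
      · rw [heq2]
        exact dvd_mul_of_dvd_right hpy _
    have hne : (U : ℤ) - s * (V : ℤ) ≠ 0 := by
      intro h0
      have h1 : (U : ℤ) = s * V := by linarith
      rw [h1, sub_self] at heq2
      have h2 : (B : ℤ) ^ y = 0 := by
        have := congrArg (fun t => σ * t) heq2
        simp only [mul_zero] at this
        rw [← mul_assoc, hσσ, one_mul] at this
        exact this.symm
      have h3 : (B : ℤ) ≠ 0 := by exact_mod_cast hB0.ne'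
      exact pow_ne_zero _ h3 h2
    have hle : p ^ y ≤ ((U : ℤ) - s * (V : ℤ)).natAbs := by
      have := Int.natAbs_dvd_natAbs.mpr hdv
      rw [Int.natAbs_pow, Int.natAbs_natCast] at this
      exact Nat.le_of_dvd (Int.natAbs_pos.mpr hne) this
    -- upper bound of the power
    have hup : ((U : ℤ) - s * (V : ℤ)).natAbs ^ q ≤ 2 ^ q * B ^ y := by
      rcases hs with rfl | rfl
      · rw [one_mul] at heq2 ⊢
        rcases le_total U V with hUV | hUV
        · have e1 : ((U : ℤ) - (V : ℤ)).natAbs = V - U := by omega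
          rw [e1]
          have h2 := pow_sub_le hq.pos.ne' hUV
          have h3 : V ^ q ≤ U ^ q + B ^ y := by
            have : (V : ℤ) ^ q ≤ (U : ℤ) ^ q + (B : ℤ) ^ y := by
              have hB1 : (0 : ℤ) ≤ (B : ℤ) ^ y := by positivity
              rcases hσ with rfl | rfl <;> linarith
            exact_mod_cast this
          have h4 : B ^ y ≤ 2 ^ q * B ^ y := Nat.le_mul_of_pos_left _ (by positivity)
          omega
        · have e1 : ((U : ℤ) - (V : ℤ)).natAbs = U - V := by omega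
          rw [e1]
          have h2 := pow_sub_le hq.pos.ne' hUV
          have h3 : U ^ q ≤ V ^ q + B ^ y := by
            have : (U : ℤ) ^ q ≤ (V : ℤ) ^ q + (B : ℤ) ^ y := by
              have hB1 : (0 : ℤ) ≤ (B : ℤ) ^ y := by positivity
              rcases hσ with rfl | rfl <;> linarith
            exact_mod_cast this
          have h4 : B ^ y ≤ 2 ^ q * B ^ y := Nat.le_mul_of_pos_left _ (by positivity)
          omega
      · have e1 : ((U : ℤ) - (-1) * (V : ℤ)).natAbs = U + V := by omega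
        rw [e1]
        refine (pow_add_le U V q).trans (Nat.mul_le_mul_left _ ?_)
        have : (U : ℤ) ^ q + (V : ℤ) ^ q ≤ (B : ℤ) ^ y := by
          have hB1 : (0 : ℤ) ≤ (B : ℤ) ^ y := by positivity
          rw [mul_pow, hsq] at heq2
          rcases hσ with rfl | rfl <;> linarith
        exact_mod_cast this
    have h1 : 3 ^ (y * q) ≤ 2 ^ q * 2 ^ (ν * y) := by
      calc 3 ^ (y * q) = (3 ^ y) ^ q := by rw [pow_mul]
        _ ≤ (p ^ y) ^ q := Nat.pow_le_pow_left (Nat.pow_le_pow_left hp3 y) q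
        _ ≤ _ := Nat.pow_le_pow_left hle q
        _ ≤ 2 ^ q * B ^ y := hup
        _ ≤ _ := Nat.mul_le_mul_left _ hBy
    have h2 : 2 ^ (3 * (y * q)) ≤ 2 ^ (2 * (q + ν * y)) := by
      calc 2 ^ (3 * (y * q)) = 8 ^ (y * q) := by rw [pow_mul]; norm_num
        _ ≤ 9 ^ (y * q) := Nat.pow_le_pow_left (by norm_num) _
        _ = (3 ^ 2) ^ (y * q) := by norm_num
        _ = (3 ^ (y * q)) ^ 2 := by rw [← pow_mul, ← pow_mul, mul_comm]
        _ ≤ (2 ^ q * 2 ^ (ν * y)) ^ 2 := Nat.pow_le_pow_left h1 2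
        _ = 2 ^ (2 * (q + ν * y)) := by rw [← pow_add, ← pow_mul, mul_comm]
    have h3 := (Nat.pow_le_pow_iff_right (by norm_num : 1 < 2)).mp h2
    have h4 : q ≤ y * q := Nat.le_mul_of_pos_left q hy
    have h5 : y * q ≤ y * (2 * ν) := by
      have h7 : y * (2 * ν) = 2 * (ν * y) := by ring
      omega
    have h6 := Nat.le_of_mul_le_mul_left h5 hy
    omega
  -- case `¬ q ∣ x`
  have hA2 : 2 ≤ A := by
    by_contra h
    exact hqx (hx1 (by omega))
  set i := x % q with hi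
  set x1 := x / q with hx1'
  have hxi : x = q * x1 + i := (Nat.div_add_mod x q).symm
  have hi0 : 0 < i := Nat.pos_of_ne_zero fun h => hqx (Nat.dvd_of_mod_eq_zero h)
  have hiq : i < q := Nat.mod_lt _ hq.pos
  rcases le_or_gt (A ^ x) (B ^ (2 * y)) with hcase | hcase
  · -- (R1)
    refine absurd (core (N := N) (R := R) (q := q) (y := y) (p := p) (U := U) (V := A ^ x1)
      (A := A) (i := i) hq hp hpR hA (hAR.trans hRN) (by positivity) hU (hUne _) hpU
      (fun hd => hpA (hp.dvd_of_dvd_pow hd)) hpA hi0 hiq ?_ ?_) (not_lt.mpr hcon)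
    · have e1 : (U : ℤ) ^ (2 * q) - ((A ^ x1 : ℕ) : ℤ) ^ (2 * q) * (A : ℤ) ^ (2 * i) =
          ((U : ℤ) ^ q - s * (A : ℤ) ^ x) * ((U : ℤ) ^ q + s * (A : ℤ) ^ x) := by
        have e2 : ((A ^ x1 : ℕ) : ℤ) ^ (2 * q) * (A : ℤ) ^ (2 * i) =
            (A : ℤ) ^ x * (A : ℤ) ^ x := by
          rw [hxi]
          push_cast
          ring
        rw [e2]
        linear_combination (((A : ℤ) ^ x) ^ 2) * hss
      rw [e1, heq]
      apply Dvd.dvd.mul_right
      exact dvd_mul_of_dvd_right hpy _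
    · have hB2 : B ^ (2 * y) ≤ 2 ^ (2 * (ν * y)) := by
        calc B ^ (2 * y) = (B ^ y) ^ 2 := by rw [mul_comm, pow_mul]
          _ ≤ (2 ^ (ν * y)) ^ 2 := Nat.pow_le_pow_left hBy 2
          _ = _ := by rw [← pow_mul, mul_comm]
      have hBB : B ^ y ≤ B ^ (2 * y) := Nat.pow_le_pow_right hB0 (by omega)
      have hBlt : B ^ y < 2 ^ (ν * y) := by
        rw [pow_mul]
        exact Nat.pow_lt_pow_left (hBN.trans_lt hNν) hy.ne'
      have hB3' : B ^ (2 * y) < 2 ^ (2 * (ν * y)) := by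
        calc B ^ (2 * y) = (B ^ y) ^ 2 := by rw [mul_comm, pow_mul]
          _ < (2 ^ (ν * y)) ^ 2 := Nat.pow_lt_pow_left hBlt (by norm_num)
          _ = _ := by rw [← pow_mul, mul_comm]
      have hU1 : U ^ q ≤ A ^ x + B ^ y := by
        have : (U : ℤ) ^ q ≤ (A : ℤ) ^ x + (B : ℤ) ^ y := by
          have hB1 : (0 : ℤ) ≤ (B : ℤ) ^ y := by positivity
          have hA1 : (0 : ℤ) ≤ (A : ℤ) ^ x := by positivity
          rcases hs with rfl | rfl <;> rcases hσ with rfl | rfl <;> linarith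
        exact_mod_cast this
      have hV1 : (A ^ x1) ^ q ≤ A ^ x := by
        rw [← pow_mul]
        exact Nat.pow_le_pow_right hA (by rw [hxi, mul_comm]; omega)
      have hpow : 2 ^ (2 * (ν * y) + 1) = 2 * 2 ^ (2 * (ν * y)) := by rw [pow_succ, mul_comm]
      rw [hpow]
      rcases max_choice U (A ^ x1) with hc | hc
      · rw [hc]; omega
      · rw [hc]; omega
  · -- (R2)
    have hBB : B ^ y ≤ B ^ (2 * y) := Nat.pow_le_pow_right hB0 (by omega)
    have hs1 : s = 1 := by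
      rcases hs with h | h
      · exact h
      · exfalso
        rw [h] at heq
        have hU0 : (0 : ℤ) ≤ (U : ℤ) ^ q := by positivity
        have h1 : (A : ℤ) ^ x ≤ (B : ℤ) ^ y := by
          have hB1 : (0 : ℤ) ≤ (B : ℤ) ^ y := by positivity
          rcases hσ with rfl | rfl <;> linarith
        have h2 : A ^ x ≤ B ^ y := by exact_mod_cast h1
        omega
    rw [hs1, one_mul] at heq
    have hAx : A ^ x < 2 ^ (ν * x) := by
      rw [pow_mul]
      exact Nat.pow_lt_pow_left ((hAR.trans hRN).trans_lt hNν) hx.ne'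
    have hAdiv : (A : ℤ) ^ x = (U : ℤ) ^ q - σ * (B : ℤ) ^ y := by linear_combination -heq
    have hA2x : 2 ≤ A ^ x := hA2.trans (Nat.le_self_pow hx.ne' A)
    by_cases hqy : q ∣ y
    · obtain ⟨y1, rfl⟩ := hqy
      have hy1 : y1 ≠ 0 := by
        rintro rfl
        simp at hy
      set W := B ^ y1 with hW
      have hW1 : 1 ≤ W := Nat.one_le_pow _ _ hB0
      have heq2 : (U : ℤ) ^ q - (σ * (W : ℤ)) ^ q = (A : ℤ) ^ x := by
        rw [hAdiv, mul_pow, hσq, hW]
        push_cast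
        ring
      have hdv : (A : ℤ) ^ x ∣ (U : ℤ) - σ * (W : ℤ) := by
        refine dvd_of_pow hq hx ?_ ?_
        · intro l hl hlA
          refine ⟨?_, fun h => hUA l hl (by exact_mod_cast h) hlA, fun h => ?_⟩
          · have := Nat.le_of_dvd hA hlA
            omega
          · have := dvd_mul_of_dvd_right h σ
            rw [← mul_assoc, hσσ, one_mul] at this
            have h2 : l ∣ B ^ y1 := by exact_mod_cast this
            exact hAB' l hl hlA (hl.dvd_of_dvd_pow h2)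
        · rw [heq2]
      rcases hσ with rfl | rfl
      · rw [one_mul] at heq2 hdv
        have hWU : W < U := by
          by_contra hle
          rw [not_lt] at hle
          have h1 : U ^ q ≤ W ^ q := Nat.pow_le_pow_left hle q
          have h2 : (U : ℤ) ^ q ≤ (W : ℤ) ^ q := by exact_mod_cast h1
          have h3 : (0 : ℤ) < (A : ℤ) ^ x := by positivity
          linarith
        have h1 : A ^ x ∣ U - W := by
          have : ((A ^ x : ℕ) : ℤ) ∣ ((U - W : ℕ) : ℤ) := by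
            rw [Nat.cast_sub hWU.le]
            exact_mod_cast hdv
          exact_mod_cast this
        have h2 : A ^ x ≤ U - W := Nat.le_of_dvd (by omega) h1
        have h3 := pow_sub_le hq.pos.ne' hWU.le
        have h4 : U ^ q = W ^ q + A ^ x := by
          have : (U : ℤ) ^ q = (W : ℤ) ^ q + (A : ℤ) ^ x := by linarith
          exact_mod_cast this
        have h5 : U - W < (U - W) ^ q := by
          calc U - W = (U - W) ^ 1 := (pow_one _).symm
            _ < (U - W) ^ q := Nat.pow_lt_pow_right (by omega) (by omega)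
        omega
      · have heq3 : U ^ q + W ^ q = A ^ x := by
          have : (U : ℤ) ^ q + (W : ℤ) ^ q = (A : ℤ) ^ x := by
            rw [mul_pow, hσq] at heq2
            linarith
          exact_mod_cast this
        have h1 : A ^ x ∣ U + W := by
          have : ((A ^ x : ℕ) : ℤ) ∣ ((U + W : ℕ) : ℤ) := by
            push_cast
            have e : (U : ℤ) + W = (U : ℤ) - (-1) * W := by ring
            rw [e]
            exact hdv
          exact_mod_cast this
        have h2 : A ^ x ≤ U + W := Nat.le_of_dvd (by omega) h1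
        have h3 : U < U ^ q := by
          calc U = U ^ 1 := (pow_one _).symm
            _ < U ^ q := Nat.pow_lt_pow_right (by omega) (by omega)
        have h4 : W ≤ W ^ q := Nat.le_self_pow hq.pos.ne' W
        omega
    · set j := y % q with hj
      set y1 := y / q with hy1'
      have hyj : y = q * y1 + j := (Nat.div_add_mod y q).symm
      have hj0 : 0 < j := Nat.pos_of_ne_zero fun h => hqy (Nat.dvd_of_mod_eq_zero h)
      have hjq : j < q := Nat.mod_lt _ hq.pos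
      set p' := A.minFac with hp'
      have hp'p : p'.Prime := Nat.minFac_prime (by omega)
      have hp'A : p' ∣ A := Nat.minFac_dvd A
      have hp'R : p' ≤ R := (Nat.minFac_le hA).trans hAR
      have hp'B : ¬ p' ∣ B := hAB' p' hp'p hp'A
      refine absurd (core (N := N) (R := R) (q := q) (y := x) (p := p') (U := U) (V := B ^ y1)
        (A := B) (i := j) hq hp'p hp'R hB0 hBN (by positivity) hU (hUne' _)
        (fun hd => hUA p' hp'p hd hp'A)
        (fun hd => hp'B (hp'p.dvd_of_dvd_pow hd)) hp'B hj0 hjq ?_ ?_) (not_lt.mpr hcon)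
      · have e1 : (U : ℤ) ^ (2 * q) - ((B ^ y1 : ℕ) : ℤ) ^ (2 * q) * (B : ℤ) ^ (2 * j) =
            ((U : ℤ) ^ q - σ * (B : ℤ) ^ y) * ((U : ℤ) ^ q + σ * (B : ℤ) ^ y) := by
          have e2 : ((B ^ y1 : ℕ) : ℤ) ^ (2 * q) * (B : ℤ) ^ (2 * j) =
              (B : ℤ) ^ y * (B : ℤ) ^ y := by
            rw [hyj]
            push_cast
            ring
          rw [e2]
          linear_combination (((B : ℤ) ^ y) ^ 2) * hσσ
        rw [e1, ← hAdiv]
        apply Dvd.dvd.mul_right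
        have : p' ^ x ∣ A ^ x := pow_dvd_pow_of_dvd hp'A x
        exact_mod_cast this
      · have hU1 : U ^ q ≤ A ^ x + B ^ y := by
          have : (U : ℤ) ^ q ≤ (A : ℤ) ^ x + (B : ℤ) ^ y := by
            have hB1 : (0 : ℤ) ≤ (B : ℤ) ^ y := by positivity
            rcases hσ with rfl | rfl <;> linarith
          exact_mod_cast this
        have hV1 : (B ^ y1) ^ q ≤ B ^ y := by
          rw [← pow_mul]
          exact Nat.pow_le_pow_right hB0 (by rw [hyj, mul_comm]; omega)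
        have hpow : 2 * 2 ^ (ν * x) ≤ 2 ^ (2 * (ν * x) + 1) := by
          calc 2 * 2 ^ (ν * x) = 2 ^ (ν * x + 1) := by rw [pow_succ, mul_comm]
            _ ≤ _ := Nat.pow_le_pow_right (by norm_num) (by omega)
        refine lt_of_lt_of_le ?_ hpow
        rcases max_choice U (B ^ y1) with hc | hc
        · rw [hc]; omega
        · rw [hc]; omega

end Pool.Agent.H374R2.V.QB
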