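import Mathlib

/-!
Task QN (helper96): numerical lemma.
-/

set_option autoImplicit false

namespace Pool.Agent.H374R2.V.QN

theorem q_num : ∃ ν₀ : ℕ, ∀ ν R q : ℕ, ν₀ ≤ ν → 1 ≤ R → R < 2 ^ ν →
    q < 10 ^ 6 * R ^ 2 * (Nat.log 2 q + 1) ^ 2 * ν ^ 2 → q ≤ R ^ 2 * ν ^ 5 := by
  refine ⟨10 ^ 8, ?_⟩
  intro ν R q hν hR hRν hq
  by_contra hcon
  push Not at hcon
  set L := Nat.log 2 q with hL
  by_cases hc : L + 1 ≤ 10 * ν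
  · have h1 : (L + 1) ^ 2 ≤ (10 * ν) ^ 2 := Nat.pow_le_pow_left hc 2
    have h2 : 10 ^ 6 * R ^ 2 * (L + 1) ^ 2 * ν ^ 2 ≤ 10 ^ 6 * R ^ 2 * (10 * ν) ^ 2 * ν ^ 2 := by
      gcongr
    have h3 : 10 ^ 6 * R ^ 2 * (10 * ν) ^ 2 * ν ^ 2 = R ^ 2 * ν ^ 4 * 10 ^ 8 := by ring
    have h4 : R ^ 2 * ν ^ 4 * 10 ^ 8 ≤ R ^ 2 * ν ^ 4 * ν := Nat.mul_le_mul_left _ hν
    have h5 : R ^ 2 * ν ^ 4 * ν = R ^ 2 * ν ^ 5 := by ring
    omega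
  · have hc' : 10 * ν ≤ L := by omega
    have hq0 : q ≠ 0 := by
      intro h
      rw [h] at hL
      simp at hL
      omega
    have hLq : 2 ^ L ≤ q := Nat.pow_log_le_self 2 hq0
    set m := L / 10 with hm
    have hνm : ν ≤ m := by omega
    have hm1 : 10 * m ≤ L := by omega
    have hm2 : L + 1 ≤ 20 * m := by omega
    have h2m : m ≤ 2 ^ m := Nat.lt_two_pow_self.le
    have h1 : L + 1 ≤ 2 ^ (m + 5) := by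
      rw [pow_add]
      calc L + 1 ≤ 20 * m := hm2
        _ ≤ 2 ^ m * 2 ^ 5 := by omega
    have h2 : R ^ 2 ≤ (2 ^ m) ^ 2 := by
      apply Nat.pow_le_pow_left
      exact hRν.le.trans (Nat.pow_le_pow_right (by norm_num) hνm)
    have h3 : ν ^ 2 ≤ (2 ^ m) ^ 2 := Nat.pow_le_pow_left (hνm.trans h2m) 2
    have h4 : (L + 1) ^ 2 ≤ (2 ^ (m + 5)) ^ 2 := Nat.pow_le_pow_left h1 2
    have h5 : 10 ^ 6 * R ^ 2 * (L + 1) ^ 2 * ν ^ 2 ≤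
        2 ^ 20 * (2 ^ m) ^ 2 * (2 ^ (m + 5)) ^ 2 * (2 ^ m) ^ 2 := by
      have h6 : 10 ^ 6 ≤ 2 ^ 20 := by norm_num
      exact Nat.mul_le_mul (Nat.mul_le_mul (Nat.mul_le_mul h6 h2) h4) h3
    have h6 : 2 ^ 20 * (2 ^ m) ^ 2 * (2 ^ (m + 5)) ^ 2 * (2 ^ m) ^ 2 = 2 ^ (6 * m + 30) := by
      rw [← pow_mul, ← pow_mul, ← pow_add, ← pow_add, ← pow_add]
      congr 1
      ring
    have h7 : 2 ^ (6 * m + 30) ≤ 2 ^ L := Nat.pow_le_pow_right (by norm_num) (by omega)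
    omega

end Pool.Agent.H374R2.V.QN
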