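import Mathlib
import Pool.Agent.H374R2.GcE
import Pool.Agent.H374R2.FcD
import Pool.Agent.H374R2.T.TaskD1
import Pool.Agent.H374R2.T.TaskD2
import Pool.Agent.H374R2.V.CV
import Pool.Agent.H374R2.V.QB
import Pool.Agent.H374R2.V.QN

/-!
Assembly: for almost all `B ≤ N` and every `A ≤ N ^ δ` coprime to `B` no number `A^x + B^y` or
`|A^x - B^y|` with `x, y ≥ 1` is a `z`-th power with `z ≥ 3`.
-/

namespace Pool.Agent.H374R2.V

open Finset Filter Topology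

/-- Typical integers. -/
structure Typ (N m D P₀ B : ℕ) : Prop where
  rough : ∃ d, 0 < d ∧ d ∣ B ∧ d ≤ D ∧ (∀ p : ℕ, p.Prime → p ∣ d → Fc.yy N m < p) ∧
    N ^ 99 ≤ d ^ 100
  three : ∃ p, p ≤ P₀ ∧ p.Prime ∧ p % 4 = 3 ∧ p ∣ B
  np : ¬ ∃ w k : ℕ, 2 ≤ k ∧ B = w ^ k

/-- The integers `B` in a solution with `A ≤ R` and a prime power exponent `q ≤ Q`. -/
def BadV (N m Q R D : ℕ) : Set ℕ :=
  {B | ∃ (A q i d : ℕ) (s σ : ℤ), 0 < A ∧ A ≤ R ∧ IsPrimePow q ∧ 3 ≤ q ∧ q ≤ Q ∧ i < q ∧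
    (s = 1 ∨ s = -1) ∧ (σ = 1 ∨ σ = -1) ∧ 0 < d ∧ d ≤ D ∧ d ≤ N ∧
    (∀ p : ℕ, p.Prime → p ∣ d → Fc.yy N m < p) ∧ N ^ 99 ≤ d ^ 100 ∧ B ∈ SolV N q i d A s σ}

/-- A covering bound. -/
theorem ncard_le_of_cover {ι : Type*} {K : ℕ} (J : Finset ι) (S : ι → Set ℕ)
    (hS : ∀ j ∈ J, (S j).Finite ∧ (S j).ncard ≤ K) (P : Set ℕ) (hP : ∀ b ∈ P, ∃ j ∈ J, b ∈ S j) :
    P.Finite ∧ P.ncard ≤ J.card * K := by
  classical
  let F : ι → Finset ℕ := fun j => if h : (S j).Finite then h.toFinset else ∅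
  have hF : ∀ j ∈ J, (F j).card ≤ K := by
    intro j hj
    simp only [F]
    rw [dif_pos (hS j hj).1, ← Set.ncard_eq_toFinset_card _ (hS j hj).1]
    exact (hS j hj).2
  have hsub : P ⊆ ((J.biUnion F : Finset ℕ) : Set ℕ) := by
    intro b hb
    obtain ⟨j, hj, hbj⟩ := hP b hb
    rw [Finset.mem_coe, Finset.mem_biUnion]
    refine ⟨j, hj, ?_⟩
    simp only [F]
    rw [dif_pos (hS j hj).1, Set.Finite.mem_toFinset]
    exact hbj
  refine ⟨(Finset.finite_toSet _).subset hsub, ?_⟩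
  calc P.ncard ≤ ((J.biUnion F : Finset ℕ) : Set ℕ).ncard :=
        Set.ncard_le_ncard hsub (Finset.finite_toSet _)
    _ = (J.biUnion F).card := Set.ncard_coe_finset _
    _ ≤ ∑ j ∈ J, (F j).card := Finset.card_biUnion_le
    _ ≤ ∑ _j ∈ J, K := Finset.sum_le_sum hF
    _ = J.card * K := by rw [Finset.sum_const, smul_eq_mul]

theorem badV_card {N m Q R D : ℕ} (hm : 0 < m) (hN0 : 0 < N) (hN : (10000 * Q ^ 2) ^ 102 ≤ N)
    (hQ : Q ≤ Fc.yy N m) :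
    (BadV N m Q R D).Finite ∧
      (BadV N m Q R D).ncard ≤ (R * ((Q + 1) * ((Q + 1) * (D * 4)))) * (250 * Q ^ m) := by
  classical
  set J : Finset (ℕ × ℕ × ℕ × ℕ × ℤ × ℤ) := (Finset.Icc 1 R ×ˢ Finset.range (Q + 1) ×ˢ
    Finset.range (Q + 1) ×ˢ Finset.Icc 1 D ×ˢ ({1, -1} : Finset ℤ) ×ˢ
      ({1, -1} : Finset ℤ)).filter (fun j => IsPrimePow j.2.1 ∧ 3 ≤ j.2.1 ∧
      j.2.2.2.1 ≤ N ∧ (∀ p : ℕ, p.Prime → p ∣ j.2.2.2.1 → Fc.yy N m < p) ∧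
      N ^ 99 ≤ j.2.2.2.1 ^ 100) with hJ
  have hJc : J.card ≤ R * ((Q + 1) * ((Q + 1) * (D * 4))) := by
    refine (Finset.card_filter_le _ _).trans (le_of_eq ?_)
    rw [Finset.card_product, Finset.card_product, Finset.card_product, Finset.card_product,
      Finset.card_product, Finset.card_range, Nat.card_Icc, Nat.card_Icc, Nat.add_sub_cancel,
      Nat.add_sub_cancel]
    congr 1
  have h := ncard_le_of_cover (K := 250 * Q ^ m) J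
    (fun j => SolV N j.2.1 j.2.2.1 j.2.2.2.1 j.1 j.2.2.2.2.1 j.2.2.2.2.2) (by
      rintro ⟨A, q, i, d, s, σ⟩ hj
      rw [hJ, Finset.mem_filter] at hj
      obtain ⟨hj1, hq, hq3, hdN, hdp, hd⟩ := hj
      simp only [Finset.mem_product, Finset.mem_range, Finset.mem_Icc, Finset.mem_insert,
        Finset.mem_singleton] at hj1
      simp only at hq hq3 hdN hdp hd
      obtain ⟨⟨hA0, hAR⟩, hqQ', hi, ⟨hd0, hdD⟩, hs, hσ⟩ := hj1
      have hqQ : q ≤ Q := by omega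
      have hqN : (10000 * q ^ 2) ^ 102 ≤ N :=
        (Nat.pow_le_pow_left (Nat.mul_le_mul_left _ (Nat.pow_le_pow_left hqQ 2)) 102).trans hN
      have hq0 : 0 < q := by omega
      have hqd : Nat.Coprime q d := by
        apply Nat.coprime_of_dvd
        intro p hp h2 h3
        have h4 := hdp p hp h3
        have h5 := Nat.le_of_dvd hq0 h2
        omega
      have h1 := CV.solV_card (N := N) (i := i) (A := A) hs hσ hq hq3 hqN hd hd0 hqd hA0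
      refine ⟨h1.1, h1.2.trans ?_⟩
      apply Nat.mul_le_mul_left
      calc q ^ d.primeFactors.card ≤ q ^ m :=
              Nat.pow_le_pow_right hq0 (Fc.primeFactors_card_le hm hN0 hd0 hdN hdp)
          _ ≤ Q ^ m := Nat.pow_le_pow_left hqQ m)
    (BadV N m Q R D) (by
      rintro B ⟨A, q, i, d, s, σ, hA0, hAR, hq, hq3, hqQ, hiq, hs, hσ, hd0, hdD, hdN, hdp, hd, hsol⟩
      refine ⟨(A, q, i, d, s, σ), ?_, hsol⟩
      rw [hJ, Finset.mem_filter]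
      refine ⟨?_, hq, hq3, hdN, hdp, hd⟩
      simp only [Finset.mem_product, Finset.mem_range, Finset.mem_Icc, Finset.mem_insert,
        Finset.mem_singleton]
      exact ⟨⟨hA0, hAR⟩, by omega, by omega, ⟨hd0, hdD⟩, hs, hσ⟩)
  exact ⟨h.1, h.2.trans (Nat.mul_le_mul_right _ hJc)⟩

/-- An exponent `z ≥ 3` is divisible by `4` or by an odd prime. -/
theorem exists_q {z C : ℕ} (hz : 3 ≤ z) (hC : 0 < C) : ∃ q U : ℕ, IsPrimePow q ∧ 3 ≤ q ∧ 0 < U ∧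
    U ^ q = C ^ z ∧ (q ≤ 4 ∨ (q.Prime ∧ 2 ≤ U)) := by
  rcases Nat.lt_or_ge C 2 with hC1 | hC2
  · have : C = 1 := by omega
    subst this
    exact ⟨3, 1, Nat.prime_three.isPrimePow, le_rfl, one_pos, by simp, Or.inl (by norm_num)⟩
  rcases Nat.eq_two_pow_or_exists_odd_prime_and_dvd z with ⟨k, hk⟩ | ⟨q, hq, hqz, hodd⟩
  · have hk2 : 2 ≤ k := by
      by_contra hcon
      have : k = 0 ∨ k = 1 := by omega
      rcases this with h | h <;> subst h <;> omega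
    have h4 : 4 ∣ z := by
      rw [hk]
      exact (pow_dvd_pow 2 hk2 : (2 : ℕ) ^ 2 ∣ 2 ^ k)
    refine ⟨4, C ^ (z / 4), ?_, by norm_num, by positivity, ?_, Or.inl le_rfl⟩
    · rw [isPrimePow_nat_iff]
      exact ⟨2, 2, Nat.prime_two, by norm_num, by norm_num⟩
    · rw [← pow_mul, Nat.div_mul_cancel h4]
  · have hq3 : 3 ≤ q := by
      have := hq.two_le
      rcases Nat.lt_or_ge q 3 with h | h
      · have : q = 2 := by omega
        subst this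
        exact absurd hodd (by decide)
      · exact h
    have hzq : 0 < z / q := Nat.div_pos (Nat.le_of_dvd (by omega) hqz) hq.pos
    refine ⟨q, C ^ (z / q), hq.isPrimePow, hq3, by positivity, ?_, Or.inr ⟨hq, ?_⟩⟩
    · rw [← pow_mul, Nat.div_mul_cancel hqz]
    · calc 2 = 2 ^ 1 := by norm_num
        _ ≤ C ^ 1 := Nat.pow_le_pow_left hC2 1
        _ ≤ C ^ (z / q) := Nat.pow_le_pow_right hC hzq

/-- Solutions with typical `B` are in `BadV`. -/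
theorem mem_badV {N m D P₀ Q R A B x y z C : ℕ}
    (hQ : ∀ q : ℕ, q < 10 ^ 6 * R ^ 2 * (Nat.log 2 q + 1) ^ 2 * (Nat.log 2 N + 1) ^ 2 → q ≤ Q)
    (hQ4 : 4 ≤ Q) (hRN : R ≤ N) (hPR : P₀ ≤ R) (hA0 : 0 < A) (hAR : A ≤ R) (hB0 : 0 < B)
    (hBN : B ≤ N) (hAB : Nat.Coprime A B) (hB : Typ N m D P₀ B) (hx : 0 < x) (hy : 0 < y)
    (hz : 3 ≤ z) (hC : 0 < C)
    (h : A ^ x + B ^ y = C ^ z ∨ A ^ x + C ^ z = B ^ y ∨ B ^ y + C ^ z = A ^ x) :
    B ∈ BadV N m Q R D := by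
  obtain ⟨d, hd0, hdB, hdD, hdp, hd⟩ := hB.rough
  obtain ⟨p, hpP, hp, hp3, hpB⟩ := hB.three
  obtain ⟨q, U, hqp, hq3, hU0, hUq, hqU⟩ := exists_q hz hC
  obtain ⟨x₂, hx2, hAx, hx1⟩ : ∃ x₂ : ℕ, 0 < x₂ ∧ A ^ x₂ = A ^ x ∧ (A = 1 → q ∣ x₂) := by
    by_cases h1 : A = 1
    · exact ⟨q, by omega, by rw [h1]; simp, fun _ => dvd_rfl⟩
    · exact ⟨x, hx, rfl, fun h2 => absurd h2 h1⟩
  obtain ⟨s, σ, hs, hσ, heq⟩ : ∃ s σ : ℤ, (s = 1 ∨ s = -1) ∧ (σ = 1 ∨ σ = -1) ∧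
      (U : ℤ) ^ q - s * (A : ℤ) ^ x₂ = σ * (B : ℤ) ^ y := by
    have e1 : (U : ℤ) ^ q = (C : ℤ) ^ z := by exact_mod_cast hUq
    have e2 : (A : ℤ) ^ x₂ = (A : ℤ) ^ x := by exact_mod_cast hAx
    rw [e1, e2]
    rcases h with h | h | h
    · have h' : (A : ℤ) ^ x + (B : ℤ) ^ y = (C : ℤ) ^ z := by exact_mod_cast h
      exact ⟨1, 1, Or.inl rfl, Or.inl rfl, by rw [← h']; ring⟩
    · have h' : (A : ℤ) ^ x + (C : ℤ) ^ z = (B : ℤ) ^ y := by exact_mod_cast h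
      exact ⟨-1, 1, Or.inr rfl, Or.inl rfl, by rw [← h']; ring⟩
    · have h' : (B : ℤ) ^ y + (C : ℤ) ^ z = (A : ℤ) ^ x := by exact_mod_cast h
      exact ⟨1, -1, Or.inl rfl, Or.inr rfl, by rw [← h']; ring⟩
  have hqQ : q ≤ Q := by
    rcases hqU with h4 | ⟨hqprime, hU2⟩
    · omega
    · apply hQ
      have hp3' : 3 ≤ p := by
        have := hp.two_le
        rcases Nat.lt_or_ge p 3 with h | h
        · have : p = 2 := by omega
          subst this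
          norm_num at hp3
        · exact h
      exact QB.q_bound hs hσ hqprime hq3 hA0 hAR hRN hAB hB0 hBN hx2 hx1 hy hU2 hp hp3'
        (hpP.trans hPR) hpB heq
  have hx2q : q * (x₂ / q) + x₂ % q = x₂ := Nat.div_add_mod x₂ q
  refine ⟨A, q, x₂ % q, d, s, σ, hA0, hAR, hqp, hq3, hqQ, Nat.mod_lt _ (by omega), hs, hσ, hd0, hdD,
    (Nat.le_of_dvd hB0 hdB).trans hBN, hdp, hd, hB0, hBN, hdB, hAB, hB.np, x₂ / q, y, U, hy, hU0, ?_⟩
  rw [hx2q]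
  exact heq

/-- The set of `B ≤ N` occurring in a solution with some `A ≤ N ^ δ`. -/
def AllV (N : ℕ) (δ : ℝ) : Set ℕ :=
  {B : ℕ | 0 < B ∧ B ≤ N ∧ ∃ A x y z C : ℕ, 0 < A ∧ (A : ℝ) ≤ (N : ℝ) ^ δ ∧ Nat.Coprime A B ∧
    0 < x ∧ 0 < y ∧ 3 ≤ z ∧ 0 < C ∧
    (A ^ x + B ^ y = C ^ z ∨ A ^ x + C ^ z = B ^ y ∨ B ^ y + C ^ z = A ^ x)}

theorem main : ∀ ε : ℝ, 0 < ε → ∃ δ : ℝ, 0 < δ ∧ ∃ N₀ : ℕ, ∀ N : ℕ, N₀ ≤ N →
    ((AllV N δ).ncard : ℝ) ≤ ε * N := by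
  intro ε hε
  obtain ⟨m, hm, δ, hδ, N₁, hN₁⟩ := T.TaskD1.rough_divisor (ε := ε / 8) (η := 1 / 100) (by positivity)
    (by norm_num)
  obtain ⟨P₀, N₂, hN₂⟩ := Gc.three_prime (ε := ε / 8) (by positivity)
  obtain ⟨N₃, hN₃⟩ := T.TaskD2.perfect_powers (ε := ε / 8) (by positivity)
  obtain ⟨ν₀, hν₀⟩ := QN.q_num
  have hmR : (0 : ℝ) < m := by exact_mod_cast hm
  have hm1 : (1 : ℝ) ≤ m := by exact_mod_cast hm
  -- the exponent
  set c : ℝ := min (δ / (2 * (3 * m + 8))) (min (1 / (10 * m)) (1 / 2000)) with hc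
  have hc0 : 0 < c := by
    rw [hc]
    refine lt_min (by positivity) (lt_min (by positivity) (by norm_num))
  have hc1 : c * (3 * m + 8) ≤ δ / 2 := by
    have h1 : c ≤ δ / (2 * (3 * m + 8)) := min_le_left _ _
    calc c * (3 * m + 8) ≤ δ / (2 * (3 * m + 8)) * (3 * m + 8) := by gcongr
      _ = δ / 2 := by field_simp
  have hc2 : 3 * c ≤ 1 / m := by
    have h1 : c ≤ 1 / (10 * m) := (min_le_right _ _).trans (min_le_left _ _)
    calc 3 * c ≤ 3 * (1 / (10 * m)) := by gcongr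
      _ = (3 / 10) * (1 / m) := by field_simp
      _ ≤ 1 * (1 / m) := by gcongr; norm_num
      _ = 1 / m := one_mul _
  have hc3 : c ≤ 1 / 2000 := (min_le_right _ _).trans (min_le_right _ _)
  refine ⟨c, hc0, ?_⟩
  have e1 := Gc.log_pow_le (k := 5) hc0 (show (0 : ℝ) < 243 by norm_num)
  have e2 := Gc.log_pow_le (k := 0) (show (0 : ℝ) < 1 / 2 by norm_num)
    (show (0 : ℝ) < (10000 : ℝ) ^ 102 by positivity)
  have e3 := Gc.log_pow_le (k := 0) (show (0 : ℝ) < δ / 2 by positivity)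
    (show (0 : ℝ) < 32000 / ε by positivity)
  have e4 := Gc.log_pow_le (k := 0) hc0 (show (0 : ℝ) < (P₀ : ℝ) + 4 by positivity)
  obtain ⟨N₆, hN₆⟩ := eventually_atTop.mp ((((e1.and e2).and e3).and e4).and
    ((Gc.tendsto_log_nat.eventually (eventually_ge_atTop (max 1 (ν₀ : ℝ)))).and
      (eventually_ge_atTop 2)))
  refine ⟨max N₁ (max N₂ (max N₃ N₆)), fun N hN => ?_⟩
  simp only [max_le_iff] at hN
  obtain ⟨g1, g2, g3, g6⟩ := hN
  obtain ⟨⟨⟨⟨b1, b2⟩, b3⟩, b4⟩, b5, b6⟩ := hN₆ N g6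
  rw [pow_zero, mul_one] at b2 b3 b4
  have hNpos : 0 < N := by omega
  have hNR : (0 : ℝ) < N := by exact_mod_cast hNpos
  have hN1 : (1 : ℝ) ≤ N := by exact_mod_cast hNpos
  set L := Real.log N with hL
  have hL1 : 1 ≤ L := (le_max_left _ _).trans b5
  have hLν : (ν₀ : ℝ) ≤ L := (le_max_right _ _).trans b5
  set ν : ℕ := Nat.log 2 N + 1 with hν
  have hνL : (ν : ℝ) ≤ 3 * L := by
    have e1 : (2 : ℝ) ^ (Nat.log 2 N) ≤ N := by exact_mod_cast Nat.pow_log_le_self 2 (by omega)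
    have e2 := Real.log_le_log (by positivity) e1
    rw [Real.log_pow, ← hL] at e2
    have e3 := Real.log_two_gt_d9
    have e4 : (Nat.log 2 N : ℝ) * (1 / 2) ≤ Nat.log 2 N * Real.log 2 := by
      apply mul_le_mul_of_nonneg_left _ (by positivity)
      linarith
    rw [hν]
    push_cast
    linarith
  have hNν : N < 2 ^ ν := Nat.lt_pow_succ_log_self (by norm_num) N
  have hLν' : L ≤ ν := by
    have e2 : (N : ℝ) < 2 ^ ν := by exact_mod_cast hNν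
    have e3 := Real.log_lt_log hNR e2
    rw [Real.log_pow, ← hL] at e3
    have e4 : Real.log 2 ≤ 1 := by have := Real.log_two_lt_d9; linarith
    calc L ≤ ν * Real.log 2 := e3.le
      _ ≤ ν * 1 := by gcongr
      _ = _ := by ring
  have hνν : ν₀ ≤ ν := by exact_mod_cast hLν.trans hLν'
  -- parameters
  set R : ℕ := ⌊(N : ℝ) ^ c⌋₊ with hR
  have hRle : (R : ℝ) ≤ (N : ℝ) ^ c := Nat.floor_le (Real.rpow_nonneg hNR.le _)
  have hPR : P₀ + 4 ≤ R := by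
    rw [hR]
    apply Nat.le_floor
    push_cast
    exact b4
  have hR1 : 1 ≤ R := by omega
  have hRN : R ≤ N := by
    have : (R : ℝ) ≤ N := by
      calc (R : ℝ) ≤ (N : ℝ) ^ c := hRle
        _ ≤ (N : ℝ) ^ (1 : ℝ) := Real.rpow_le_rpow_of_exponent_le hN1 (by linarith)
        _ = N := Real.rpow_one _
    exact_mod_cast this
  set Q : ℕ := R ^ 2 * ν ^ 5 with hQ
  have hν1 : 1 ≤ ν := by omega
  have hQbd : ∀ q : ℕ, q < 10 ^ 6 * R ^ 2 * (Nat.log 2 q + 1) ^ 2 * (Nat.log 2 N + 1) ^ 2 →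
      q ≤ Q := fun q hq => hν₀ ν R q hνν hR1 (hRN.trans_lt hNν) hq
  have hQ4 : 4 ≤ Q := by
    calc 4 ≤ R := by omega
      _ = R ^ 1 * 1 := by ring
      _ ≤ R ^ 2 * ν ^ 5 := Nat.mul_le_mul (Nat.pow_le_pow_right hR1 (by norm_num))
          (Nat.one_le_pow _ _ hν1)
  have hQle : (Q : ℝ) ≤ (N : ℝ) ^ (3 * c) := by
    rw [hQ]
    push_cast
    calc (R : ℝ) ^ 2 * (ν : ℝ) ^ 5 ≤ ((N : ℝ) ^ c) ^ 2 * (3 * L) ^ 5 := by gcongr
      _ = ((N : ℝ) ^ c) ^ 2 * (243 * L ^ 5) := by ring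
      _ ≤ ((N : ℝ) ^ c) ^ 2 * (N : ℝ) ^ c := by gcongr
      _ = ((N : ℝ) ^ c) ^ 3 := by ring
      _ = (N : ℝ) ^ (3 * c) := by
          rw [← Real.rpow_natCast, ← Real.rpow_mul hNR.le]
          congr 1
          push_cast
          ring
  have hQyy : Q ≤ Fc.yy N m := by
    unfold Fc.yy
    apply Nat.le_floor
    exact hQle.trans (Real.rpow_le_rpow_of_exponent_le hN1 hc2)
  have hQN : (10000 * Q ^ 2) ^ 102 ≤ N := by
    have : ((10000 * (Q : ℝ) ^ 2) ^ 102) ≤ N := by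
      calc (10000 * (Q : ℝ) ^ 2) ^ 102 ≤ (10000 * ((N : ℝ) ^ (3 * c)) ^ 2) ^ 102 := by gcongr
        _ = 10000 ^ 102 * ((N : ℝ) ^ (3 * c)) ^ 204 := by
            rw [mul_pow, ← pow_mul]
        _ = 10000 ^ 102 * (N : ℝ) ^ (612 * c) := by
            rw [← Real.rpow_natCast _ 204, ← Real.rpow_mul hNR.le]
            congr 2
            push_cast
            ring
        _ ≤ (N : ℝ) ^ ((1 : ℝ) / 2) * (N : ℝ) ^ (612 * c) := by gcongr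
        _ = (N : ℝ) ^ ((1 : ℝ) / 2 + 612 * c) := by rw [← Real.rpow_add hNR]
        _ ≤ (N : ℝ) ^ (1 : ℝ) := Real.rpow_le_rpow_of_exponent_le hN1 (by linarith)
        _ = N := Real.rpow_one _
    exact_mod_cast this
  set D : ℕ := ⌊(N : ℝ) ^ (1 - δ)⌋₊ with hD
  have hDle : (D : ℝ) ≤ (N : ℝ) ^ (1 - δ) := Nat.floor_le (Real.rpow_nonneg hNR.le _)
  -- the pieces
  have k1 := hN₁ N g1
  have k2 := hN₂ N g2
  have k3 := hN₃ N g3
  obtain ⟨hBadfin, k6⟩ := badV_card (N := N) (m := m) (Q := Q) (R := R) (D := D) hm hNpos hQN hQyy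
  set S : Set ℕ := {B | 0 < B ∧ B ≤ N ∧ ¬ Typ N m D P₀ B} with hS
  have hSfin : S.Finite := (Set.finite_Icc 0 N).subset (fun B hB => ⟨Nat.zero_le _, hB.2.1⟩)
  set T1 : Set ℕ := {B : ℕ | 0 < B ∧ B ≤ N ∧ ¬ ∃ d : ℕ, 0 < d ∧ d ∣ B ∧
        (∀ p : ℕ, p.Prime → p ∣ d → Fc.yy N m < p) ∧ (N : ℝ) ^ (1 - 1 / 100 : ℝ) ≤ d ∧
        (d : ℝ) ≤ (N : ℝ) ^ (1 - δ)} with hT1
  set T2 : Set ℕ := {B : ℕ | 0 < B ∧ B ≤ N ∧ ∀ p : ℕ, p ≤ P₀ → p.Prime → p % 4 = 3 → ¬ p ∣ B} with hT2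
  set T3 : Set ℕ := {B : ℕ | 0 < B ∧ B ≤ N ∧ ∃ w k : ℕ, 2 ≤ k ∧ B = w ^ k} with hT3
  have hSsub : S ⊆ T1 ∪ (T2 ∪ T3) := by
    rintro B ⟨hB0, hBN, hB⟩
    by_contra hcon
    simp only [Set.mem_union, not_or] at hcon
    obtain ⟨c1, c2, c3⟩ := hcon
    apply hB
    refine ⟨?_, ?_, ?_⟩
    · have hr : ∃ d : ℕ, 0 < d ∧ d ∣ B ∧
        (∀ p : ℕ, p.Prime → p ∣ d → Fc.yy N m < p) ∧ (N : ℝ) ^ (1 - 1 / 100 : ℝ) ≤ d ∧
        (d : ℝ) ≤ (N : ℝ) ^ (1 - δ) := by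
        by_contra hn
        exact c1 ⟨hB0, hBN, hn⟩
      obtain ⟨d, hd0, hdB, hdp, hd1, hd2⟩ := hr
      refine ⟨d, hd0, hdB, Nat.le_floor hd2, hdp, ?_⟩
      have h1 : ((N : ℝ) ^ (1 - 1 / 100 : ℝ)) ^ 100 = (N : ℝ) ^ 99 := by
        rw [← Real.rpow_natCast, ← Real.rpow_mul hNR.le, ← Real.rpow_natCast]
        congr 1
        norm_num
      have h2 : (N : ℝ) ^ 99 ≤ (d : ℝ) ^ 100 := by
        rw [← h1]
        exact pow_le_pow_left₀ (Real.rpow_nonneg hNR.le _) hd1 100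
      exact_mod_cast h2
    · by_contra hn
      apply c2
      refine ⟨hB0, hBN, fun p hp hpp hp2 hpB => hn ⟨p, hp, hpp, hp2, hpB⟩⟩
    · intro hn
      exact c3 ⟨hB0, hBN, hn⟩
  have hTfin : (T1 ∪ (T2 ∪ T3)).Finite := by
    apply (Set.finite_Icc 0 N).subset
    intro B hB
    rcases hB with h | h | h <;> exact ⟨Nat.zero_le _, h.2.1⟩
  have hScard : (S.ncard : ℝ) ≤ (3 * ε / 8) * N := by
    have h1 := Set.ncard_le_ncard hSsub hTfin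
    have h2 := Set.ncard_union_le T1 (T2 ∪ T3)
    have h3 := Set.ncard_union_le T2 T3
    have h6 : S.ncard ≤ T1.ncard + (T2.ncard + T3.ncard) := by omega
    have h7 : (S.ncard : ℝ) ≤ T1.ncard + (T2.ncard + T3.ncard) := by exact_mod_cast h6
    linarith
  -- the count
  have k6R : ((BadV N m Q R D).ncard : ℝ) ≤ ε / 8 * N := by
    have h1 : ((BadV N m Q R D).ncard : ℝ) ≤
        ((R : ℝ) * (((Q : ℝ) + 1) * (((Q : ℝ) + 1) * (D * 4)))) * (250 * (Q : ℝ) ^ m) := by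
      exact_mod_cast k6
    have hX1 : (1 : ℝ) ≤ (N : ℝ) ^ (3 * c) := Real.one_le_rpow hN1 (by positivity)
    have hQ1 : (Q : ℝ) + 1 ≤ 2 * (N : ℝ) ^ (3 * c) := by linarith
    have hpow : (N : ℝ) ^ c * (((N : ℝ) ^ (3 * c)) ^ 2 * ((N : ℝ) ^ (3 * c)) ^ m) ≤
        (N : ℝ) ^ (δ / 2) := by
      rw [← Real.rpow_natCast _ 2, ← Real.rpow_natCast _ m, ← Real.rpow_mul hNR.le,
        ← Real.rpow_mul hNR.le, ← Real.rpow_add hNR, ← Real.rpow_add hNR]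
      apply Real.rpow_le_rpow_of_exponent_le hN1
      push_cast
      nlinarith
    calc ((BadV N m Q R D).ncard : ℝ) ≤ _ := h1
      _ ≤ ((N : ℝ) ^ c * ((2 * (N : ℝ) ^ (3 * c)) * ((2 * (N : ℝ) ^ (3 * c)) *
            ((N : ℝ) ^ (1 - δ) * 4)))) * (250 * ((N : ℝ) ^ (3 * c)) ^ m) := by gcongr
      _ = 4000 * (((N : ℝ) ^ c * (((N : ℝ) ^ (3 * c)) ^ 2 * ((N : ℝ) ^ (3 * c)) ^ m)) *
            (N : ℝ) ^ (1 - δ)) := by ring
      _ ≤ 4000 * ((N : ℝ) ^ (δ / 2) * (N : ℝ) ^ (1 - δ)) := by gcongr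
      _ = (ε / 8) * ((32000 / ε) * ((N : ℝ) ^ (δ / 2) * (N : ℝ) ^ (1 - δ))) := by
          field_simp
          ring
      _ ≤ (ε / 8) * ((N : ℝ) ^ (δ / 2) * ((N : ℝ) ^ (δ / 2) * (N : ℝ) ^ (1 - δ))) := by gcongr
      _ = ε / 8 * N := by
          rw [← Real.rpow_add hNR, ← Real.rpow_add hNR]
          have : δ / 2 + (δ / 2 + (1 - δ)) = 1 := by ring
          rw [this, Real.rpow_one]
  have hsub : AllV N c ⊆ S ∪ BadV N m Q R D := by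
    rintro B ⟨hB0, hBN, A, x, y, z, C, hA0, hAc, hAB, hx, hy, hz, hC, h⟩
    by_cases hB : Typ N m D P₀ B
    · right
      exact mem_badV hQbd hQ4 hRN (by omega) hA0 (Nat.le_floor hAc) hB0 hBN hAB hB hx hy hz hC h
    · left
      exact ⟨hB0, hBN, hB⟩
  have h1 := Set.ncard_le_ncard hsub (hSfin.union hBadfin)
  have h2 := Set.ncard_union_le S (BadV N m Q R D)
  have h3 : ((AllV N c).ncard : ℝ) ≤ S.ncard + (BadV N m Q R D).ncard := by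
    exact_mod_cast h1.trans h2
  have h4 : 0 ≤ ε * N := by positivity
  linarith

end Pool.Agent.H374R2.V
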