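import Mathlib
import Pool.Agent.H374R2.V.DefsZ

/-!
Task ZC: the number of elements of `S2 N K`, from the statements of ZF1, ZF2, ZY1, ZY2, ZN.
-/

namespace Pool.Agent.H374R2.V.ZC0

/-- The value of `t ^ y` for the eight kinds of equations. -/
def vv (c α k y w : ℕ) : ℕ :=
  if c = 0 then 2 * α ^ k + w ^ y
  else if c = 1 then 2 * α ^ k - w ^ y
  else if c = 2 then 4 * α ^ k + 4 * w ^ y
  else if c = 3 then 4 * w ^ y - 4 * α ^ k
  else if c = 4 then 4 * α ^ k - 4 * w ^ y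
  else if c = 5 then (w ^ y - 4 * α ^ k) / 4
  else if c = 6 then (w ^ y + 4 * α ^ k) / 4
  else (4 * α ^ k - w ^ y) / 4

/-- The relation between an index and an integer `B`. -/
def RR (j : ℕ × ℕ × ℕ × ℕ × ℕ) (B : ℕ) : Prop :=
  0 < j.2.1 ∧ ∃ t : ℕ, B = j.2.2.2.1 * t ∧ t ^ j.2.1 = vv j.2.2.2.2 j.1 j.2.2.1 j.2.1 j.2.2.2.1

theorem RR_unique {j : ℕ × ℕ × ℕ × ℕ × ℕ} {B B' : ℕ} (h : RR j B) (h' : RR j B') : B = B' := by
  obtain ⟨hy, t, rfl, ht⟩ := h
  obtain ⟨_, t', rfl, ht'⟩ := h'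
  have : t = t' := Nat.pow_left_injective (by omega : j.2.1 ≠ 0) (ht.trans ht'.symm)
  rw [this]

theorem ncard_le_of_rel {ι : Type*} (J : Finset ι) (S : Set ℕ) (R : ι → ℕ → Prop)
    (hu : ∀ j B B', R j B → R j B' → B = B') (hc : ∀ B ∈ S, ∃ j ∈ J, R j B) :
    S.ncard ≤ J.card := by
  classical
  rcases S.eq_empty_or_nonempty with h0 | ⟨B₀, hB₀⟩
  · simp [h0]
  obtain ⟨j₀, -⟩ := hc B₀ hB₀
  have : Nonempty ι := ⟨j₀⟩
  choose! f hf using hc
  have := Set.ncard_le_ncard_of_injOn (s := S) (t := (J : Set ι)) f (fun B hB => (hf B hB).1)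
    (fun B hB B' hB' e => hu (f B) B B' (hf B hB).2 (by rw [e]; exact (hf B' hB').2))
    J.finite_toSet
  rwa [Set.ncard_coe_finset] at this

theorem k_bound {α k y N ν : ℕ} (hα : 2 ≤ α) (hy : 0 < y) (hN : N < 2 ^ ν)
    (hyν : y ≤ ν ^ 2) (h : α ^ k ≤ 2 * N ^ y) : k ≤ ν ^ 3 := by
  have h1 : 2 ^ k ≤ α ^ k := Nat.pow_le_pow_left hα k
  have h2 : N ^ y < (2 ^ ν) ^ y := Nat.pow_lt_pow_left hN (by omega)
  have h3 : 2 ^ k < 2 ^ (ν * y + 1) := by
    rw [pow_succ, pow_mul]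
    omega
  have h4 : k < ν * y + 1 := (Nat.pow_lt_pow_iff_right (by norm_num)).1 h3
  have h5 : ν * y ≤ ν * ν ^ 2 := Nat.mul_le_mul_left _ hyν
  have h6 : ν ^ 3 = ν * ν ^ 2 := by ring
  omega

theorem S2_card_of
    (factor_odd : ∀ {α k y B C : ℕ} (_ : 2 ≤ α) (_ : 0 < k) (_ : 0 < y) (_ : 2 ≤ B)
      (_ : Odd B) (_ : Nat.Coprime α B)
      (_ : α ^ (2 * k) + B ^ y = C ^ 2 ∨ B ^ y + C ^ 2 = α ^ (2 * k)),
      ∃ r S : ℕ, r * S = B ∧ 0 < r ∧ r < S ∧
        (S ^ y = 2 * α ^ k + r ^ y ∨ S ^ y + r ^ y = 2 * α ^ k))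
    (factor_even : ∀ {α k y B C : ℕ} (_ : 2 ≤ α) (_ : 0 < k) (_ : 0 < y) (_ : 2 ≤ B)
      (_ : Even B) (_ : Nat.Coprime α B)
      (_ : α ^ (2 * k) + B ^ y = C ^ 2 ∨ B ^ y + C ^ 2 = α ^ (2 * k)),
      ∃ r S : ℕ, r * S = B ∧ 0 < r ∧ Odd r ∧ 0 < S ∧ Even S ∧
        (S ^ y = 4 * α ^ k + 4 * r ^ y ∨ S ^ y + 4 * α ^ k = 4 * r ^ y ∨
          S ^ y + 4 * r ^ y = 4 * α ^ k))
    (y_odd : ∀ {α k y r S N K : ℕ} (_ : 2 ≤ α) (_ : α ≤ K) (_ : 0 < y) (_ : 0 < r)
      (_ : r < S) (_ : S ≤ N) (_ : Nat.Coprime α r) (_ : Nat.Coprime α S)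
      (_ : S ^ y = 2 * α ^ k + r ^ y ∨ S ^ y + r ^ y = 2 * α ^ k),
      k ≤ 2 * K * (Nat.log 2 N + 1) + Nat.log 2 y ∧ y ≤ 2 + K * k)
    (y_even : ∀ {α k y r S N K : ℕ} (_ : 2 ≤ α) (_ : Odd α) (_ : α ≤ K) (_ : 0 < k)
      (_ : 0 < y) (_ : 0 < r) (_ : Odd r) (_ : r ≤ N) (_ : 0 < S) (_ : Even S)
      (_ : S ≤ N) (_ : Nat.Coprime α r)
      (_ : S ^ y = 4 * α ^ k + 4 * r ^ y ∨ S ^ y + 4 * α ^ k = 4 * r ^ y ∨
        S ^ y + 4 * r ^ y = 4 * α ^ k),
      y ≤ 3 + Nat.log 2 y + 600000 * K * (Nat.log 2 y + 1) ^ 2 * (Nat.log 2 N + 2))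
    (y_num : ∀ K : ℕ, ∃ ν₀ : ℕ, ∀ ν y k : ℕ, ν₀ ≤ ν →
      ((y ≤ 3 + Nat.log 2 y + 600000 * K * (Nat.log 2 y + 1) ^ 2 * (ν + 1) → y ≤ ν ^ 2) ∧
        (k ≤ 2 * K * ν + Nat.log 2 y → y ≤ 2 + K * k → y ≤ ν ^ 2)))
    (K : ℕ) : ∃ N₀ : ℕ, ∀ N : ℕ, N₀ ≤ N →
    (S2 N K).ncard ≤ 8 * (K + 1) * ((Nat.log 2 N + 1) ^ 2 + 1) * ((Nat.log 2 N + 1) ^ 3 + 1) *
      (Nat.sqrt N + 1) := by
  obtain ⟨ν₀, hν₀⟩ := y_num K
  refine ⟨2 ^ ν₀, fun N hN => ?_⟩
  set ν := Nat.log 2 N + 1 with hν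
  have hN0 : N ≠ 0 := by
    have : 0 < 2 ^ ν₀ := by positivity
    omega
  have hνν : ν₀ ≤ ν := by
    have : ν₀ ≤ Nat.log 2 N := Nat.le_log_of_pow_le (by norm_num) hN
    omega
  have hN2 : N < 2 ^ ν := Nat.lt_pow_succ_log_self (by norm_num) N
  have key := ncard_le_of_rel
    (Finset.range (K + 1) ×ˢ Finset.range (ν ^ 2 + 1) ×ˢ Finset.range (ν ^ 3 + 1) ×ˢ
      Finset.range (Nat.sqrt N + 1) ×ˢ Finset.range 8) (S2 N K) RR
    (fun j B B' => RR_unique) ?_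
  · refine key.trans (le_of_eq ?_)
    simp only [Finset.card_product, Finset.card_range]
    ring
  · rintro B ⟨hB2, hBN, α, k, y, C, hα, hαK, hcop, hk, hy, h⟩
    have mem : ∀ w c : ℕ, w ≤ Nat.sqrt N → c < 8 → y ≤ ν ^ 2 → k ≤ ν ^ 3 →
        (α, y, k, w, c) ∈ Finset.range (K + 1) ×ˢ Finset.range (ν ^ 2 + 1) ×ˢ
          Finset.range (ν ^ 3 + 1) ×ˢ Finset.range (Nat.sqrt N + 1) ×ˢ Finset.range 8 := by
      intro w c hw hc hyν hkν
      simp only [Finset.mem_product, Finset.mem_range]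
      refine ⟨?_, ?_, ?_, ?_, ?_⟩ <;> omega
    rcases Nat.even_or_odd B with hev | hodd
    · obtain ⟨r, S, hrS, hr, hro, hS, hSe, h3⟩ := factor_even hα hk hy hB2 hev hcop h
      have hαo : Odd α := by
        by_contra hne
        rw [Nat.not_odd_iff_even] at hne
        have h2 : 2 ∣ Nat.gcd α B := Nat.dvd_gcd hne.two_dvd hev.two_dvd
        rw [hcop] at h2
        omega
      have hrB : r ≤ B := Nat.le_of_dvd (by omega) ⟨S, hrS.symm⟩
      have hSB : S ≤ B := Nat.le_of_dvd (by omega) ⟨r, by rw [← hrS, mul_comm]⟩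
      have hrN : r ≤ N := hrB.trans hBN
      have hSN : S ≤ N := hSB.trans hBN
      have hcr : Nat.Coprime α r := by
        rw [← hrS] at hcop
        exact hcop.coprime_mul_right_right
      have hy2 := y_even hα hαo hαK hk hy hr hro hrN hS hSe hSN hcr h3
      have hyν : y ≤ ν ^ 2 := (hν₀ ν y k hνν).1 hy2
      have hry : r ^ y ≤ N ^ y := Nat.pow_le_pow_left hrN y
      have hSy : S ^ y ≤ N ^ y := Nat.pow_le_pow_left hSN y
      have hkν : k ≤ ν ^ 3 := by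
        refine k_bound hα hy hN2 hyν ?_
        rcases h3 with h3 | h3 | h3 <;> omega
      rcases le_total r S with hle | hle
      · have hw : r ≤ Nat.sqrt N := by
          rw [Nat.le_sqrt]
          calc r * r ≤ r * S := Nat.mul_le_mul_left _ hle
            _ ≤ N := by rw [hrS]; exact hBN
        rcases h3 with h3 | h3 | h3
        · refine ⟨(α, y, k, r, 2), mem r 2 hw (by norm_num) hyν hkν, hy, S, hrS.symm, ?_⟩
          show S ^ y = vv 2 α k y r
          simp only [vv]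
          norm_num
          omega
        · refine ⟨(α, y, k, r, 3), mem r 3 hw (by norm_num) hyν hkν, hy, S, hrS.symm, ?_⟩
          show S ^ y = vv 3 α k y r
          simp only [vv]
          norm_num
          omega
        · refine ⟨(α, y, k, r, 4), mem r 4 hw (by norm_num) hyν hkν, hy, S, hrS.symm, ?_⟩
          show S ^ y = vv 4 α k y r
          simp only [vv]
          norm_num
          omega
      · have hw : S ≤ Nat.sqrt N := by
          rw [Nat.le_sqrt]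
          calc S * S ≤ r * S := Nat.mul_le_mul_right _ hle
            _ ≤ N := by rw [hrS]; exact hBN
        have hB' : B = S * r := by rw [← hrS, mul_comm]
        rcases h3 with h3 | h3 | h3
        · refine ⟨(α, y, k, S, 5), mem S 5 hw (by norm_num) hyν hkν, hy, r, hB', ?_⟩
          show r ^ y = vv 5 α k y S
          simp only [vv]
          norm_num
          omega
        · refine ⟨(α, y, k, S, 6), mem S 6 hw (by norm_num) hyν hkν, hy, r, hB', ?_⟩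
          show r ^ y = vv 6 α k y S
          simp only [vv]
          norm_num
          omega
        · refine ⟨(α, y, k, S, 7), mem S 7 hw (by norm_num) hyν hkν, hy, r, hB', ?_⟩
          show r ^ y = vv 7 α k y S
          simp only [vv]
          norm_num
          omega
    · obtain ⟨r, S, hrS, hr, hlt, h3⟩ := factor_odd hα hk hy hB2 hodd hcop h
      have hSB : S ≤ B := Nat.le_of_dvd (by omega) ⟨r, by rw [← hrS, mul_comm]⟩
      have hSN : S ≤ N := hSB.trans hBN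
      have hcr : Nat.Coprime α r := by
        rw [← hrS] at hcop
        exact hcop.coprime_mul_right_right
      have hcS : Nat.Coprime α S := by
        rw [← hrS] at hcop
        exact hcop.coprime_mul_left_right
      obtain ⟨hk2, hy2⟩ := y_odd hα hαK hy hr hlt hSN hcr hcS h3
      have hyν : y ≤ ν ^ 2 := (hν₀ ν y k hνν).2 hk2 hy2
      have hSy : S ^ y ≤ N ^ y := Nat.pow_le_pow_left hSN y
      have hry : r ^ y ≤ S ^ y := Nat.pow_le_pow_left hlt.le y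
      have hkν : k ≤ ν ^ 3 := by
        refine k_bound hα hy hN2 hyν ?_
        rcases h3 with h3 | h3 <;> omega
      have hw : r ≤ Nat.sqrt N := by
        rw [Nat.le_sqrt]
        calc r * r ≤ r * S := Nat.mul_le_mul_left _ hlt.le
          _ ≤ N := by rw [hrS]; exact hBN
      rcases h3 with h3 | h3
      · refine ⟨(α, y, k, r, 0), mem r 0 hw (by norm_num) hyν hkν, hy, S, hrS.symm, ?_⟩
        show S ^ y = vv 0 α k y r
        simp only [vv]
        norm_num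
        omega
      · refine ⟨(α, y, k, r, 1), mem r 1 hw (by norm_num) hyν hkν, hy, S, hrS.symm, ?_⟩
        show S ^ y = vv 1 α k y r
        simp only [vv]
        norm_num
        omega

end Pool.Agent.H374R2.V.ZC0
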