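import Mathlib

/-!
Task ZF1: factorisation of `α^(2k) + B^y = C^2`, `B^y + C^2 = α^(2k)`, for odd `B`.
-/

namespace Pool.Agent.H374R2.V.ZF1

namespace ZF1aux

theorem split {u v B y : ℕ} (hy : 0 < y) (huv : u * v = B ^ y) (hc : Nat.Coprime u v) :
    ∃ r S : ℕ, r ^ y = u ∧ S ^ y = v ∧ r * S = B := by
  have h1 : IsUnit (gcd u v) := by
    rw [Nat.isUnit_iff]
    exact hc
  obtain ⟨r, hr⟩ := exists_eq_pow_of_mul_eq_pow h1 huv
  have h2 : IsUnit (gcd v u) := by
    rw [Nat.isUnit_iff]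
    exact hc.symm
  obtain ⟨S, hS⟩ := exists_eq_pow_of_mul_eq_pow h2 (by rw [mul_comm]; exact huv)
  refine ⟨r, S, hr.symm, hS.symm, ?_⟩
  apply Nat.pow_left_injective (n := y) (by omega)
  show (r * S) ^ y = B ^ y
  rw [mul_pow, ← hr, ← hS, huv]

end ZF1aux

/-- Task ZF1 (factorisation, `B` odd). -/
theorem factor_odd {α k y B C : ℕ} (hα : 2 ≤ α) (hk : 0 < k) (hy : 0 < y) (hB : 2 ≤ B)
    (hodd : Odd B) (hcop : Nat.Coprime α B)
    (h : α ^ (2 * k) + B ^ y = C ^ 2 ∨ B ^ y + C ^ 2 = α ^ (2 * k)) :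
    ∃ r S : ℕ, r * S = B ∧ 0 < r ∧ r < S ∧
      (S ^ y = 2 * α ^ k + r ^ y ∨ S ^ y + r ^ y = 2 * α ^ k) := by
  have ha : α ^ (2 * k) = (α ^ k) ^ 2 := by rw [mul_comm, pow_mul]
  rw [ha] at h
  have hapos : 0 < α ^ k := by positivity
  have hBpos : 0 < B ^ y := by positivity
  -- coprimality
  have hc2 : Nat.Coprime (B ^ y) (2 * α ^ k) := by
    apply Nat.Coprime.pow_left
    apply Nat.Coprime.mul_right
    · exact (Nat.coprime_two_right).2 hodd
    · exact (hcop.symm).pow_right k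
  have hlt : ∀ r S : ℕ, r ^ y < S ^ y → r < S := fun r S h1 => lt_of_pow_lt_pow_left' y h1
  have hpos : ∀ r : ℕ, 0 < r ^ y → 0 < r := by
    intro r h1
    rcases Nat.eq_zero_or_pos r with h2 | h2
    · rw [h2, zero_pow (by omega)] at h1
      omega
    · exact h2
  rcases h with h | h
  · have hCa : α ^ k < C := by
      by_contra hcon
      push Not at hcon
      have : C ^ 2 ≤ (α ^ k) ^ 2 := Nat.pow_le_pow_left hcon 2
      omega
    obtain ⟨u, hu⟩ := Nat.exists_eq_add_of_lt hCa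
    have hC : C = α ^ k + (u + 1) := by omega
    have hprod : (u + 1) * (2 * α ^ k + (u + 1)) = B ^ y := by
      rw [hC] at h
      nlinarith
    have hcuv : Nat.Coprime (u + 1) (2 * α ^ k + (u + 1)) := by
      rw [Nat.coprime_add_self_right]
      exact Nat.Coprime.coprime_dvd_left (Dvd.intro _ hprod) hc2
    obtain ⟨r, S, h1, h2, h3⟩ := ZF1aux.split hy hprod hcuv
    refine ⟨r, S, h3, hpos r (by omega), hlt r S (by omega), Or.inl ?_⟩
    omega
  · have hCa : C < α ^ k := by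
      by_contra hcon
      push Not at hcon
      have : (α ^ k) ^ 2 ≤ C ^ 2 := Nat.pow_le_pow_left hcon 2
      omega
    obtain ⟨u, hu⟩ := Nat.exists_eq_add_of_lt hCa
    have hA : α ^ k = C + (u + 1) := by omega
    have hprod : (u + 1) * (2 * C + (u + 1)) = B ^ y := by
      rw [hA] at h
      nlinarith
    have hcuv : Nat.Coprime (u + 1) (2 * C + (u + 1)) := by
      rw [← Nat.coprime_self_add_right]
      have e1 : u + 1 + (2 * C + (u + 1)) = 2 * α ^ k := by omega
      rw [e1]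
      exact Nat.Coprime.coprime_dvd_left (Dvd.intro _ hprod) hc2
    obtain ⟨r, S, h1, h2, h3⟩ := ZF1aux.split hy hprod hcuv
    have hC0 : 0 < C := by
      rcases Nat.eq_zero_or_pos C with h4 | h4
      · exfalso
        rw [h4] at h
        have h5 : B ^ y = (α ^ k) ^ 2 := by simpa using h
        have h6 : Nat.Coprime (B ^ y) ((α ^ k) ^ 2) :=
          (Nat.Coprime.coprime_dvd_right (Dvd.intro_left _ rfl) hc2).pow_right 2
        rw [← h5, Nat.coprime_self] at h6
        have h7 : B ≤ B ^ y := Nat.le_self_pow (by omega) B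
        omega
      · exact h4
    refine ⟨r, S, h3, hpos r (by omega), hlt r S (by omega), Or.inr ?_⟩
    omega

end Pool.Agent.H374R2.V.ZF1
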