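import Mathlib

/-!
# Task ZF2: factorisation, `B` even
-/

set_option autoImplicit false

namespace Pool.Agent.H374R2.V.ZF2

/-- coprime factors of a power -/
theorem split_pow {v v' B y : ℕ} (hy : 0 < y) (hB : 0 < B) (hv' : Odd v') (hv : Even v)
    (hc : Nat.Coprime v' v) (h : v' * (4 * v) = B ^ y) :
    ∃ r S : ℕ, v' = r ^ y ∧ 4 * v = S ^ y ∧ r * S = B ∧ 0 < r ∧ Odd r ∧ 0 < S ∧ Even S := by
  have hc4 : Nat.Coprime v' (4 * v) := by
    refine Nat.Coprime.mul_right ?_ hc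
    have : Nat.Coprime v' (2 ^ 2) := Nat.Coprime.pow_right 2 (Nat.coprime_two_right.2 hv')
    simpa using this
  obtain ⟨r, hr⟩ := exists_eq_pow_of_mul_eq_pow (a := v') (b := 4 * v) (c := B) (k := y)
    (by rw [Nat.isUnit_iff]; exact hc4) h
  obtain ⟨S, hS⟩ := exists_eq_pow_of_mul_eq_pow (a := 4 * v) (b := v') (c := B) (k := y)
    (by rw [Nat.isUnit_iff]; exact hc4.symm) (by rw [mul_comm]; exact h)
  have hrS : r * S = B := by
    apply Nat.pow_left_injective (Nat.pos_iff_ne_zero.1 hy)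
    simp only
    rw [mul_pow, ← hr, ← hS, h]
  have hpos : 0 < r * S := by rw [hrS]; exact hB
  have hr0 : 0 < r := Nat.pos_of_mul_pos_right hpos
  have hS0 : 0 < S := Nat.pos_of_mul_pos_left hpos
  refine ⟨r, S, hr, hS, hrS, hr0, ?_, hS0, ?_⟩
  · rw [hr] at hv'
    by_contra hcon
    rw [Nat.not_odd_iff_even] at hcon
    have : Even (r ^ y) := (Nat.even_pow).2 ⟨hcon, by omega⟩
    exact (Nat.not_even_iff_odd.2 hv') this
  · have : Even (S ^ y) := by rw [← hS]; exact hv.mul_left 4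
    exact ((Nat.even_pow).1 this).1

theorem key {p q B y : ℕ} (hy : 0 < y) (hB : 0 < B) (hp : Odd p) (hq : Odd q)
    (hc : Nat.Coprime p q) (h : p ^ 2 + B ^ y = q ^ 2) :
    ∃ r S : ℕ, r * S = B ∧ 0 < r ∧ Odd r ∧ 0 < S ∧ Even S ∧ S ^ y + 4 * r ^ y = 4 * q ∧
      (S ^ y = 4 * p + 4 * r ^ y ∨ S ^ y + 4 * p = 4 * r ^ y) := by
  have hBy : 0 < B ^ y := Nat.pow_pos hB
  have hlt : p < q := by
    by_contra hcon
    have : q ^ 2 ≤ p ^ 2 := Nat.pow_le_pow_left (not_lt.1 hcon) 2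
    omega
  obtain ⟨u, hu⟩ : ∃ u, q = p + 2 * u := by
    obtain ⟨i, hi⟩ := hp
    obtain ⟨j, hj⟩ := hq
    exact ⟨j - i, by omega⟩
  have h1 : u * (4 * (u + p)) = B ^ y := by
    have h2 : p ^ 2 + u * (4 * (u + p)) = p ^ 2 + B ^ y := by
      rw [h, hu]
      ring
    exact Nat.add_left_cancel h2
  have hc1 : Nat.Coprime u (u + p) := by
    have h3 : Nat.gcd u (u + p) ∣ p := by
      have h4 := Nat.gcd_dvd_right u (u + p)
      exact (Nat.dvd_add_right (Nat.gcd_dvd_left u (u + p))).1 h4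
    have h4 : Nat.gcd u (u + p) ∣ q := by
      rw [hu]
      exact dvd_add h3 ((Nat.gcd_dvd_left u (u + p)).mul_left 2)
    exact Nat.eq_one_of_dvd_coprimes hc h3 h4
  rcases Nat.even_or_odd u with hue | huo
  · have hwo : Odd (u + p) := hue.add_odd hp
    obtain ⟨r, S, h3, h4, h5, h6, h7, h8, h9⟩ := split_pow hy hB hwo hue hc1.symm
      (by rw [← h1]; ring)
    exact ⟨r, S, h5, h6, h7, h8, h9, by omega, Or.inr (by omega)⟩
  · have hwe : Even (u + p) := huo.add_odd hp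
    obtain ⟨r, S, h3, h4, h5, h6, h7, h8, h9⟩ := split_pow hy hB huo hwe hc1 h1
    exact ⟨r, S, h5, h6, h7, h8, h9, by omega, Or.inl (by omega)⟩

theorem odd_of_sq {C : ℕ} (h : Odd (C ^ 2)) : Odd C := by
  by_contra hcon
  rw [Nat.not_odd_iff_even] at hcon
  exact (Nat.not_even_iff_odd.2 h) ((Nat.even_pow).2 ⟨hcon, by norm_num⟩)

theorem factor_even {α k y B C : ℕ} (hα : 2 ≤ α) (hk : 0 < k) (hy : 0 < y) (hB : 2 ≤ B)
    (hev : Even B) (hcop : Nat.Coprime α B)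
    (h : α ^ (2 * k) + B ^ y = C ^ 2 ∨ B ^ y + C ^ 2 = α ^ (2 * k)) :
    ∃ r S : ℕ, r * S = B ∧ 0 < r ∧ Odd r ∧ 0 < S ∧ Even S ∧
      (S ^ y = 4 * α ^ k + 4 * r ^ y ∨ S ^ y + 4 * α ^ k = 4 * r ^ y ∨
        S ^ y + 4 * r ^ y = 4 * α ^ k) := by
  have hαo : Odd α := by
    rw [← Nat.coprime_two_right]
    exact Nat.Coprime.coprime_dvd_right hev.two_dvd hcop
  have hao : Odd (α ^ k) := hαo.pow
  have hByE : Even (B ^ y) := (Nat.even_pow).2 ⟨hev, by omega⟩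
  have hsq : α ^ (2 * k) = (α ^ k) ^ 2 := by rw [← pow_mul, mul_comm]
  rw [hsq] at h
  have hcy : Nat.Coprime (α ^ k) (B ^ y) := Nat.Coprime.pow k y hcop
  have hao2 : Odd ((α ^ k) ^ 2) := hao.pow
  have hd1 : Nat.gcd (α ^ k) C ∣ (α ^ k) ^ 2 :=
    (Nat.gcd_dvd_left _ _).trans (dvd_pow_self _ (by norm_num))
  have hd2 : Nat.gcd (α ^ k) C ∣ C ^ 2 :=
    (Nat.gcd_dvd_right _ _).trans (dvd_pow_self _ (by norm_num))
  rcases h with h | h
  · have hCo : Odd C := by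
      have h1 : Odd (C ^ 2) := by
        rw [← h]
        exact hao2.add_even hByE
      exact odd_of_sq h1
    have hc : Nat.Coprime (α ^ k) C := by
      refine Nat.eq_one_of_dvd_coprimes hcy (Nat.gcd_dvd_left _ _) ?_
      exact (Nat.dvd_add_right hd1).1 (by rw [h]; exact hd2)
    obtain ⟨r, S, h1, h2, h3, h4, h5, -, h6⟩ := key (B := B) hy (by omega) hao hCo hc h
    exact ⟨r, S, h1, h2, h3, h4, h5, by tauto⟩
  · have hCo : Odd C := by
      have h1 : Odd (C ^ 2) := by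
        have h2 : Odd (B ^ y + C ^ 2) := by rw [h]; exact hao2
        rw [Nat.odd_add'] at h2
        exact h2.2 hByE
      exact odd_of_sq h1
    have hc : Nat.Coprime (α ^ k) C := by
      refine Nat.eq_one_of_dvd_coprimes hcy (Nat.gcd_dvd_left _ _) ?_
      exact (Nat.dvd_add_left hd2).1 (by rw [h]; exact hd1)
    obtain ⟨r, S, h1, h2, h3, h4, h5, h6, -⟩ := key (B := B) hy (by omega) hCo hao hc.symm
      (by rw [add_comm]; exact h)
    exact ⟨r, S, h1, h2, h3, h4, h5, Or.inr (Or.inr h6)⟩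

end Pool.Agent.H374R2.V.ZF2
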