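import Mathlib

/-!
# Numerical lemma (task ZN, helper89)
-/

set_option autoImplicit false

namespace Pool.Agent.H374R2.V.ZN

private lemma key (C : ℕ) : ∃ ν₀ : ℕ, ∀ ν y : ℕ, ν₀ ≤ ν → ν ^ 2 < y →
    C * (Nat.log 2 y + 1) ^ 2 * (ν + 1) < y := by
  set c : ℝ := 1 / (5 * (C + 1)) with hc
  have hc0 : 0 < c := by positivity
  have h1 : ∀ᶠ x : ℝ in Filter.atTop, ‖Real.log x‖ ≤ c * ‖x ^ (1 / 8 : ℝ)‖ :=
    (isLittleO_log_rpow_atTop (by norm_num : (0 : ℝ) < 1 / 8)).bound hc0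
  have h2 : ∀ᶠ n : ℕ in Filter.atTop, ‖Real.log (n : ℝ)‖ ≤ c * ‖(n : ℝ) ^ (1 / 8 : ℝ)‖ :=
    tendsto_natCast_atTop_atTop.eventually h1
  obtain ⟨Y, hY⟩ := Filter.eventually_atTop.1 h2
  refine ⟨Y + 3, fun ν y hν hy => ?_⟩
  have hyν : ν ≤ y := by nlinarith
  have hyY : Y ≤ y := by omega
  have hy3 : 3 ≤ y := by omega
  have hy3' : (3 : ℝ) ≤ y := by exact_mod_cast hy3
  have hy0 : (0 : ℝ) < y := by linarith
  have hlog1 : 1 ≤ Real.log y := by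
    rw [Real.le_log_iff_exp_le hy0]
    have := Real.exp_one_lt_d9
    linarith
  have h3 := hY y hyY
  rw [Real.norm_of_nonneg (by linarith), Real.norm_of_nonneg (Real.rpow_nonneg hy0.le _)] at h3
  -- the logarithm
  set L : ℕ := Nat.log 2 y with hL
  have hpow : ((2 : ℝ) ^ L) ≤ y := by
    have := Nat.pow_log_le_self 2 (show y ≠ 0 by omega)
    exact_mod_cast this
  have hL2 : (L : ℝ) * Real.log 2 ≤ Real.log y := by
    rw [← Real.log_pow]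
    exact Real.log_le_log (by positivity) hpow
  have hL3 : (L : ℝ) + 1 ≤ 3 * Real.log y := by
    have h4 := Real.log_two_gt_d9
    have h5 : (0 : ℝ) ≤ L := Nat.cast_nonneg L
    nlinarith
  have hν1 : (ν : ℝ) + 1 ≤ 2 * Real.sqrt y := by
    have h4 : (ν : ℝ) ≤ Real.sqrt y := by
      apply Real.le_sqrt_of_sq_le
      exact_mod_cast hy.le
    have h5 : 1 ≤ Real.sqrt y := by
      rw [Real.one_le_sqrt]
      linarith
    linarith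
  have h8 : (0 : ℝ) ≤ (y : ℝ) ^ (1 / 8 : ℝ) := Real.rpow_nonneg hy0.le _
  have h6 : ((L : ℝ) + 1) ^ 2 ≤ 9 * c ^ 2 * (y : ℝ) ^ (1 / 4 : ℝ) := by
    have h7 : (L : ℝ) + 1 ≤ 3 * (c * (y : ℝ) ^ (1 / 8 : ℝ)) := by linarith
    have h9 : ((y : ℝ) ^ (1 / 8 : ℝ)) ^ 2 = (y : ℝ) ^ (1 / 4 : ℝ) := by
      rw [← Real.rpow_natCast, ← Real.rpow_mul hy0.le]
      norm_num
    calc ((L : ℝ) + 1) ^ 2 ≤ (3 * (c * (y : ℝ) ^ (1 / 8 : ℝ))) ^ 2 :=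
          pow_le_pow_left₀ (by positivity) h7 2
      _ = 9 * c ^ 2 * ((y : ℝ) ^ (1 / 8 : ℝ)) ^ 2 := by ring
      _ = 9 * c ^ 2 * (y : ℝ) ^ (1 / 4 : ℝ) := by rw [h9]
  have h10 : (y : ℝ) ^ (1 / 4 : ℝ) * Real.sqrt y ≤ y := by
    rw [Real.sqrt_eq_rpow, ← Real.rpow_add hy0]
    calc (y : ℝ) ^ (1 / 4 + 1 / 2 : ℝ) ≤ (y : ℝ) ^ (1 : ℝ) :=
          Real.rpow_le_rpow_of_exponent_le (by linarith) (by norm_num)
      _ = y := Real.rpow_one _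
  have hCc : 18 * (C : ℝ) * c ^ 2 < 1 := by
    rw [hc, div_pow, one_pow, mul_one_div, div_lt_one (by positivity)]
    have : (0 : ℝ) ≤ C := Nat.cast_nonneg C
    nlinarith
  have h11 : (C : ℝ) * ((L : ℝ) + 1) ^ 2 * (ν + 1) < y := by
    calc (C : ℝ) * ((L : ℝ) + 1) ^ 2 * (ν + 1)
        ≤ (C : ℝ) * (9 * c ^ 2 * (y : ℝ) ^ (1 / 4 : ℝ)) * (2 * Real.sqrt y) := by
          apply mul_le_mul _ hν1 (by positivity) (by positivity)
          exact mul_le_mul_of_nonneg_left h6 (Nat.cast_nonneg C)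
      _ = 18 * (C : ℝ) * c ^ 2 * ((y : ℝ) ^ (1 / 4 : ℝ) * Real.sqrt y) := by ring
      _ ≤ 18 * (C : ℝ) * c ^ 2 * y := mul_le_mul_of_nonneg_left h10 (by positivity)
      _ < 1 * y := mul_lt_mul_of_pos_right hCc hy0
      _ = y := one_mul _
  exact_mod_cast h11

theorem y_num (K : ℕ) : ∃ ν₀ : ℕ, ∀ ν y k : ℕ, ν₀ ≤ ν →
    ((y ≤ 3 + Nat.log 2 y + 600000 * K * (Nat.log 2 y + 1) ^ 2 * (ν + 1) → y ≤ ν ^ 2) ∧
      (k ≤ 2 * K * ν + Nat.log 2 y → y ≤ 2 + K * k → y ≤ ν ^ 2)) := by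
  obtain ⟨ν₀, h⟩ := key (600000 * K + 2 * K ^ 2 + K + 4)
  refine ⟨ν₀, fun ν y k hν => ⟨fun hy => ?_, fun hk hy => ?_⟩⟩
  · by_contra hcon
    push Not at hcon
    have h1 := h ν y hν hcon
    set L := Nat.log 2 y
    have h2 : 3 + L ≤ 4 * (L + 1) ^ 2 * (ν + 1) := by
      nlinarith [Nat.zero_le (L * ν), Nat.zero_le (L * L * ν), Nat.zero_le (L * L)]
    have h3 : 600000 * K * (L + 1) ^ 2 * (ν + 1) + 4 * (L + 1) ^ 2 * (ν + 1) ≤
        (600000 * K + 2 * K ^ 2 + K + 4) * (L + 1) ^ 2 * (ν + 1) := by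
      have : (600000 * K + 2 * K ^ 2 + K + 4) * (L + 1) ^ 2 * (ν + 1) =
        600000 * K * (L + 1) ^ 2 * (ν + 1) + 4 * (L + 1) ^ 2 * (ν + 1) +
          (2 * K ^ 2 + K) * (L + 1) ^ 2 * (ν + 1) := by ring
      rw [this]
      exact Nat.le_add_right _ _
    omega
  · by_contra hcon
    push Not at hcon
    have h1 := h ν y hν hcon
    set L := Nat.log 2 y
    have h2 : K * k ≤ K * (2 * K * ν + L) := Nat.mul_le_mul_left K hk
    have h4 : 1 ≤ (L + 1) ^ 2 * (ν + 1) := Nat.one_le_iff_ne_zero.2 (by positivity)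
    have h5 : ν ≤ (L + 1) ^ 2 * (ν + 1) := by
      nlinarith [Nat.zero_le (L * ν), Nat.zero_le (L * L * ν), Nat.zero_le (L * L)]
    have h6 : L ≤ (L + 1) ^ 2 * (ν + 1) := by
      nlinarith [Nat.zero_le (L * ν), Nat.zero_le (L * L * ν), Nat.zero_le (L * L)]
    have h7 : 2 + K * (2 * K * ν + L) ≤
        (600000 * K + 2 * K ^ 2 + K + 4) * (L + 1) ^ 2 * (ν + 1) := by
      have e1 : 2 * K ^ 2 * ν ≤ 2 * K ^ 2 * ((L + 1) ^ 2 * (ν + 1)) := Nat.mul_le_mul_left _ h5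
      have e2 : K * L ≤ K * ((L + 1) ^ 2 * (ν + 1)) := Nat.mul_le_mul_left _ h6
      have e3 : 2 ≤ 4 * ((L + 1) ^ 2 * (ν + 1)) := by omega
      have e4 : (600000 * K + 2 * K ^ 2 + K + 4) * (L + 1) ^ 2 * (ν + 1) =
          600000 * K * ((L + 1) ^ 2 * (ν + 1)) + 2 * K ^ 2 * ((L + 1) ^ 2 * (ν + 1)) +
          K * ((L + 1) ^ 2 * (ν + 1)) + 4 * ((L + 1) ^ 2 * (ν + 1)) := by ring
      have e5 : 2 + K * (2 * K * ν + L) = 2 + 2 * K ^ 2 * ν + K * L := by ring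
      rw [e4, e5]
      have e6 : 0 ≤ 600000 * K * ((L + 1) ^ 2 * (ν + 1)) := Nat.zero_le _
      omega
    omega

end Pool.Agent.H374R2.V.ZN
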