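import Mathlib

/-!
Task ZY1 (bound for the exponents, `B` odd).
-/

set_option autoImplicit false

namespace Pool.Agent.H374R2.V.ZY1

theorem lte {p : ℕ} (hp : p.Prime) {X Y : ℤ} {y k : ℕ} (hX : ¬ (p : ℤ) ∣ X)
    (h1 : (p : ℤ) ∣ X - Y) (h2 : p = 2 → (4 : ℤ) ∣ X - Y) (hy : y ≠ 0) (hXY : X ≠ Y)
    (hk : (p : ℤ) ^ k ∣ X ^ y - Y ^ y) :
    ∃ a b : ℕ, k ≤ a + b ∧ (p : ℤ) ^ a ∣ X - Y ∧ (p : ℤ) ^ b ∣ (y : ℤ) := by
  have hE : emultiplicity (p : ℤ) (X ^ y - Y ^ y) =
      emultiplicity (p : ℤ) (X - Y) + emultiplicity (p : ℤ) (y : ℤ) := by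
    rcases hp.eq_two_or_odd' with h | h
    · subst h
      have := Int.two_pow_sub_pow' (x := X) (y := Y) y (h2 rfl) (by simpa using hX)
      simpa using this
    · have := Int.emultiplicity_pow_sub_pow hp h h1 hX y
      rw [this]
      congr 1
      exact (Int.natCast_emultiplicity p y).symm
  have hp1 : (p : ℤ).natAbs ≠ 1 := by simpa using hp.one_lt.ne'
  have hf1 : FiniteMultiplicity (p : ℤ) (X - Y) :=
    Int.finiteMultiplicity_iff.2 ⟨hp1, sub_ne_zero.2 hXY⟩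
  have hf2 : FiniteMultiplicity (p : ℤ) (y : ℤ) :=
    Int.finiteMultiplicity_iff.2 ⟨hp1, by exact_mod_cast hy⟩
  refine ⟨multiplicity (p : ℤ) (X - Y), multiplicity (p : ℤ) (y : ℤ), ?_,
    pow_multiplicity_dvd _ _, pow_multiplicity_dvd _ _⟩
  have h3 := le_emultiplicity_of_pow_dvd hk
  rw [hE, hf1.emultiplicity_eq_multiplicity, hf2.emultiplicity_eq_multiplicity] at h3
  exact_mod_cast h3

theorem y_odd {α k y r S N K : ℕ} (hα : 2 ≤ α) (hαK : α ≤ K) (hy : 0 < y) (hr : 0 < r)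
    (hrS : r < S) (hSN : S ≤ N) (hcr : Nat.Coprime α r) (hcS : Nat.Coprime α S)
    (h : S ^ y = 2 * α ^ k + r ^ y ∨ S ^ y + r ^ y = 2 * α ^ k) :
    k ≤ 2 * K * (Nat.log 2 N + 1) + Nat.log 2 y ∧ y ≤ 2 + K * k := by
  constructor
  · obtain ⟨p, hp, hpα⟩ := Nat.exists_prime_and_dvd (n := α) (by omega)
    have hpK : p ≤ K := (Nat.le_of_dvd (by omega) hpα).trans hαK
    have hpS : ¬ p ∣ S := fun hd => by
      have := Nat.dvd_gcd hpα hd
      rw [hcS] at this
      exact hp.one_lt.ne' (Nat.dvd_one.1 this)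
    have hpr : ¬ p ∣ r := fun hd => by
      have := Nat.dvd_gcd hpα hd
      rw [hcr] at this
      exact hp.one_lt.ne' (Nat.dvd_one.1 this)
    set e : ℕ := 2 * (p - 1) with he
    have he0 : e ≠ 0 := by have := hp.two_le; omega
    set X : ℤ := (S : ℤ) ^ e with hX
    set Y : ℤ := (r : ℤ) ^ e with hY
    have hYX : Y < X := by
      rw [hX, hY]
      exact pow_lt_pow_left₀ (by exact_mod_cast hrS) (by positivity) he0
    have hY0 : 0 < Y := by rw [hY]; positivity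
    -- divisibility
    have hdiv : (α : ℤ) ^ k ∣ X ^ y - Y ^ y := by
      have h1 : (α : ℤ) ^ k ∣ ((S : ℤ) ^ y) ^ 2 - ((r : ℤ) ^ y) ^ 2 := by
        rw [sq_sub_sq]
        rcases h with h | h
        · have h' : (S : ℤ) ^ y = 2 * (α : ℤ) ^ k + (r : ℤ) ^ y := by exact_mod_cast h
          exact Dvd.dvd.mul_left ⟨2, by rw [h']; ring⟩ _
        · have h' : (S : ℤ) ^ y + (r : ℤ) ^ y = 2 * (α : ℤ) ^ k := by exact_mod_cast h
          exact Dvd.dvd.mul_right ⟨2, by rw [h']; ring⟩ _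
      have h2 : X ^ y - Y ^ y = (((S : ℤ) ^ y) ^ 2) ^ (p - 1) - (((r : ℤ) ^ y) ^ 2) ^ (p - 1) := by
        rw [hX, hY, he]
        ring
      rw [h2]
      exact h1.trans (sub_dvd_pow_sub_pow _ _ _)
    have hdivp : (p : ℤ) ^ k ∣ X ^ y - Y ^ y :=
      (pow_dvd_pow_of_dvd (by exact_mod_cast hpα) k).trans hdiv
    have hXp : ¬ (p : ℤ) ∣ X := by
      intro hd
      rw [hX] at hd
      have := Int.Prime.dvd_pow' hp (n := (S : ℤ)) (k := e) hd
      exact hpS (by exact_mod_cast this)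
    have hfer : ∀ z : ℕ, ¬ p ∣ z → (p : ℤ) ∣ (z : ℤ) ^ e - 1 := by
      intro z hz
      have h1 : (z : ℤ) ^ (p - 1) ≡ 1 [ZMOD p] := by
        refine Int.ModEq.pow_card_sub_one_eq_one hp ?_
        rw [Int.isCoprime_iff_gcd_eq_one]
        have : Nat.Coprime z p := ((Nat.Prime.coprime_iff_not_dvd hp).2 hz).symm
        simpa [Int.gcd_natCast_natCast] using this
      have h2 : (z : ℤ) ^ e ≡ 1 [ZMOD p] := by
        have := h1.pow 2
        rw [one_pow, ← pow_mul] at this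
        rw [he, mul_comm]
        exact this
      exact h2.symm.dvd
    have h1 : (p : ℤ) ∣ X - Y := by
      have := dvd_sub (hfer S hpS) (hfer r hpr)
      have h3 : (S : ℤ) ^ e - 1 - ((r : ℤ) ^ e - 1) = X - Y := by rw [hX, hY]; ring
      rwa [h3] at this
    have h2 : p = 2 → (4 : ℤ) ∣ X - Y := by
      intro h2
      subst h2
      have hsq : ∀ z : ℕ, ¬ 2 ∣ z → (4 : ℤ) ∣ (z : ℤ) ^ e - 1 := by
        intro z hz
        obtain ⟨m, rfl⟩ : ∃ m, z = 2 * m + 1 := ⟨z / 2, by omega⟩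
        exact ⟨m ^ 2 + m, by rw [he]; push_cast; ring⟩
      have := dvd_sub (hsq S hpS) (hsq r hpr)
      have h3 : (S : ℤ) ^ e - 1 - ((r : ℤ) ^ e - 1) = X - Y := by rw [hX, hY]; ring
      rwa [h3] at this
    obtain ⟨a, b, hab, ha, hb⟩ := lte hp hXp h1 h2 hy.ne' hYX.ne' hdivp
    -- bound for a
    have ha' : a < (Nat.log 2 N + 1) * e := by
      have h3 : (p : ℤ) ^ a ≤ X - Y := Int.le_of_dvd (by linarith) ha
      have h4 : (p : ℤ) ^ a < X := by linarith
      have h5 : (p : ℤ) ^ a < (((2 : ℕ) ^ ((Nat.log 2 N + 1) * e) : ℕ) : ℤ) := by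
        refine h4.trans_le ?_
        rw [hX]
        have h6 : S ≤ 2 ^ (Nat.log 2 N + 1) :=
          hSN.trans (Nat.lt_pow_succ_log_self (by norm_num) N).le
        have h7 := Nat.pow_le_pow_left h6 e
        rw [← pow_mul] at h7
        exact_mod_cast h7
      have h7 : 2 ^ a < 2 ^ ((Nat.log 2 N + 1) * e) := by
        have h8 : p ^ a < 2 ^ ((Nat.log 2 N + 1) * e) := by exact_mod_cast h5
        exact (Nat.pow_le_pow_left hp.two_le a).trans_lt h8
      exact (Nat.pow_lt_pow_iff_right (by norm_num)).1 h7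
    have hb' : b ≤ Nat.log 2 y := by
      have h3 : p ^ b ∣ y := by exact_mod_cast hb
      have h4 : 2 ^ b ≤ y := (Nat.pow_le_pow_left hp.two_le b).trans (Nat.le_of_dvd hy h3)
      exact Nat.le_log_of_pow_le (by norm_num) h4
    have h9 : (Nat.log 2 N + 1) * e ≤ 2 * K * (Nat.log 2 N + 1) := by
      have : e ≤ 2 * K := by omega
      calc (Nat.log 2 N + 1) * e ≤ (Nat.log 2 N + 1) * (2 * K) := Nat.mul_le_mul_left _ this
        _ = 2 * K * (Nat.log 2 N + 1) := by ring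
    omega
  · have hS2 : 2 ≤ S := by omega
    have h1 : S ^ (y - 1) ≤ 2 * α ^ k := by
      obtain ⟨z, rfl⟩ : ∃ z, y = z + 1 := ⟨y - 1, by omega⟩
      rw [Nat.add_sub_cancel]
      rcases h with h | h
      · have h3 : S ^ z + r ^ (z + 1) ≤ S ^ (z + 1) := by
          have h4 : (r + 1) * S ^ z ≤ S ^ (z + 1) := by
            rw [pow_succ, mul_comm (S ^ z)]
            exact Nat.mul_le_mul_right _ hrS
          have h5 : r ^ (z + 1) ≤ r * S ^ z := by
            rw [pow_succ, mul_comm (r ^ z)]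
            exact Nat.mul_le_mul_left _ (Nat.pow_le_pow_left hrS.le z)
          have h6 : (r + 1) * S ^ z = r * S ^ z + S ^ z := by ring
          omega
        omega
      · have h3 : S ^ z ≤ S ^ (z + 1) := Nat.pow_le_pow_right (by omega) (by omega)
        omega
    have h2 : 2 ^ (y - 1) ≤ 2 ^ (1 + K * k) := by
      calc 2 ^ (y - 1) ≤ S ^ (y - 1) := Nat.pow_le_pow_left hS2 _
        _ ≤ 2 * α ^ k := h1
        _ ≤ 2 * (2 ^ K) ^ k :=
            Nat.mul_le_mul_left _ (Nat.pow_le_pow_left (hαK.trans (Nat.lt_two_pow_self).le) k)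
        _ = 2 ^ (1 + K * k) := by rw [pow_add, pow_mul, pow_one]
    have h3 := (Nat.pow_le_pow_iff_right (by norm_num)).1 h2
    omega

end Pool.Agent.H374R2.V.ZY1
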