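import Mathlib
import Pool.Agent.H374R2.V.TL

/-!
Task ZY2: bound for the exponents, `B` even; uses two logarithms for `p = 2`.
-/

namespace Pool.Agent.H374R2.V.ZY2

open Pool.Agent.H374R2.V.TL (two_logs)

/-- 2-adic lifting the exponent in the form used here -/
theorem lte {X Y : ℤ} {g n : ℕ} (hg : 0 < g) (h4 : 4 ∣ X - Y) (hX : ¬ 2 ∣ X)
    (hdiv : (2 : ℤ) ^ n ∣ X ^ g - Y ^ g) : (2 : ℤ) ^ (n - Nat.log 2 g) ∣ X - Y := by
  have h1 := Int.two_pow_sub_pow' g h4 hX
  rw [pow_dvd_iff_le_emultiplicity] at hdiv ⊢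
  rw [h1] at hdiv
  have h2 : emultiplicity (2 : ℤ) (g : ℤ) ≤ (Nat.log 2 g : ℕ) := by
    have h3 : emultiplicity (2 : ℤ) (g : ℤ) = emultiplicity 2 g := by
      exact_mod_cast Int.natCast_emultiplicity 2 g
    have : Fact (Nat.Prime 2) := ⟨Nat.prime_two⟩
    rw [h3, ← padicValNat_eq_emultiplicity (by omega)]
    exact_mod_cast padicValNat_le_nat_log (p := 2) g
  have h3 : (n : ℕ∞) ≤ emultiplicity 2 (X - Y) + (Nat.log 2 g : ℕ) :=
    hdiv.trans (add_le_add le_rfl h2)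
  rw [ENat.natCast_sub]
  exact tsub_le_iff_right.mpr h3

theorem four_dvd_of_odd_sq {u v : ℤ} (hu : Odd u) (hv : Odd v) : 4 ∣ u ^ 2 - v ^ 2 := by
  obtain ⟨a, ha⟩ := hu
  obtain ⟨b, hb⟩ := hv
  exact ⟨a ^ 2 + a - b ^ 2 - b, by rw [ha, hb]; ring⟩

theorem y_even {α k y r S N K : ℕ} (hα : 2 ≤ α) (hαo : Odd α) (hαK : α ≤ K) (hk : 0 < k)
    (hy : 0 < y) (hr : 0 < r) (hro : Odd r) (hrN : r ≤ N) (hS : 0 < S) (hSe : Even S)
    (hSN : S ≤ N) (hcr : Nat.Coprime α r)
    (h : S ^ y = 4 * α ^ k + 4 * r ^ y ∨ S ^ y + 4 * α ^ k = 4 * r ^ y ∨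
        S ^ y + 4 * r ^ y = 4 * α ^ k) :
    y ≤ 3 + Nat.log 2 y + 600000 * K * (Nat.log 2 y + 1) ^ 2 * (Nat.log 2 N + 2) := by
  set ν := Nat.log 2 N + 1 with hν
  set lam := Nat.log 2 y + 1 with hlam
  have hNν : N < 2 ^ ν := Nat.lt_pow_succ_log_self (by norm_num) N
  have hN0 : 0 < N := hS.trans_le hSN
  have hlam1 : 1 ≤ lam := by omega
  have hν1 : 1 ≤ ν := by omega
  have hK1 : 2 ≤ K := by omega
  -- the size of `α ^ k`
  have hsizeα : α ^ k ≤ 2 * N ^ y := by
    have h1 : S ^ y ≤ N ^ y := Nat.pow_le_pow_left hSN y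
    have h2 : r ^ y ≤ N ^ y := Nat.pow_le_pow_left hrN y
    rcases h with h | h | h <;> omega
  -- the divisibility
  have hdiv1 : (2 : ℤ) ^ (y - 2) ∣ (r : ℤ) ^ (2 * y) - (α : ℤ) ^ (2 * k) := by
    rcases Nat.lt_or_ge y 2 with hy2 | hy2
    · have : y - 2 = 0 := by omega
      rw [this, pow_zero]
      exact one_dvd _
    obtain ⟨s, hs⟩ := hSe
    have hSy : (S : ℤ) ^ y = 4 * ((2 : ℤ) ^ (y - 2) * (s : ℤ) ^ y) := by
      have e1 : (S : ℤ) = 2 * s := by rw [hs]; push_cast; ring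
      have e2 : (2 : ℤ) ^ y = 4 * 2 ^ (y - 2) := by
        obtain ⟨m, rfl⟩ : ∃ m, y = m + 2 := ⟨y - 2, by omega⟩
        rw [Nat.add_sub_cancel, pow_add]
        ring
      rw [e1, mul_pow, e2]
      ring
    have hfac : (r : ℤ) ^ (2 * y) - (α : ℤ) ^ (2 * k) =
        ((r : ℤ) ^ y - (α : ℤ) ^ k) * ((r : ℤ) ^ y + (α : ℤ) ^ k) := by
      rw [mul_comm 2 y, mul_comm 2 k, pow_mul, pow_mul]
      ring
    rw [hfac]
    rcases h with h | h | h
    · have h' : (S : ℤ) ^ y = 4 * (α : ℤ) ^ k + 4 * (r : ℤ) ^ y := by exact_mod_cast h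
      apply dvd_mul_of_dvd_right
      refine ⟨(s : ℤ) ^ y, ?_⟩
      have : 4 * ((r : ℤ) ^ y + (α : ℤ) ^ k) = 4 * ((2 : ℤ) ^ (y - 2) * (s : ℤ) ^ y) := by
        rw [← hSy, h']; ring
      exact mul_left_cancel₀ (by norm_num) this
    · have h' : (S : ℤ) ^ y + 4 * (α : ℤ) ^ k = 4 * (r : ℤ) ^ y := by exact_mod_cast h
      apply dvd_mul_of_dvd_left
      refine ⟨(s : ℤ) ^ y, ?_⟩
      have : 4 * ((r : ℤ) ^ y - (α : ℤ) ^ k) = 4 * ((2 : ℤ) ^ (y - 2) * (s : ℤ) ^ y) := by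
        rw [← hSy]; linear_combination -h'
      exact mul_left_cancel₀ (by norm_num) this
    · have h' : (S : ℤ) ^ y + 4 * (r : ℤ) ^ y = 4 * (α : ℤ) ^ k := by exact_mod_cast h
      apply dvd_mul_of_dvd_left
      refine ⟨-(s : ℤ) ^ y, ?_⟩
      have : 4 * ((r : ℤ) ^ y - (α : ℤ) ^ k) = 4 * ((2 : ℤ) ^ (y - 2) * (-(s : ℤ) ^ y)) := by
        have e : 4 * ((2 : ℤ) ^ (y - 2) * (-(s : ℤ) ^ y)) =
          - (4 * ((2 : ℤ) ^ (y - 2) * (s : ℤ) ^ y)) := by ring
        rw [e, ← hSy]; linear_combination h'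
      exact mul_left_cancel₀ (by norm_num) this
  -- the gcd
  obtain ⟨g, q, κ, hg, hqκ, hyq, hkκ⟩ : ∃ g q κ : ℕ, 0 < g ∧ Nat.Coprime q κ ∧ y = q * g ∧
      k = κ * g := by
    obtain ⟨q, κ, h1, h2, h3⟩ := Nat.exists_coprime y k
    exact ⟨Nat.gcd y k, q, κ, Nat.gcd_pos_of_pos_left _ hy, h1, h2, h3⟩
  have hq0 : 0 < q := by
    rcases Nat.eq_zero_or_pos q with h0 | h0
    · rw [h0, zero_mul] at hyq; omega
    · exact h0
  have hκ0 : 0 < κ := by
    rcases Nat.eq_zero_or_pos κ with h0 | h0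
    · rw [h0, zero_mul] at hkκ; omega
    · exact h0
  have hgy : g ≤ y := by rw [hyq]; exact Nat.le_mul_of_pos_left g hq0
  have hqy : q ≤ y := by rw [hyq]; exact Nat.le_mul_of_pos_right q hg
  set lamq := Nat.log 2 q + 1 with hlamq
  have hlamqle : lamq ≤ lam := by
    have := Nat.log_mono_right (b := 2) hqy
    omega
  set νA := Nat.log 2 α + 1 with hνA
  have hνAK : νA ≤ K := by
    have h1 : Nat.log 2 α < α := Nat.log_lt_self 2 (by omega)
    omega
  have hανA : α < 2 ^ νA := Nat.lt_pow_succ_log_self (by norm_num) α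
  have hνA1 : 1 ≤ νA := by omega
  set M := y - 2 - Nat.log 2 y with hM
  have hr' : Odd (r : ℤ) := by exact_mod_cast hro
  have hα' : Odd (α : ℤ) := by exact_mod_cast hαo
  have hXY : (2 : ℤ) ^ M ∣ (r : ℤ) ^ (2 * q) - (α : ℤ) ^ (2 * κ) := by
    have h1 : (2 : ℤ) ^ (y - 2) ∣ ((r : ℤ) ^ (2 * q)) ^ g - ((α : ℤ) ^ (2 * κ)) ^ g := by
      rw [← pow_mul, ← pow_mul, mul_assoc, mul_assoc, ← hyq, ← hkκ]
      exact hdiv1
    have h4 : (4 : ℤ) ∣ (r : ℤ) ^ (2 * q) - (α : ℤ) ^ (2 * κ) := by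
      rw [mul_comm 2 q, mul_comm 2 κ, pow_mul, pow_mul]
      exact four_dvd_of_odd_sq hr'.pow hα'.pow
    have hX : ¬ (2 : ℤ) ∣ (r : ℤ) ^ (2 * q) := by
      have := (hr'.pow (n := 2 * q))
      rw [← Int.not_even_iff_odd] at this
      rwa [even_iff_two_dvd] at this
    have h5 := lte hg h4 hX h1
    refine dvd_trans (pow_dvd_pow _ ?_) h5
    have := Nat.log_mono_right (b := 2) hgy
    omega
  have hne : (r : ℤ) ^ (2 * q) - (α : ℤ) ^ (2 * κ) ≠ 0 := by
    intro h0
    have h1 : r ^ (2 * q) = α ^ (2 * κ) := by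
      have : (r : ℤ) ^ (2 * q) = (α : ℤ) ^ (2 * κ) := by linarith
      exact_mod_cast this
    have h2 : Nat.Coprime (α ^ (2 * κ)) (r ^ (2 * q)) := Nat.Coprime.pow _ _ hcr
    rw [h1, Nat.coprime_self] at h2
    have h3 : 1 < α ^ (2 * κ) := Nat.one_lt_pow (by omega) (by omega)
    omega
  have hsizeκ : α ^ κ ≤ (2 * N) ^ q := by
    have h1 : (α ^ κ) ^ g ≤ ((2 * N) ^ q) ^ g := by
      rw [← pow_mul, ← pow_mul, ← hyq, ← hkκ, mul_pow]
      refine hsizeα.trans (Nat.mul_le_mul_right _ ?_)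
      exact Nat.le_self_pow (by omega) 2
    exact (Nat.pow_le_pow_iff_left (by omega)).mp h1
  have h2N : 2 * N < 2 ^ (ν + 1) := by rw [pow_succ]; omega
  have hgoal : ∀ T : ℕ, T ≤ 600000 * K * lam ^ 2 * (ν + 1) → M ≤ T + 1 →
      y ≤ 3 + Nat.log 2 y + 600000 * K * lam ^ 2 * (ν + 1) := by
    intro T hT hMT
    omega
  rcases Nat.lt_or_ge q (600 * 2 * νA * lamq) with hsmall | hbig
  · -- case (i)
    apply hgoal (2400 * K * lam * (ν + 1))
    · calc 2400 * K * lam * (ν + 1) ≤ 600000 * K * lam ^ 2 * (ν + 1) := by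
            apply Nat.mul_le_mul_right
            apply Nat.mul_le_mul
            · apply Nat.mul_le_mul_right; norm_num
            · exact Nat.le_self_pow (by norm_num) lam
        _ = _ := rfl
    · have h1 : (2 : ℤ) ^ M ≤ |(r : ℤ) ^ (2 * q) - (α : ℤ) ^ (2 * κ)| :=
        Int.le_of_dvd (abs_pos.mpr hne) ((dvd_abs _ _).mpr hXY)
      have h2 : (r : ℤ) ^ (2 * q) < 2 ^ (2 * q * (ν + 1)) := by
        have h3 : r ^ (2 * q) < (2 ^ (ν + 1)) ^ (2 * q) :=
          Nat.pow_lt_pow_left (by omega) (by omega)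
        rw [← pow_mul, mul_comm (ν + 1)] at h3
        exact_mod_cast h3
      have h3 : (α : ℤ) ^ (2 * κ) < 2 ^ (2 * q * (ν + 1)) := by
        have h4 : α ^ (2 * κ) < (2 ^ (ν + 1)) ^ (2 * q) := by
          calc α ^ (2 * κ) = (α ^ κ) ^ 2 := by rw [mul_comm, pow_mul]
            _ ≤ ((2 * N) ^ q) ^ 2 := Nat.pow_le_pow_left hsizeκ 2
            _ = (2 * N) ^ (2 * q) := by rw [← pow_mul, mul_comm q]
            _ < _ := Nat.pow_lt_pow_left h2N (by omega)
        rw [← pow_mul, mul_comm (ν + 1)] at h4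
        exact_mod_cast h4
      have h4 : (0 : ℤ) < (r : ℤ) ^ (2 * q) := by positivity
      have h5 : (0 : ℤ) < (α : ℤ) ^ (2 * κ) := by
        have : (0 : ℤ) < α := by exact_mod_cast (by omega : 0 < α)
        positivity
      have h6 : (2 : ℤ) ^ M < 2 ^ (2 * q * (ν + 1)) := by
        refine h1.trans_lt ?_
        rw [abs_lt]
        constructor <;> linarith
      have h7 := (pow_lt_pow_iff_right₀ (by norm_num : (1 : ℤ) < 2)).mp h6
      have h8 : 2 * q * (ν + 1) ≤ 2400 * K * lam * (ν + 1) := by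
        apply Nat.mul_le_mul_right
        calc 2 * q ≤ 2 * (600 * 2 * νA * lamq) := Nat.mul_le_mul_left _ hsmall.le
          _ = 2400 * νA * lamq := by ring
          _ ≤ 2400 * K * lam := Nat.mul_le_mul (Nat.mul_le_mul_left _ hνAK) hlamqle
      omega
  · -- case (ii)
    have hq1 : 1 < q := by
      have : 600 * 2 * 1 * 1 ≤ 600 * 2 * νA * lamq :=
        Nat.mul_le_mul (Nat.mul_le_mul_left _ hνA1) (by omega)
      omega
    set i := κ % q with hi
    set k' := κ / q with hk'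
    have hκdec : κ = k' * q + i := by
      rw [hi, hk', mul_comm]
      exact (Nat.div_add_mod κ q).symm
    have hiq : i < q := Nat.mod_lt _ hq0
    have hicop : Nat.Coprime i q := by
      have h1 : Nat.gcd q κ = 1 := hqκ
      rw [Nat.gcd_rec] at h1
      exact h1
    have hi0 : 0 < i := by
      rcases Nat.eq_zero_or_pos i with h0 | h0
      · rw [h0, Nat.coprime_zero_left] at hicop; omega
      · exact h0
    set b := α ^ k' with hb
    have hb0 : 0 < b := by
      rw [hb]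
      have : 0 < α := by omega
      positivity
    have hbodd : Odd b := hαo.pow
    have hbq : b ^ q ≤ (2 * N) ^ q := by
      refine le_trans ?_ hsizeκ
      rw [hb, ← pow_mul]
      exact Nat.pow_le_pow_right (by omega) (by omega)
    have hb2N : b ≤ 2 * N := (Nat.pow_le_pow_iff_left (by omega)).mp hbq
    have hrel : (2 : ℤ) ^ M ∣ (r : ℤ) ^ (2 * q) - (b : ℤ) ^ (2 * q) * (α : ℤ) ^ (2 * i) := by
      have h1 : (b : ℤ) ^ (2 * q) * (α : ℤ) ^ (2 * i) = (α : ℤ) ^ (2 * κ) := by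
        rw [hb]
        push_cast
        rw [← pow_mul, ← pow_add]
        congr 1
        rw [hκdec]
        ring
      rw [h1]
      exact hXY
    rcases eq_or_ne r b with hrb | hrb
    · -- both are one
      have hk0 : k' = 0 := by
        by_contra hk0
        have h1 : α ∣ r := by
          rw [hrb, hb]
          exact dvd_pow_self _ hk0
        have h2 := Nat.Coprime.eq_one_of_dvd hcr h1
        omega
      have hb1 : b = 1 := by rw [hb, hk0, pow_zero]
      have hr1 : r = 1 := by rw [hrb, hb1]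
      rw [hb1, hr1] at hrel
      have h1 : (2 : ℤ) ^ M ∣ ((α : ℤ) ^ 2) ^ i - 1 ^ i := by
        rw [← pow_mul, one_pow, ← dvd_neg]
        simpa using hrel
      have h4 : (4 : ℤ) ∣ (α : ℤ) ^ 2 - 1 := by
        have := four_dvd_of_odd_sq hα' (odd_one)
        simpa using this
      have hX : ¬ (2 : ℤ) ∣ (α : ℤ) ^ 2 := by
        have := (hα'.pow (n := 2))
        rw [← Int.not_even_iff_odd] at this
        rwa [even_iff_two_dvd] at this
      have h5 := lte hi0 h4 hX h1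
      have h6 : (0 : ℤ) < (α : ℤ) ^ 2 - 1 := by
        have : (2 : ℤ) ≤ α := by exact_mod_cast hα
        nlinarith
      have h7 := Int.le_of_dvd h6 h5
      have h8 : (α : ℤ) ^ 2 < 2 ^ (2 * νA) := by
        have : α ^ 2 < (2 ^ νA) ^ 2 := Nat.pow_lt_pow_left hανA (by norm_num)
        rw [← pow_mul, mul_comm νA] at this
        exact_mod_cast this
      have h9 : (2 : ℤ) ^ (M - Nat.log 2 i) < 2 ^ (2 * νA) := by linarith
      have h10 := (pow_lt_pow_iff_right₀ (by norm_num : (1 : ℤ) < 2)).mp h9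
      have h11 : Nat.log 2 i ≤ Nat.log 2 q := Nat.log_mono_right hiq.le
      apply hgoal (2 * K + lam)
      · have e1 : 2 * K + lam ≤ 2 * K * lam + K * lam := by
          have : 2 * K * 1 ≤ 2 * K * lam := Nat.mul_le_mul_left _ hlam1
          have : 1 * lam ≤ K * lam := Nat.mul_le_mul_right _ (by omega)
          omega
        have e2 : 2 * K * lam + K * lam = 3 * (K * lam) * 1 * 1 := by ring
        have e3 : 3 * (K * lam) * 1 * 1 ≤ 600000 * (K * lam) * lam * (ν + 1) := by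
          apply Nat.mul_le_mul
          · apply Nat.mul_le_mul
            · apply Nat.mul_le_mul_right; norm_num
            · exact hlam1
          · omega
        have e4 : 600000 * (K * lam) * lam * (ν + 1) = 600000 * K * lam ^ 2 * (ν + 1) := by ring
        omega
      · omega
    · have hbnd := two_logs (p := 2) (h := ν + 1) (ν := νA) (q := q) (i := i) (y := M) (a := r)
        (b := b) (A := α) Nat.prime_two (by omega) hνA1 hr hb0 (by omega) hrb (by omega)
        (by omega) hανA hro.not_two_dvd_nat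
        hbodd.not_two_dvd_nat
        hαo.not_two_dvd_nat hi0 hiq hicop (by exact_mod_cast hrel) hbig
      apply hgoal (150000 * 2 ^ 2 * (Nat.log 2 q + 1) ^ 2 * (ν + 1) * νA)
      · calc 150000 * 2 ^ 2 * (Nat.log 2 q + 1) ^ 2 * (ν + 1) * νA
            = 600000 * lamq ^ 2 * (ν + 1) * νA := by rw [← hlamq]; ring
          _ ≤ 600000 * lam ^ 2 * (ν + 1) * K := by
              apply Nat.mul_le_mul _ hνAK
              apply Nat.mul_le_mul_right
              apply Nat.mul_le_mul_left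
              exact Nat.pow_le_pow_left hlamqle 2
          _ = _ := by ring
      · omega

end Pool.Agent.H374R2.V.ZY2
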