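import Mathlib
import Pool.Agent.H374R2.V.ZC0
import Pool.Agent.H374R2.V.ZF1
import Pool.Agent.H374R2.V.ZF2
import Pool.Agent.H374R2.V.ZY1
import Pool.Agent.H374R2.V.ZY2
import Pool.Agent.H374R2.V.ZN

/-!
Task ZC: the number of elements of `S2 N K`.
-/

namespace Pool.Agent.H374R2.V.ZC

theorem S2_card (K : ℕ) : ∃ N₀ : ℕ, ∀ N : ℕ, N₀ ≤ N →
    (S2 N K).ncard ≤ 8 * (K + 1) * ((Nat.log 2 N + 1) ^ 2 + 1) * ((Nat.log 2 N + 1) ^ 3 + 1) *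
      (Nat.sqrt N + 1) :=
  ZC0.S2_card_of ZF1.factor_odd ZF2.factor_even ZY1.y_odd ZY2.y_even ZN.y_num K

end Pool.Agent.H374R2.V.ZC
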