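import Mathlib
import Pool.Agent.Helper919.NonRes

/-! ZD: a residue class of primes modulo which a nonsquare is a nonresidue (helper51) -/

set_option autoImplicit false

namespace Pool.Agent.H374R2.V.ZD

theorem nonres_class (D : ℤ) (hD : ¬ IsSquare D) : ∃ M c : ℕ, 0 < M ∧ Nat.Coprime c M ∧
    ∀ p : ℕ, p.Prime → p ≡ c [MOD M] → ¬ IsSquare ((D : ℤ) : ZMod p) := by
  have hD0 : D ≠ 0 := by rintro rfl; exact hD ⟨0, by simp⟩
  obtain ⟨d, hodd, hJ⟩ := Helper919.exists_jacobi_neg_one D hD
  have hcop : Nat.Coprime D.natAbs d := by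
    by_contra hc
    have h0 : jacobiSym D d = 0 := by
      have hd0 : NeZero d := ⟨by rintro rfl; simp at hodd⟩
      rw [jacobiSym.eq_zero_iff_not_coprime]
      rwa [Int.gcd_eq_natAbs, Int.natAbs_natCast]
    rw [h0] at hJ
    norm_num at hJ
  have hDn : 0 < D.natAbs := Int.natAbs_pos.mpr hD0
  refine ⟨4 * D.natAbs, d, by omega, ?_, ?_⟩
  · refine Nat.Coprime.mul_right ?_ hcop.symm
    have : Nat.Coprime d (2 ^ 2) := Nat.Coprime.pow_right 2 (Nat.coprime_two_right.2 hodd)
    simpa using this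
  · intro p hp hpd hsq
    haveI := Fact.mk hp
    have hpodd : Odd p := by
      have h4 : p ≡ d [MOD 4] := hpd.of_mul_right _
      have h2 : p % 4 = d % 4 := h4
      rw [Nat.odd_iff] at hodd ⊢
      omega
    have e1 := jacobiSym.mod_right D hpodd
    have e2 := jacobiSym.mod_right D hodd
    have e3 : p % (4 * D.natAbs) = d % (4 * D.natAbs) := hpd
    have e4 : jacobiSym D p = -1 := by rw [e1, e3, ← e2, hJ]
    rw [← jacobiSym.legendreSym.to_jacobiSym] at e4
    rw [legendreSym.eq_neg_one_iff] at e4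
    exact e4 hsq

end Pool.Agent.H374R2.V.ZD
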