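import Mathlib
import Pool.Agent.H374R2.V.DefsZ
import Pool.Agent.H374R2.V.ZD
import Pool.Agent.H374R2.GcE

/-!
Density of the integers without a prime factor modulo which `D` is not a square.
-/

namespace Pool.Agent.H374R2.V.ZE

open Finset

/-- Few integers have no small prime factor in a primitive residue class. -/
theorem class_density (q : ℕ) (hq : 0 < q) (c : ℕ) (hc : Nat.Coprime c q) {ε : ℝ} (hε : 0 < ε) :
    ∃ P₀ N₀ : ℕ, ∀ N : ℕ, N₀ ≤ N →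
      (({B : ℕ | 0 < B ∧ B ≤ N ∧ ∀ p : ℕ, p ≤ P₀ → p.Prime → p ≡ c [MOD q] →
        ¬ p ∣ B}.ncard : ℕ) : ℝ) ≤ ε * N := by
  obtain ⟨F, hF, hsum⟩ := Cof.exists_primes_class q hq c hc (-Real.log (ε / 2))
  set R : ℝ := ∏ p ∈ F, (({x : ZMod p | x ≠ 0}.ncard : ℕ) : ℝ) with hR
  set M : ℝ := ∏ p ∈ F, (p : ℝ) with hM
  have hR0 : 0 ≤ R := Finset.prod_nonneg (fun _ _ => by positivity)
  have hM0 : 0 < M := Finset.prod_pos (fun p hp => by exact_mod_cast (hF p hp).1.pos)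
  have hRM : R / M ≤ ε / 2 := by
    have h1 := Cof.prod_le_exp F (fun p hp => (hF p hp).1)
    calc R / M ≤ _ := h1
      _ ≤ Real.exp (Real.log (ε / 2)) := Real.exp_le_exp.mpr (by linarith)
      _ = ε / 2 := Real.exp_log (by positivity)
  obtain ⟨N₀, hN₀⟩ := exists_nat_ge (R / (ε / 2))
  refine ⟨F.sup id, N₀, fun N hN => ?_⟩
  set E : Set ℕ := {B : ℕ | ∀ p : ℕ, p ≤ F.sup id → p.Prime → p ≡ c [MOD q] → ¬ p ∣ B} with hE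
  have h1 := Cof.count1 F (fun p hp => (hF p hp).1) (fun p => {x : ZMod p | x ≠ 0}) E (by
      intro m hm p hp
      have := hm p (Finset.le_sup (f := id) hp) (hF p hp).1 (hF p hp).2
      show (m : ZMod p) ≠ 0
      rwa [Ne, ZMod.natCast_eq_zero_iff]) N
  have h0 : {B : ℕ | 0 < B ∧ B ≤ N ∧ ∀ p : ℕ, p ≤ F.sup id → p.Prime → p ≡ c [MOD q] → ¬ p ∣ B} ⊆
      E ∩ Set.Ioc 0 N := by
    rintro B ⟨h1, h2, h3⟩
    exact ⟨h3, h1, h2⟩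
  have h2 : ((E ∩ Set.Ioc 0 N).ncard : ℝ) ≤ R * ((N : ℝ) / M + 1) := by
    calc _ ≤ (((∏ p ∈ F, {x : ZMod p | x ≠ 0}.ncard) * (N / (∏ p ∈ F, p) + 1) : ℕ) : ℝ) := by
          exact_mod_cast h1
      _ = R * (((N / (∏ p ∈ F, p) : ℕ) : ℝ) + 1) := by rw [hR]; push_cast; ring
      _ ≤ _ := by
        apply mul_le_mul_of_nonneg_left _ hR0
        have h3 : ((N / (∏ p ∈ F, p) : ℕ) : ℝ) ≤ (N : ℝ) / ((∏ p ∈ F, p : ℕ) : ℝ) := Nat.cast_div_le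
        push_cast at h3
        linarith
  have h3 : R ≤ (ε / 2) * N := by
    have h4 : R / (ε / 2) ≤ N := hN₀.trans (by exact_mod_cast hN)
    rwa [div_le_iff₀ (by positivity), mul_comm] at h4
  calc _ ≤ ((E ∩ Set.Ioc 0 N).ncard : ℝ) := by
        exact_mod_cast Set.ncard_le_ncard h0 ((Set.finite_Ioc 0 N).subset Set.inter_subset_right)
    _ ≤ R * ((N : ℝ) / M + 1) := h2
    _ = (R / M) * N + R := by field_simp
    _ ≤ (ε / 2) * N + (ε / 2) * N := by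
      have : (R / M) * N ≤ (ε / 2) * N := mul_le_mul_of_nonneg_right hRM (by positivity)
      linarith
    _ = ε * N := by ring

theorem nonres_density (D : ℤ) (hD : ¬ IsSquare D) {ε : ℝ} (hε : 0 < ε) :
    ∃ P₀ N₀ : ℕ, ∀ N : ℕ, N₀ ≤ N →
      (({B : ℕ | 0 < B ∧ B ≤ N ∧ ∀ p : ℕ, p ≤ P₀ → p.Prime → ¬ IsSquare ((D : ℤ) : ZMod p) →
        ¬ p ∣ B}.ncard : ℕ) : ℝ) ≤ ε * N := by
  obtain ⟨M, c, hM, hc, h⟩ := ZD.nonres_class D hD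
  obtain ⟨P₀, N₀, hN⟩ := class_density M hM c hc hε
  refine ⟨P₀, N₀, fun N hNN => le_trans ?_ (hN N hNN)⟩
  have hfin : {B : ℕ | 0 < B ∧ B ≤ N ∧ ∀ p : ℕ, p ≤ P₀ → p.Prime → p ≡ c [MOD M] →
      ¬ p ∣ B}.Finite :=
    (Set.finite_Ioc 0 N).subset (by rintro B ⟨h1, h2, _⟩; exact ⟨h1, h2⟩)
  have hsub : {B : ℕ | 0 < B ∧ B ≤ N ∧ ∀ p : ℕ, p ≤ P₀ → p.Prime →
      ¬ IsSquare ((D : ℤ) : ZMod p) → ¬ p ∣ B} ⊆
      {B : ℕ | 0 < B ∧ B ≤ N ∧ ∀ p : ℕ, p ≤ P₀ → p.Prime → p ≡ c [MOD M] → ¬ p ∣ B} := by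
    rintro B ⟨h1, h2, h3⟩
    exact ⟨h1, h2, fun p hp1 hp2 hp3 => h3 p hp1 hp2 (h p hp2 hp3)⟩
  exact_mod_cast Set.ncard_le_ncard hsub hfin

end Pool.Agent.H374R2.V.ZE
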