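import Pool.Agent.H374R2.V.DefsZ
import Pool.Agent.H374R2.GcE

/-!
`S2` has density zero (task ZS), from the counting statement (task ZC).
-/

namespace Pool.Agent.H374R2.V.ZS

open Filter

/-- `S2` has density zero, from the statement `S2_card` of task ZC -/
theorem S2_null_of (K : ℕ) (hZC : ∃ N₀ : ℕ, ∀ N : ℕ, N₀ ≤ N →
    (S2 N K).ncard ≤ 8 * (K + 1) * ((Nat.log 2 N + 1) ^ 2 + 1) * ((Nat.log 2 N + 1) ^ 3 + 1) *
      (Nat.sqrt N + 1)) {ε : ℝ} (hε : 0 < ε) : ∃ N₀ : ℕ, ∀ N : ℕ, N₀ ≤ N →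
    ((S2 N K).ncard : ℝ) ≤ ε * N := by
  obtain ⟨N₁, hN₁⟩ := hZC
  have hK0 : (0 : ℝ) ≤ K := Nat.cast_nonneg K
  have e1 := Pool.Agent.H374R2.Gc.log_pow_le (k := 5) (show (0 : ℝ) < 1 / 2 by norm_num)
    (show 0 < 4480 * (K + 1) / ε by positivity)
  obtain ⟨N₀, hN₀⟩ := eventually_atTop.mp ((e1.and
    ((Pool.Agent.H374R2.Gc.tendsto_log_nat.eventually (eventually_ge_atTop 1)).and
      (eventually_ge_atTop 1))))
  refine ⟨max N₀ N₁, fun N hN => ?_⟩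
  obtain ⟨h1, h2, h3⟩ := hN₀ N ((le_max_left _ _).trans hN)
  have h4 := hN₁ N ((le_max_right _ _).trans hN)
  obtain ⟨L, hL⟩ : ∃ L : ℝ, L = Real.log N := ⟨_, rfl⟩
  rw [← hL] at h1 h2
  have hNR : (0 : ℝ) < N := by exact_mod_cast h3
  have hlog2 : (1 : ℝ) / 2 ≤ Real.log 2 := by
    have := Real.log_two_gt_d9
    linarith
  have hν : ((Nat.log 2 N + 1 : ℕ) : ℝ) ≤ 3 * L := by
    have a1 : ((2 : ℝ)) ^ (Nat.log 2 N) ≤ N := by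
      exact_mod_cast Nat.pow_log_le_self 2 (by omega)
    have a2 : (Nat.log 2 N : ℝ) * Real.log 2 ≤ L := by
      rw [hL, ← Real.log_pow]
      exact Real.log_le_log (by positivity) a1
    have a3 : (0 : ℝ) ≤ (Nat.log 2 N : ℝ) := Nat.cast_nonneg _
    push_cast
    nlinarith
  obtain ⟨ν, hνd⟩ : ∃ ν : ℝ, ν = ((Nat.log 2 N + 1 : ℕ) : ℝ) := ⟨_, rfl⟩
  rw [← hνd] at hν
  have hν0 : 0 ≤ ν := by rw [hνd]; positivity
  have hL0 : 0 ≤ L := by linarith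
  have b1 : ν ^ 2 + 1 ≤ 10 * L ^ 2 := by nlinarith
  have b2 : ν ^ 3 + 1 ≤ 28 * L ^ 3 := by
    have c1 : ν ^ 3 ≤ (3 * L) ^ 3 := pow_le_pow_left₀ hν0 hν 3
    have c2 : 1 ≤ L ^ 3 := one_le_pow₀ h2
    nlinarith
  have hs : ((Nat.sqrt N : ℕ) : ℝ) + 1 ≤ 2 * (N : ℝ) ^ ((1 : ℝ) / 2) := by
    rw [← Real.sqrt_eq_rpow]
    have c1 := Real.nat_sqrt_le_real_sqrt (a := N)
    have c2 : 1 ≤ Real.sqrt N := by
      rw [← Real.sqrt_one]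
      exact Real.sqrt_le_sqrt (by exact_mod_cast h3)
    linarith
  have h5 : ((S2 N K).ncard : ℝ) ≤ 8 * (K + 1) * (ν ^ 2 + 1) * (ν ^ 3 + 1) *
      ((Nat.sqrt N : ℕ) + 1) := by
    rw [hνd]
    exact_mod_cast h4
  obtain ⟨R, hR⟩ : ∃ R : ℝ, R = (N : ℝ) ^ ((1 : ℝ) / 2) := ⟨_, rfl⟩
  rw [← hR] at hs h1
  have hR0 : 0 ≤ R := by rw [hR]; positivity
  have hRR : R * R = N := by
    rw [hR, ← Real.sqrt_eq_rpow, Real.mul_self_sqrt hNR.le]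
  have h6 : 4480 * (K + 1) * L ^ 5 ≤ ε * R := by
    have c1 : ε * (4480 * (K + 1) / ε * L ^ 5) ≤ ε * R := mul_le_mul_of_nonneg_left h1 hε.le
    calc 4480 * (K + 1) * L ^ 5 = ε * (4480 * (K + 1) / ε * L ^ 5) := by
          field_simp
      _ ≤ _ := c1
  calc ((S2 N K).ncard : ℝ) ≤ 8 * (K + 1) * (ν ^ 2 + 1) * (ν ^ 3 + 1) *
      ((Nat.sqrt N : ℕ) + 1) := h5
    _ ≤ 8 * (K + 1) * (10 * L ^ 2) * (28 * L ^ 3) * (2 * R) := by gcongr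
    _ = 4480 * (K + 1) * L ^ 5 * R := by ring
    _ ≤ ε * R * R := mul_le_mul_of_nonneg_right h6 hR0
    _ = ε * N := by rw [mul_assoc, hRR]

end Pool.Agent.H374R2.V.ZS
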