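import Mathlib
import Pool.Agent.H374R2.CofC
import Pool.Agent.H374R2.V.Final
import Pool.Agent.H374R2.V.ZC
import Pool.Agent.H374R2.V.ZE
import Pool.Agent.H374R2.V.ZS

/-!
Squares: for every `K` and almost all `B` no number `A^x + B^y` or `|A^x - B^y|` with `2 ≤ A ≤ K`
coprime to `B` is a square; the final theorem for the Fermat-Catalan problem.
-/

namespace Pool.Agent.H374R2.V

open Finset Filter Topology

/-- Integers without a prime factor modulo which `D` is not a square. -/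
def ND (D : ℤ) : Set ℕ :=
  {B | 0 < B ∧ ¬ IsSquare D ∧ ∀ p : ℕ, p.Prime → ¬ IsSquare ((D : ℤ) : ZMod p) → ¬ p ∣ B}

theorem nd_null (D : ℤ) : Cof.NatNull (ND D) := by
  intro ε hε
  by_cases hD : IsSquare D
  · refine ⟨0, fun N _ => ?_⟩
    have : ND D ∩ Set.Ioc 0 N = ∅ := by
      ext B
      simp only [ND, Set.mem_inter_iff, Set.mem_ofPred_eq, Set.mem_empty_iff_false, iff_false]
      rintro ⟨⟨_, h, _⟩, _⟩
      exact h hD
    rw [this, Set.ncard_empty, Nat.cast_zero]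
    positivity
  · obtain ⟨P₀, N₀, h⟩ := ZE.nonres_density D hD hε
    refine ⟨N₀, fun N hN => le_trans ?_ (h N hN)⟩
    have hfin : {B : ℕ | 0 < B ∧ B ≤ N ∧ ∀ p : ℕ, p ≤ P₀ → p.Prime →
        ¬ IsSquare ((D : ℤ) : ZMod p) → ¬ p ∣ B}.Finite :=
      (Set.finite_Icc 0 N).subset (fun B hB => ⟨Nat.zero_le _, hB.2.1⟩)
    exact_mod_cast Set.ncard_le_ncard (by
      rintro B ⟨⟨h1, _, h3⟩, h4⟩
      exact ⟨h1, h4.2, fun p _ hp hpD => h3 p hp hpD⟩) hfin

/-- Integers without prime factor `3` modulo `4`. -/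
def N3 : Set ℕ := {B | 0 < B ∧ ∀ p : ℕ, p.Prime → p % 4 = 3 → ¬ p ∣ B}

theorem n3_null : Cof.NatNull N3 := by
  intro ε hε
  obtain ⟨P₀, N₀, h⟩ := Gc.three_prime hε
  refine ⟨N₀, fun N hN => le_trans ?_ (h N hN)⟩
  have hfin : {B : ℕ | 0 < B ∧ B ≤ N ∧ ∀ p : ℕ, p ≤ P₀ → p.Prime → p % 4 = 3 →
      ¬ p ∣ B}.Finite :=
    (Set.finite_Icc 0 N).subset (fun B hB => ⟨Nat.zero_le _, hB.2.1⟩)
  exact_mod_cast Set.ncard_le_ncard (by
    rintro B ⟨⟨h1, h3⟩, h4⟩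
    exact ⟨h1, h4.2, fun p _ hp hp3 => h3 p hp hp3⟩) hfin

/-- The integers in all the sets `S2 N K`. -/
def S2all (K : ℕ) : Set ℕ :=
  {B | 2 ≤ B ∧ ∃ α k y C : ℕ, 2 ≤ α ∧ α ≤ K ∧ Nat.Coprime α B ∧ 0 < k ∧ 0 < y ∧
    (α ^ (2 * k) + B ^ y = C ^ 2 ∨ B ^ y + C ^ 2 = α ^ (2 * k))}

theorem s2all_null (K : ℕ) : Cof.NatNull (S2all K) := by
  intro ε hε
  obtain ⟨N₀, h⟩ := ZS.S2_null_of K (ZC.S2_card K) hε
  refine ⟨N₀, fun N hN => le_trans ?_ (h N hN)⟩
  have hfin : (S2 N K).Finite := (Set.finite_Icc 0 N).subset (fun B hB => ⟨Nat.zero_le _, hB.2.1⟩)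
  exact_mod_cast Set.ncard_le_ncard (by
    rintro B ⟨⟨h1, h2⟩, h4⟩
    exact ⟨h1, h4.2, h2⟩) hfin

/-- The integers `B` with a square among `A^x + B^y`, `|A^x - B^y|`. -/
def Sq (K : ℕ) : Set ℕ :=
  {B | 0 < B ∧ ∃ A x y C : ℕ, 2 ≤ A ∧ A ≤ K ∧ Nat.Coprime A B ∧ 0 < x ∧ 0 < y ∧
    (A ^ x + B ^ y = C ^ 2 ∨ A ^ x + C ^ 2 = B ^ y ∨ B ^ y + C ^ 2 = A ^ x)}

theorem sq_subset (K : ℕ) : Sq K ⊆
    (⋃ D ∈ Finset.Icc (-(K : ℤ)) K, ND D) ∪ (N3 ∪ S2all K) := by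
  rintro B ⟨hB0, A, x, y, C, hA2, hAK, hAB, hx, hy, h⟩
  by_contra hcon
  simp only [Set.mem_union, Set.mem_iUnion, not_or, not_exists, Finset.mem_Icc] at hcon
  obtain ⟨hD, h3, hS⟩ := hcon
  -- a prime factor `3` modulo `4`
  obtain ⟨p, hp, hp3, hpB⟩ : ∃ p : ℕ, p.Prime ∧ p % 4 = 3 ∧ p ∣ B := by
    by_contra hn
    exact h3 ⟨hB0, fun p hp hp3 hpB => hn ⟨p, hp, hp3, hpB⟩⟩
  have hB2 : 2 ≤ B := hp.two_le.trans (Nat.le_of_dvd hB0 hpB)
  -- nonresidues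
  have hres : ∀ D : ℤ, |D| ≤ K → ¬ IsSquare D → ∃ r : ℕ, r.Prime ∧ ¬ IsSquare ((D : ℤ) : ZMod r) ∧
      r ∣ B := by
    intro D hDK hDs
    by_contra hn
    exact hD D (abs_le.mp hDK) ⟨hB0, hDs, fun r hr hrD hrB => hn ⟨r, hr, hrD, hrB⟩⟩
  have hAmod : ∀ r : ℕ, r.Prime → r ∣ B → (A : ZMod r) ≠ 0 := by
    intro r hr hrB h0
    rw [ZMod.natCast_eq_zero_iff] at h0
    exact hr.not_dvd_one (hAB ▸ Nat.dvd_gcd h0 hrB)
  have hBmod : ∀ r : ℕ, r.Prime → r ∣ B → (B : ZMod r) ^ y = 0 := by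
    intro r hr hrB
    rw [(ZMod.natCast_eq_zero_iff B r).mpr hrB, zero_pow hy.ne']
  -- `D` is a square modulo `r` if `D * t ^ 2` is and `t` is invertible
  have hdiv : ∀ (r : ℕ) (hr : r.Prime) (D t c : ZMod r), t ≠ 0 → D * t ^ 2 = c ^ 2 → IsSquare D := by
    intro r hr D t c ht h1
    have : Fact r.Prime := ⟨hr⟩
    refine ⟨c * t⁻¹, ?_⟩
    have h2 : t * t⁻¹ = 1 := mul_inv_cancel₀ ht
    calc D = D * (t * t⁻¹) ^ 2 := by rw [h2]; ring
      _ = (D * t ^ 2) * (t⁻¹) ^ 2 := by ring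
      _ = c * t⁻¹ * (c * t⁻¹) := by rw [h1]; ring
  rcases Nat.even_or_odd' x with ⟨k, hk | hk⟩
  · -- `x` even
    have hk0 : 0 < k := by omega
    rw [hk] at h
    rcases h with h | h | h
    · exact hS ⟨hB2, A, k, y, C, hA2, hAK, hAB, hk0, hy, Or.inl h⟩
    · -- `-1` is a square modulo `p`
      have h1 := congrArg (fun z : ℕ => (z : ZMod p)) h
      push_cast at h1
      rw [hBmod p hp hpB] at h1
      have : Fact p.Prime := ⟨hp⟩
      have h2 : IsSquare (-1 : ZMod p) := by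
        apply hdiv p hp (-1) ((A : ZMod p) ^ k) (C : ZMod p) (pow_ne_zero _ (hAmod p hp hpB))
        have e : (A : ZMod p) ^ (2 * k) = ((A : ZMod p) ^ k) ^ 2 := by
          rw [← pow_mul, mul_comm]
        rw [e] at h1
        linear_combination -h1
      exact (ZMod.exists_sq_eq_neg_one_iff.mp h2) hp3
    · exact hS ⟨hB2, A, k, y, C, hA2, hAK, hAB, hk0, hy, Or.inr h⟩
  · -- `x` odd
    have hodd : ∀ r : ℕ, (A : ZMod r) ^ x = A * ((A : ZMod r) ^ k) ^ 2 := by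
      intro r
      rw [hk, pow_succ, ← pow_mul, mul_comm k 2]
      ring
    by_cases hsq : IsSquare A
    · obtain ⟨α, hα⟩ := hsq
      have hα2 : 2 ≤ α := by
        by_contra hlt
        have : α = 0 ∨ α = 1 := by omega
        rcases this with h0 | h0 <;> subst h0 <;> omega
      have hαK : α ≤ K := by nlinarith
      have hαB : Nat.Coprime α B := by
        apply Nat.Coprime.coprime_dvd_left _ hAB
        rw [hα]
        exact Dvd.intro _ rfl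
      have hAx : A ^ x = α ^ (2 * x) := by rw [hα, ← sq, ← pow_mul]
      rw [hAx] at h
      rcases h with h | h | h
      · exact hS ⟨hB2, α, x, y, C, hα2, hαK, hαB, hx, hy, Or.inl h⟩
      · have h1 := congrArg (fun z : ℕ => (z : ZMod p)) h
        push_cast at h1
        rw [hBmod p hp hpB] at h1
        have : Fact p.Prime := ⟨hp⟩
        have hα0 : (α : ZMod p) ≠ 0 := by
          intro h0
          apply hAmod p hp hpB
          rw [hα]
          push_cast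
          rw [h0, mul_zero]
        have h2 : IsSquare (-1 : ZMod p) := by
          apply hdiv p hp (-1) ((α : ZMod p) ^ x) (C : ZMod p) (pow_ne_zero _ hα0)
          have e : (α : ZMod p) ^ (2 * x) = ((α : ZMod p) ^ x) ^ 2 := by
            rw [← pow_mul, mul_comm]
          rw [e] at h1
          linear_combination -h1
        exact (ZMod.exists_sq_eq_neg_one_iff.mp h2) hp3
      · exact hS ⟨hB2, α, x, y, C, hα2, hαK, hαB, hx, hy, Or.inr h⟩
    · have hKA : |(A : ℤ)| ≤ K := by rw [Nat.abs_cast]; exact_mod_cast hAK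
      have hKA' : |(-(A : ℤ))| ≤ K := by rw [abs_neg]; exact hKA
      have hsqA : ¬ IsSquare (A : ℤ) := by
        intro h1
        apply hsq
        exact_mod_cast h1
      have hsqA' : ¬ IsSquare (-(A : ℤ)) := by
        rintro ⟨t, ht⟩
        have h1 : 0 ≤ t * t := mul_self_nonneg t
        have h2 : (0 : ℤ) < A := by exact_mod_cast (by omega : 0 < A)
        linarith
      rcases h with h | h | h
      · obtain ⟨r, hr, hrD, hrB⟩ := hres _ hKA hsqA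
        apply hrD
        push_cast
        have h1 := congrArg (fun z : ℕ => (z : ZMod r)) h
        push_cast at h1
        rw [hBmod r hr hrB, hodd r] at h1
        have : Fact r.Prime := ⟨hr⟩
        exact hdiv r hr _ _ (C : ZMod r) (pow_ne_zero _ (hAmod r hr hrB)) (by linear_combination h1)
      · obtain ⟨r, hr, hrD, hrB⟩ := hres _ hKA' hsqA'
        apply hrD
        push_cast
        have h1 := congrArg (fun z : ℕ => (z : ZMod r)) h
        push_cast at h1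
        rw [hBmod r hr hrB, hodd r] at h1
        have : Fact r.Prime := ⟨hr⟩
        exact hdiv r hr _ _ (C : ZMod r) (pow_ne_zero _ (hAmod r hr hrB)) (by linear_combination -h1)
      · obtain ⟨r, hr, hrD, hrB⟩ := hres _ hKA hsqA
        apply hrD
        push_cast
        have h1 := congrArg (fun z : ℕ => (z : ZMod r)) h
        push_cast at h1
        rw [hBmod r hr hrB, hodd r] at h1
        have : Fact r.Prime := ⟨hr⟩
        exact hdiv r hr _ _ (C : ZMod r) (pow_ne_zero _ (hAmod r hr hrB)) (by linear_combination -h1)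

theorem sq_null (K : ℕ) : Cof.NatNull (Sq K) :=
  ((Cof.natNull_biUnion _ _ (fun D _ => nd_null D)).union (n3_null.union (s2all_null K))).mono
    (sq_subset K)

/-- The set of `B ≤ N` occurring in a solution with some `A ≤ N ^ δ` and `z ≥ 3`, or with some
`A ≤ K` and `z ≥ 2`. -/
def AllF (N K : ℕ) (δ : ℝ) : Set ℕ :=
  {B : ℕ | 0 < B ∧ B ≤ N ∧ ∃ A x y z C : ℕ, 0 < A ∧ Nat.Coprime A B ∧
    0 < x ∧ 0 < y ∧ 0 < C ∧ (((A : ℝ) ≤ (N : ℝ) ^ δ ∧ 3 ≤ z) ∨ (2 ≤ A ∧ A ≤ K ∧ 2 ≤ z)) ∧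
    (A ^ x + B ^ y = C ^ z ∨ A ^ x + C ^ z = B ^ y ∨ B ^ y + C ^ z = A ^ x)}

theorem mainF (K : ℕ) : ∀ ε : ℝ, 0 < ε → ∃ δ : ℝ, 0 < δ ∧ ∃ N₀ : ℕ, ∀ N : ℕ, N₀ ≤ N →
    ((AllF N K δ).ncard : ℝ) ≤ ε * N := by
  intro ε hε
  obtain ⟨δ, hδ, N₁, h1⟩ := main (ε / 2) (by positivity)
  obtain ⟨N₂, h2⟩ := sq_null K (ε / 2) (by positivity)
  have e3 := Gc.log_pow_le (k := 0) hδ (show (0 : ℝ) < (K : ℝ) + 1 by positivity)
  obtain ⟨N₃, h3⟩ := eventually_atTop.mp e3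
  refine ⟨δ, hδ, max N₁ (max N₂ N₃), fun N hN => ?_⟩
  simp only [max_le_iff] at hN
  obtain ⟨g1, g2, g3⟩ := hN
  have k1 := h1 N g1
  have k2 := h2 N g2
  have k3 := h3 N g3
  rw [pow_zero, mul_one] at k3
  have hsub : AllF N K δ ⊆ AllV N δ ∪ (Sq K ∩ Set.Ioc 0 N) := by
    rintro B ⟨hB0, hBN, A, x, y, z, C, hA0, hAB, hx, hy, hC, hz, h⟩
    by_cases hz3 : 3 ≤ z
    · left
      have hA : (A : ℝ) ≤ (N : ℝ) ^ δ := by
        rcases hz with ⟨h4, _⟩ | ⟨_, h4, _⟩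
        · exact h4
        · have : (A : ℝ) ≤ K := by exact_mod_cast h4
          linarith
      exact ⟨hB0, hBN, A, x, y, z, C, hA0, hA, hAB, hx, hy, hz3, hC, h⟩
    · right
      rcases hz with ⟨_, h4⟩ | ⟨hA2, hAK, hz2⟩
      · exact absurd h4 hz3
      · have hz' : z = 2 := by omega
        rw [hz'] at h
        exact ⟨⟨hB0, A, x, y, C, hA2, hAK, hAB, hx, hy, h⟩, hB0, hBN⟩
  have hfin1 : (AllV N δ).Finite := (Set.finite_Icc 0 N).subset (fun B hB => ⟨Nat.zero_le _, hB.2.1⟩)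
  have hfin2 : (Sq K ∩ Set.Ioc 0 N).Finite := (Set.finite_Ioc 0 N).subset Set.inter_subset_right
  have h4 := Set.ncard_le_ncard hsub (hfin1.union hfin2)
  have h5 := Set.ncard_union_le (AllV N δ) (Sq K ∩ Set.Ioc 0 N)
  have h6 : ((AllF N K δ).ncard : ℝ) ≤ (AllV N δ).ncard + (Sq K ∩ Set.Ioc 0 N).ncard := by
    exact_mod_cast h4.trans h5
  linarith

end Pool.Agent.H374R2.V
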